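import Mathlib

set_option autoImplicit false

open scoped Pointwise InnerProductSpace

namespace Pool.Agent.MP_34e614_co.H31

section

noncomputable section

/-- Finitely supported real functions on `G`, with the `l2` inner product. -/
def L2 (G : Type*) := G →₀ ℝ

variable {G : Type*}

instance : AddCommGroup (L2 G) := inferInstanceAs (AddCommGroup (G →₀ ℝ))
instance : Module ℝ (L2 G) := inferInstanceAs (Module ℝ (G →₀ ℝ))

/-- The underlying finitely supported function. -/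
def L2.fs (f : L2 G) : G →₀ ℝ := f

/-- Evaluation. -/
def L2.ev (f : L2 G) (x : G) : ℝ := f.fs x

/-- Support. -/
def L2.supp (f : L2 G) : Finset G := f.fs.support

theorem L2.mem_supp {f : L2 G} {x : G} : x ∈ f.supp ↔ f.ev x ≠ 0 := Finsupp.mem_support_iff

theorem L2.ext {f g : L2 G} (h : ∀ x, f.ev x = g.ev x) : f = g := Finsupp.ext h

@[simp] theorem L2.ev_add (f g : L2 G) (x : G) : (f + g).ev x = f.ev x + g.ev x :=
  Finsupp.add_apply f.fs g.fs x
@[simp] theorem L2.ev_sub (f g : L2 G) (x : G) : (f - g).ev x = f.ev x - g.ev x :=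
  Finsupp.sub_apply f.fs g.fs x
@[simp] theorem L2.ev_neg (f : L2 G) (x : G) : (-f).ev x = -f.ev x :=
  Finsupp.neg_apply f.fs x
@[simp] theorem L2.ev_smul (c : ℝ) (f : L2 G) (x : G) : (c • f).ev x = c * f.ev x :=
  Finsupp.smul_apply c f.fs x
@[simp] theorem L2.ev_zero (x : G) : (0 : L2 G).ev x = 0 := rfl
theorem L2.ev_sum {ι : Type*} (s : Finset ι) (f : ι → L2 G) (x : G) :
    (∑ i ∈ s, f i).ev x = ∑ i ∈ s, (f i).ev x := by
  classical
  induction s using Finset.induction_on with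
  | empty => simp
  | insert a s ha ih => simp [Finset.sum_insert ha, ih]

/-- The bare inner product. -/
def L2.inn (f g : L2 G) : ℝ := ∑ x ∈ f.supp, f.ev x * g.ev x

theorem L2.inn_eq (f g : L2 G) (s : Finset G) (h : ∀ x, f.ev x * g.ev x ≠ 0 → x ∈ s) :
    f.inn g = ∑ x ∈ s, f.ev x * g.ev x := by
  classical
  unfold L2.inn
  rw [← Finset.sum_filter_ne_zero f.supp, ← Finset.sum_filter_ne_zero s]
  congr 1
  ext x
  simp only [Finset.mem_filter, L2.mem_supp]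
  constructor
  · rintro ⟨_, h2⟩; exact ⟨h x h2, h2⟩
  · rintro ⟨_, h2⟩; exact ⟨left_ne_zero_of_mul h2, h2⟩

/-- The inner product core. -/
@[reducible] def L2.core (G : Type*) : InnerProductSpace.Core ℝ (L2 G) where
  inner := L2.inn
  conj_inner_symm f g := by
    simp only [conj_trivial]
    rw [L2.inn_eq g f f.supp (fun x hx => L2.mem_supp.2 (right_ne_zero_of_mul hx))]
    unfold L2.inn
    exact Finset.sum_congr rfl fun x _ => mul_comm _ _
  re_inner_nonneg f := by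
    simp only [RCLike.re_to_real]
    exact Finset.sum_nonneg fun x _ => mul_self_nonneg _
  add_left f g h := by
    rw [L2.inn_eq (f + g) h h.supp (fun x hx => L2.mem_supp.2 (right_ne_zero_of_mul hx)),
      L2.inn_eq f h h.supp (fun x hx => L2.mem_supp.2 (right_ne_zero_of_mul hx)),
      L2.inn_eq g h h.supp (fun x hx => L2.mem_supp.2 (right_ne_zero_of_mul hx)),
      ← Finset.sum_add_distrib]
    exact Finset.sum_congr rfl fun x _ => by simp [add_mul]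
  smul_left f g r := by
    rw [L2.inn_eq (r • f) g g.supp (fun x hx => L2.mem_supp.2 (right_ne_zero_of_mul hx)),
      L2.inn_eq f g g.supp (fun x hx => L2.mem_supp.2 (right_ne_zero_of_mul hx)),
      Finset.mul_sum]
    exact Finset.sum_congr rfl fun x _ => by simp [mul_assoc]
  definite f hf := by
    apply L2.ext
    intro x
    by_contra hx
    have h0 := (Finset.sum_eq_zero_iff_of_nonneg (fun y _ => mul_self_nonneg (f.ev y))).1 hf x
      (L2.mem_supp.2 hx)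
    exact hx (mul_self_eq_zero.1 h0)

instance : NormedAddCommGroup (L2 G) :=
  @InnerProductSpace.Core.toNormedAddCommGroup ℝ (L2 G) _ _ _ (L2.core G)

instance : InnerProductSpace ℝ (L2 G) :=
  InnerProductSpace.ofCore (L2.core G).toCore

theorem L2.inner_eq (f g : L2 G) (s : Finset G) (h : ∀ x, f.ev x * g.ev x ≠ 0 → x ∈ s) :
    ⟪f, g⟫_ℝ = ∑ x ∈ s, f.ev x * g.ev x := L2.inn_eq f g s h

theorem L2.norm_sq_eq (f : L2 G) (s : Finset G) (h : ∀ x, f.ev x ≠ 0 → x ∈ s) :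
    ‖f‖ ^ 2 = ∑ x ∈ s, f.ev x ^ 2 := by
  rw [← real_inner_self_eq_norm_sq, L2.inner_eq f f s (fun x hx => h x (left_ne_zero_of_mul hx))]
  exact Finset.sum_congr rfl fun x _ => by ring

/-- Pointwise domination gives norm domination. -/
theorem L2.norm_le_of_abs_le {f g : L2 G} {c : ℝ} (hc : 0 ≤ c)
    (h : ∀ x, |f.ev x| ≤ c * |g.ev x|) : ‖f‖ ≤ c * ‖g‖ := by
  have hs : ∀ x, f.ev x ≠ 0 → x ∈ g.supp := by
    intro x hx
    rw [L2.mem_supp]
    intro h0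
    have := h x
    rw [h0, abs_zero, mul_zero] at this
    exact hx (abs_nonpos_iff.1 this)
  have h2 : ‖f‖ ^ 2 ≤ (c * ‖g‖) ^ 2 := by
    rw [mul_pow, L2.norm_sq_eq f g.supp hs, L2.norm_sq_eq g g.supp (fun x hx => L2.mem_supp.2 hx),
      Finset.mul_sum]
    refine Finset.sum_le_sum fun x _ => ?_
    have := pow_le_pow_left₀ (abs_nonneg _) (h x) 2
    rwa [mul_pow, sq_abs, sq_abs] at this
  exact (pow_le_pow_iff_left₀ (norm_nonneg _) (by positivity) two_ne_zero).1 h2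

/-- Composition with a bijection. -/
def comp (e : G ≃ G) : L2 G →ₗ[ℝ] L2 G where
  toFun f := Finsupp.equivMapDomain e.symm f.fs
  map_add' f g := L2.ext fun x => L2.ev_add f g (e x)
  map_smul' c f := L2.ext fun x => L2.ev_smul c f (e x)

@[simp] theorem ev_comp (e : G ≃ G) (f : L2 G) (x : G) : (comp e f).ev x = f.ev (e x) := rfl

theorem inner_comp (e : G ≃ G) (f g : L2 G) : ⟪comp e f, comp e g⟫_ℝ = ⟪f, g⟫_ℝ := by
  rw [L2.inner_eq f g f.supp (fun x hx => L2.mem_supp.2 (left_ne_zero_of_mul hx)),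
    L2.inner_eq _ _ (f.supp.map e.symm.toEmbedding), Finset.sum_map]
  · simp
  · intro x hx
    simp only [ev_comp] at hx
    simp only [Finset.mem_map_equiv, Equiv.symm_symm]
    exact L2.mem_supp.2 (left_ne_zero_of_mul hx)

theorem norm_comp (e : G ≃ G) (f : L2 G) : ‖comp e f‖ = ‖f‖ := by
  have := inner_comp e f f
  rw [real_inner_self_eq_norm_sq, real_inner_self_eq_norm_sq] at this
  exact (pow_left_inj₀ (norm_nonneg _) (norm_nonneg _) two_ne_zero).1 this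

/-- Multiplication by a function. -/
def mul (φ : G → ℝ) : L2 G →ₗ[ℝ] L2 G where
  toFun f := Finsupp.onFinset f.supp (fun x => φ x * f.ev x)
    (fun _ hx => L2.mem_supp.2 (right_ne_zero_of_mul hx))
  map_add' f g := L2.ext fun x => by
    change φ x * (f + g).ev x = φ x * f.ev x + φ x * g.ev x
    simp [mul_add]
  map_smul' c f := L2.ext fun x => by
    change φ x * (c • f).ev x = c * (φ x * f.ev x)
    simp; ring

@[simp] theorem ev_mul (φ : G → ℝ) (f : L2 G) (x : G) : (mul φ f).ev x = φ x * f.ev x := rfl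

theorem inner_mul (φ : G → ℝ) (f g : L2 G) : ⟪mul φ f, g⟫_ℝ = ⟪f, mul φ g⟫_ℝ := by
  rw [L2.inner_eq _ _ f.supp, L2.inner_eq _ _ f.supp]
  · exact Finset.sum_congr rfl fun x _ => by simp; ring
  · intro x hx; exact L2.mem_supp.2 (left_ne_zero_of_mul hx)
  · intro x hx
    simp only [ev_mul] at hx
    exact L2.mem_supp.2 (right_ne_zero_of_mul (left_ne_zero_of_mul hx))

theorem norm_mul_le {φ : G → ℝ} {c : ℝ} (hc : 0 ≤ c) (h : ∀ x, |φ x| ≤ c) (f : L2 G) :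
    ‖mul φ f‖ ≤ c * ‖f‖ :=
  L2.norm_le_of_abs_le hc fun x => by
    rw [ev_mul, abs_mul]; exact mul_le_mul_of_nonneg_right (h x) (abs_nonneg _)

/-- The indicator function of a finite set. -/
def ind [DecidableEq G] (s : Finset G) : L2 G :=
  Finsupp.onFinset s (fun x => if x ∈ s then 1 else 0) (fun x hx => by
    by_contra h; simp [h] at hx)

@[simp] theorem ev_ind [DecidableEq G] (s : Finset G) (x : G) :
    (ind s).ev x = if x ∈ s then 1 else 0 := rfl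

theorem norm_sq_ind [DecidableEq G] (s : Finset G) : ‖ind s‖ ^ 2 = s.card := by
  rw [L2.norm_sq_eq _ s (fun x hx => by by_contra h; simp [h] at hx)]
  rw [Finset.sum_congr rfl (g := fun _ => (1 : ℝ)) (fun x hx => by simp [hx])]
  simp

theorem inner_ind_single [DecidableEq G] (x : G) (f : L2 G) : ⟪ind {x}, f⟫_ℝ = f.ev x := by
  rw [L2.inner_eq _ _ {x}]
  · simp
  · intro y hy
    by_contra h
    simp only [ev_ind, h, if_false, zero_mul, ne_eq, not_true_eq_false] at hy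

variable [Group G]

/-- Right translation: `(R g f) x = f (x g)`. -/
def R (g : G) : L2 G →ₗ[ℝ] L2 G := comp (Equiv.mulRight g)

@[simp] theorem ev_R (g : G) (f : L2 G) (x : G) : (R g f).ev x = f.ev (x * g) := rfl

theorem norm_R (g : G) (f : L2 G) : ‖R g f‖ = ‖f‖ := norm_comp _ f

theorem inner_R (g : G) (f h : L2 G) : ⟪R g f, R g h⟫_ℝ = ⟪f, h⟫_ℝ := inner_comp _ f h

theorem R_mul (g h : G) (f : L2 G) : R (g * h) f = R g (R h f) :=
  L2.ext fun x => by simp [mul_assoc]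

@[simp] theorem R_one (f : L2 G) : R (1 : G) f = f := L2.ext fun x => by simp

theorem R_mulop (g : G) (φ : G → ℝ) (f : L2 G) :
    R g (mul φ f) = mul (fun x => φ (x * g)) (R g f) := L2.ext fun _ => rfl

/-- Left averaging over `A`: `(M A f) x` is the mean of `f (a x)` over `a ∈ A`. -/
def M (A : Finset G) : L2 G →ₗ[ℝ] L2 G :=
  ((A.card : ℝ)⁻¹) • ∑ a ∈ A, comp (Equiv.mulLeft a)

theorem M_apply (A : Finset G) (f : L2 G) :
    M A f = ((A.card : ℝ)⁻¹) • ∑ a ∈ A, comp (Equiv.mulLeft a) f := by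
  simp [M, LinearMap.sum_apply]

theorem ev_M (A : Finset G) (f : L2 G) (x : G) :
    (M A f).ev x = ((A.card : ℝ)⁻¹) * ∑ a ∈ A, f.ev (a * x) := by
  rw [M_apply, L2.ev_smul, L2.ev_sum]; rfl

theorem R_M (A : Finset G) (g : G) (f : L2 G) : R g (M A f) = M A (R g f) :=
  L2.ext fun x => by simp [ev_M, mul_assoc]

theorem norm_M_le (A : Finset G) (f : L2 G) : ‖M A f‖ ≤ ‖f‖ := by
  rw [M_apply, norm_smul]
  have h : ‖∑ a ∈ A, comp (Equiv.mulLeft a) f‖ ≤ A.card * ‖f‖ := by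
    refine (norm_sum_le _ _).trans ?_
    simp [norm_comp]
  rcases Nat.eq_zero_or_pos A.card with h0 | h0
  · simp [h0]
  · have : (0 : ℝ) < A.card := by exact_mod_cast h0
    rw [Real.norm_eq_abs, abs_of_pos (inv_pos.2 this)]
    calc (A.card : ℝ)⁻¹ * _ ≤ (A.card : ℝ)⁻¹ * (A.card * ‖f‖) :=
          mul_le_mul_of_nonneg_left h (inv_pos.2 this).le
      _ = ‖f‖ := by field_simp

theorem inner_M [DecidableEq G] {A : Finset G} (hs : A⁻¹ = A) (f h : L2 G) :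
    ⟪M A f, h⟫_ℝ = ⟪f, M A h⟫_ℝ := by
  rw [M_apply, M_apply, inner_smul_left, inner_smul_right, sum_inner, inner_sum]
  simp only [conj_trivial]
  congr 1
  have hinv : ∀ a ∈ A, a⁻¹ ∈ A := fun a ha => by rw [← hs]; exact Finset.inv_mem_inv ha
  refine Finset.sum_bij' (fun a _ => a⁻¹) (fun a _ => a⁻¹) hinv hinv (by simp) (by simp) ?_
  intro a _
  rw [← inner_comp (Equiv.mulLeft a⁻¹)]
  congr 1
  exact L2.ext fun x => by simp

/-- The windowed operator `M φ M`. -/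
def T (A : Finset G) (φ : G → ℝ) : L2 G →ₗ[ℝ] L2 G := M A ∘ₗ mul φ ∘ₗ M A

theorem T_apply (A : Finset G) (φ : G → ℝ) (f : L2 G) : T A φ f = M A (mul φ (M A f)) := rfl

/-- `R g - 1` restricted to a subspace, as a continuous linear map. -/
def dE (E : Submodule ℝ (L2 G)) (g : G) : E →L[ℝ] L2 G :=
  LinearMap.mkContinuous ((R g - LinearMap.id) ∘ₗ E.subtype) 2 (fun f => by
    have := norm_sub_le (R g (f : L2 G)) (f : L2 G)
    rw [norm_R] at this
    simpa [two_mul] using this)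

theorem dE_le (E : Submodule ℝ (L2 G)) (g : G) {f : L2 G} (hf : f ∈ E) :
    ‖R g f - f‖ ≤ ‖dE E g‖ * ‖f‖ := (dE E g).le_opNorm ⟨f, hf⟩

theorem dE_bound (E : Submodule ℝ (L2 G)) (g : G) {c : ℝ} (hc : 0 ≤ c)
    (h : ∀ f ∈ E, ‖R g f - f‖ ≤ c * ‖f‖) : ‖dE E g‖ ≤ c :=
  (dE E g).opNorm_le_bound hc fun f => h f f.2

/-- The seminorm `g ↦ ‖(R g - 1) | E‖`. -/
def aE (E : Submodule ℝ (L2 G)) : GroupSeminorm G where
  toFun g := ‖dE E g‖
  map_one' := le_antisymm (dE_bound E 1 le_rfl fun f _ => by simp) (dE E 1).opNorm_nonneg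
  mul_le' g h := dE_bound E _ (add_nonneg (dE E g).opNorm_nonneg (dE E h).opNorm_nonneg)
      fun f hf => by
    have e : R (g * h) f - f = R g (R h f - f) + (R g f - f) := by
      rw [R_mul, map_sub]; abel
    rw [e]
    refine (norm_add_le _ _).trans ?_
    rw [norm_R]
    have h1 := dE_le E g hf
    have h2 := dE_le E h hf
    linarith
  inv' g := by
    have key : ∀ g : G, ‖dE E g⁻¹‖ ≤ ‖dE E g‖ := fun g =>
      dE_bound E _ (dE E g).opNorm_nonneg fun f hf => by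
        have e : R g (R g⁻¹ f - f) = -(R g f - f) := by
          rw [map_sub, ← R_mul]; simp
        rw [← norm_R g, e, norm_neg]
        exact dE_le E g hf
    exact le_antisymm (key g) (by simpa using key g⁻¹)

theorem aE_apply (E : Submodule ℝ (L2 G)) (g : G) : aE E g = ‖dE E g‖ := by
  unfold aE; rfl

theorem aE_le (E : Submodule ℝ (L2 G)) (g : G) {f : L2 G} (hf : f ∈ E) :
    ‖R g f - f‖ ≤ aE E g * ‖f‖ := by rw [aE_apply]; exact dE_le E g hf

theorem aE_bound (E : Submodule ℝ (L2 G)) (g : G) {c : ℝ} (hc : 0 ≤ c)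
    (h : ∀ f ∈ E, ‖R g f - f‖ ≤ c * ‖f‖) : aE E g ≤ c := by
  rw [aE_apply]; exact dE_bound E g hc h

theorem aE_le_two (E : Submodule ℝ (L2 G)) (g : G) : aE E g ≤ 2 :=
  aE_bound E g (by norm_num) fun f _ => by
    have := norm_sub_le (R g f) f
    rw [norm_R] at this
    linarith

end

end

section

noncomputable section

/-- `E` is a spectral subspace of `T`: eigenvalues at least `hi` on `E`, at most `lo` on `Eᗮ`. -/
structure Spec {H : Type*} [NormedAddCommGroup H] [InnerProductSpace ℝ H] (T : H →ₗ[ℝ] H)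
    (E : Submodule ℝ H) (lo hi : ℝ) : Prop where
  fd : FiniteDimensional ℝ E
  lo_nonneg : 0 ≤ lo
  lt : lo < hi
  inv : ∀ f ∈ E, ∃ f' ∈ E, T f' = f ∧ hi * ‖f'‖ ≤ ‖f‖
  map : ∀ f ∈ E, T f ∈ E
  perp : ∀ u ∈ Eᗮ, T u ∈ Eᗮ ∧ ‖T u‖ ≤ lo * ‖u‖

/-- Orthogonal splitting along a finite-dimensional subspace. -/
theorem split {H : Type*} [NormedAddCommGroup H] [InnerProductSpace ℝ H] (E : Submodule ℝ H)
    [FiniteDimensional ℝ E] (y : H) :
    ∃ p ∈ E, y - p ∈ Eᗮ ∧ ‖p‖ ≤ ‖y‖ ∧ ‖y - p‖ ≤ ‖y‖ := by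
  obtain ⟨p, hp, q, hq, rfl⟩ := E.exists_add_mem_mem_orthogonal y
  have h0 : ⟪p, q⟫_ℝ = 0 := (Submodule.mem_orthogonal E q).1 hq p hp
  have h1 : ‖p + q‖ ^ 2 = ‖p‖ ^ 2 + ‖q‖ ^ 2 := by
    rw [norm_add_sq_real, h0]; ring
  refine ⟨p, hp, by simpa using hq, ?_, ?_⟩
  · exact (pow_le_pow_iff_left₀ (norm_nonneg _) (norm_nonneg _) two_ne_zero).1
      (by rw [h1]; nlinarith [sq_nonneg ‖q‖])
  · rw [add_sub_cancel_left]
    exact (pow_le_pow_iff_left₀ (norm_nonneg _) (norm_nonneg _) two_ne_zero).1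
      (by rw [h1]; nlinarith [sq_nonneg ‖p‖])

variable {G : Type*} [Group G] [DecidableEq G]

/-- `R v - 1` has norm at most `θ` on smoothed and weighted functions. -/
def Sm (A : Finset G) (ω : G → ℝ) (θ : ℝ) (v : G) : Prop :=
  ∀ u : L2 G, ‖R v (M A (mul ω u)) - M A (mul ω u)‖ ≤ θ * ‖u‖

/-- The first `n` powers of `q` satisfy `V`. -/
def Trap (V : G → Prop) (q : G) (n : ℕ) : Prop := ∀ j : ℕ, 1 ≤ j → j ≤ n → V (q ^ j)

open Classical in
/-- The ball of radius `r` of a seminorm, inside `U`. -/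
def ball (U : Finset G) (a : GroupSeminorm G) (r : ℝ) : Finset G := U.filter fun g => a g ≤ r

omit [DecidableEq G] in
theorem mem_ball {U : Finset G} {a : GroupSeminorm G} {r : ℝ} {g : G} :
    g ∈ ball U a r ↔ g ∈ U ∧ a g ≤ r := by
  unfold ball; exact Finset.mem_filter

/-- A seminorm that traps itself and whose balls are doubling at every scale. -/
structure NSS (U : Finset G) (a : GroupSeminorm G) (t Λ P : ℝ) (n₀ : ℕ) : Prop where
  mem : ∀ g, a g ≤ t → g ∈ U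
  trap : ∀ (g : G) (n : ℕ), 1 ≤ n → n ≤ n₀ → Trap (fun x => a x ≤ t) g n → a g ≤ Λ / n
  dbl : ∀ r : ℝ, t / n₀ ≤ r → r ≤ t →
    ((ball U a r).card : ℝ) ≤ P * (ball U a (r / 2)).card
  top : (U.card : ℝ) ≤ P * (ball U a t).card

theorem one_mem_pow_four {A : Finset G} (hA : A.Nonempty) (hs : A⁻¹ = A) : (1 : G) ∈ A ^ 4 := by
  obtain ⟨a, ha⟩ := hA
  have hi : a⁻¹ ∈ A := by rw [← hs]; exact Finset.inv_mem_inv ha
  have h2 : (1 : G) ∈ A ^ 2 := by
    rw [pow_two]; exact Finset.mem_mul.2 ⟨a, ha, a⁻¹, hi, by simp⟩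
  rw [show (4 : ℕ) = 2 + 2 from rfl, pow_add]
  exact Finset.mem_mul.2 ⟨1, h2, 1, h2, by simp⟩

end

end

section

noncomputable section

variable {G : Type*} [Group G] [DecidableEq G]

/-- The normalised indicator function of `Y⁻¹ z`. -/
def xi (Y : Finset G) (z : G) : L2 G := √(Y.card : ℝ) • M Y (ind {z})

/-- The correlation of `ζ` with `xi Y z`. -/
def cor (Y : Finset G) (ζ : L2 G) (z : G) : ℝ := ⟪xi Y z, ζ⟫_ℝ

open Classical in
/-- The points with correlation at least `3 / 4`. -/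
def Om (Y : Finset G) (ζ : L2 G) : Finset G := (Y * ζ.supp).filter fun z => 3 / 4 ≤ cor Y ζ z

/-- The partition function. -/
def gZ (Y : Finset G) (β : ℝ) (ζ : L2 G) : ℝ := ∑ z ∈ Om Y ζ, Real.exp (β * cor Y ζ z)

/-- The functional that is maximised. -/
def gF (Y : Finset G) (β : ℝ) (ζ : L2 G) : ℝ := gZ Y β ζ * Real.exp (-(β * ‖ζ‖ ^ 2 / 2))

/-- The Gibbs weight. -/
def gnu (Y : Finset G) (β : ℝ) (ζ : L2 G) (z : G) : ℝ := Real.exp (β * cor Y ζ z) / gZ Y β ζ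

/-- The Gibbs mean. -/
def gm (Y : Finset G) (β : ℝ) (ζ : L2 G) : L2 G := ∑ z ∈ Om Y ζ, gnu Y β ζ z • xi Y z

open Classical in
/-- The almost stabiliser of `ζ`. -/
def gU (Y : Finset G) (β : ℝ) (ζ : L2 G) : Finset G :=
  (Om Y ζ).filter fun g => ‖R g ζ - ζ‖ ≤ 1 / β

/-- `Y` is almost invariant under the large set `S`. -/
structure Fol (Y S : Finset G) (L : ℝ) : Prop where
  ne : Y.Nonempty
  symm : Y⁻¹ = Y
  one : (1 : G) ∈ S
  fol : ∀ s ∈ S, 99 / 100 ≤ ⟪xi Y s, xi Y 1⟫_ℝ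
  L_nonneg : 0 ≤ L
  card : ((Y ^ 4).card : ℝ) ≤ Real.exp L * S.card

/-- An almost fixed point of the Gibbs mean map. -/
structure Gib (Y S : Finset G) (β σ : ℝ) (ζ : L2 G) : Prop where
  norm_le : ‖ζ‖ ≤ 1
  one : 4 / 5 ≤ cor Y ζ 1
  big : S.card * Real.exp (21 / 25 * β) ≤ gZ Y β ζ
  fix : ‖gm Y β ζ - ζ‖ ^ 2 ≤ σ

/-- A pair of square summable weights that detects the complement of `U`. -/
structure WinQ (Y U : Finset G) (ω₀ ω : G → ℝ) (C ε c : ℝ) : Prop where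
  one_mem : (1 : G) ∈ U
  nonneg : ∀ x, 0 ≤ ω₀ x
  le : ∀ x, ω₀ x ≤ ω x
  shift : ∀ x, ∀ z ∈ U, ∀ z' ∈ U, ω₀ (x * z * z') ^ 2 ≤ C * ω x ^ 2
  supp : ∃ Ω : Finset G, (∀ x, ω x ≠ 0 → x ∈ Ω) ∧ ∑ x ∈ Ω, ω x ^ 2 ≤ 1 ^ 2 * Y.card ∧
    ∑ x ∈ Ω, (ω x - ω₀ x) ^ 2 ≤ ε ^ 2 * Y.card
  detect : ∃ u : L2 G, ‖u‖ ≤ 1 ∧
    ∀ g, g ∉ U → c ≤ ‖R g (M Y (mul ω₀ u)) - M Y (mul ω₀ u)‖

/-- A window function with Lipschitz bound `lam` relative to `ω ^ 2`. -/
structure PhiQ (U : Finset G) (ω₀ ω φ : G → ℝ) (C : ℝ) (lam : G → ℝ) : Prop where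
  C_nonneg : 0 ≤ C
  lam_nonneg : ∀ q, 0 ≤ lam q
  ge : ∀ x, ω₀ x ^ 2 ≤ φ x
  le : ∀ x, φ x ≤ C * ω x ^ 2
  lip : ∀ q ∈ U, ∀ x, |φ (x * q) - φ x| ≤ lam q * ω x ^ 2

end

end

section

theorem spectral_symm {H : Type*} [NormedAddCommGroup H] [InnerProductSpace ℝ H] {ι : Type*}
    (s : Finset ι) (v : ι → H) (T : H →ₗ[ℝ] H) (hT : ∀ u, T u = ∑ x ∈ s, ⟪v x, u⟫_ℝ • v x)
    (u w : H) : ⟪T u, w⟫_ℝ = ⟪u, T w⟫_ℝ := by
  rw [hT u, hT w, sum_inner, inner_sum]
  refine Finset.sum_congr rfl fun x _ => ?_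
  rw [real_inner_smul_left, real_inner_smul_right, real_inner_comm u (v x), mul_comm]

theorem spectral_diag {H : Type*} [NormedAddCommGroup H] [InnerProductSpace ℝ H] {ι : Type*}
    (s : Finset ι) (v : ι → H) (T : H →ₗ[ℝ] H) (hT : ∀ u, T u = ∑ x ∈ s, ⟪v x, u⟫_ℝ • v x) :
    ∃ (n : ℕ) (e : Fin n → H) (l : Fin n → ℝ), Orthonormal ℝ e ∧ (∀ i, 0 ≤ l i) ∧
      ∑ i, l i ≤ ∑ x ∈ s, ‖v x‖ ^ 2 ∧ (∀ i, T (e i) = l i • e i) ∧
      ∀ u, T u = ∑ i, (l i * ⟪e i, u⟫_ℝ) • e i := by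
  let F : Submodule ℝ H := Submodule.span ℝ (v '' s)
  have : FiniteDimensional ℝ F := FiniteDimensional.span_of_finite ℝ (s.finite_toSet.image v)
  have hF : ∀ u, T u ∈ F := fun u => by
    rw [hT u]
    exact F.sum_mem fun x hx => F.smul_mem _ (Submodule.subset_span ⟨x, hx, rfl⟩)
  let T' : F →ₗ[ℝ] F := T.restrict fun u _ => hF u
  have hs : T'.IsSymmetric := fun x y => spectral_symm s v T hT x y
  let b := hs.eigenvectorBasis rfl
  have he : Orthonormal ℝ fun i => (b i : H) := b.orthonormal.comp_linearIsometry F.subtypeₗᵢ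
  have h1 : ∀ i, T (b i : H) = hs.eigenvalues rfl i • (b i : H) := fun i =>
    congrArg Subtype.val (hs.apply_eigenvectorBasis rfl i)
  have h2 : ∀ i, hs.eigenvalues rfl i = ∑ x ∈ s, ⟪(b i : H), v x⟫_ℝ ^ 2 := fun i => by
    have h3 : ⟪(b i : H), T (b i : H)⟫_ℝ = hs.eigenvalues rfl i := by
      rw [h1, real_inner_smul_right, real_inner_self_eq_norm_sq, he.1 i]
      simp
    rw [← h3, hT, inner_sum]
    refine Finset.sum_congr rfl fun x _ => ?_
    rw [real_inner_smul_right, real_inner_comm (v x), sq]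
  refine ⟨_, fun i => (b i : H), hs.eigenvalues rfl, he, fun i => ?_, ?_, h1, fun u => ?_⟩
  · rw [h2]
    exact Finset.sum_nonneg fun x _ => sq_nonneg _
  · simp only [h2]
    rw [Finset.sum_comm]
    refine Finset.sum_le_sum fun x _ => ?_
    simpa only [Real.norm_eq_abs, sq_abs] using he.sum_inner_products_le (s := Finset.univ) (v x)
  · have h4 := congrArg Subtype.val (b.sum_repr' ⟨T u, hF u⟩)
    rw [Submodule.coe_sum] at h4
    refine h4.symm.trans (Finset.sum_congr rfl fun i _ => ?_)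
    rw [Submodule.coe_smul, Submodule.coe_inner, ← spectral_symm s v T hT, h1,
      real_inner_smul_left]

theorem spectral_norm {H : Type*} [NormedAddCommGroup H] [InnerProductSpace ℝ H] {κ : Type*}
    {e : κ → H} (he : Orthonormal ℝ e) (c : κ → ℝ) (J : Finset κ) :
    ‖∑ i ∈ J, c i • e i‖ ^ 2 = ∑ i ∈ J, c i ^ 2 := by
  rw [← real_inner_self_eq_norm_sq, he.inner_sum]
  simp [sq]

theorem spectral_card {n : ℕ} {l : Fin n → ℝ} (hl : ∀ i, 0 ≤ l i) {D τ : ℝ} (hD : ∑ i, l i ≤ D)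
    (hτ : 0 < τ) (J : Finset (Fin n)) (hJ : ∀ i ∈ J, τ / 2 ≤ l i) : (J.card : ℝ) ≤ 2 * D / τ := by
  have h1 := Finset.card_nsmul_le_sum J l _ hJ
  have h2 : ∑ i ∈ J, l i ≤ ∑ i, l i :=
    Finset.sum_le_sum_of_subset_of_nonneg (Finset.subset_univ J) fun i _ _ => hl i
  rw [nsmul_eq_mul] at h1
  rw [le_div_iff₀ hτ]
  linarith

theorem spectral_gap {n : ℕ} {l : Fin n → ℝ} (hl : ∀ i, 0 ≤ l i) {D τ : ℝ} (hD : ∑ i, l i ≤ D)
    (hτ : 0 < τ) (hτD : τ ≤ D) : ∃ lo hi : ℝ, τ / 2 ≤ lo ∧ hi ≤ τ ∧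
      lo + τ ^ 2 / (6 * D) ≤ hi ∧ ∀ i, l i < lo ∨ hi ≤ l i := by
  let J : Finset (Fin n) := Finset.univ.filter fun i => τ / 2 ≤ l i
  have hm := spectral_card hl hD hτ J fun i hi => (Finset.mem_filter.1 hi).2
  have hD0 : 0 < D := hτ.trans_le hτD
  obtain ⟨γ, hγ⟩ : ∃ γ : ℝ, γ = τ / (2 * (J.card + 1)) := ⟨_, rfl⟩
  have h0 : 0 < γ := by rw [hγ]; positivity
  have h1 : γ * (2 * (J.card + 1)) = τ := by rw [hγ]; field_simp
  have h2 : τ ^ 2 / (6 * D) ≤ γ := by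
    rw [le_div_iff₀ hτ] at hm
    rw [hγ, div_le_div_iff₀ (by positivity) (by positivity)]
    nlinarith
  obtain ⟨k, hk, h⟩ : ∃ k ∈ Finset.range (J.card + 1),
      ∀ i, l i < τ / 2 + k * γ ∨ τ / 2 + (k + 1) * γ ≤ l i := by
    by_contra hn
    push Not at hn
    rcases n with _ | n
    · exact (hn 0 (by simp)).choose.elim0
    choose! g g1 g2 using hn
    have h3 := Finset.card_le_card_of_injOn (s := Finset.range (J.card + 1)) (t := J) g
      (fun k hk => Finset.mem_filter.2 ⟨Finset.mem_univ _, le_trans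
        (le_add_of_nonneg_right (by positivity)) (g1 k hk)⟩) fun k hk k' hk' e => by
        have a1 := g1 k hk
        have a2 := g2 k hk
        have a3 := g1 k' hk'
        have a4 := g2 k' hk'
        rw [e] at a1 a2
        have b1 : (k : ℝ) < k' + 1 := lt_of_mul_lt_mul_right (by linarith) h0.le
        have b2 : (k' : ℝ) < k + 1 := lt_of_mul_lt_mul_right (by linarith) h0.le
        have c1 : k < k' + 1 := by exact_mod_cast b1
        have c2 : k' < k + 1 := by exact_mod_cast b2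
        omega
    rw [Finset.card_range] at h3
    omega
  have h4 : (k : ℝ) + 1 ≤ J.card + 1 := by exact_mod_cast Finset.mem_range.1 hk
  refine ⟨_, _, le_add_of_nonneg_right (by positivity), ?_, by linarith, h⟩
  nlinarith

theorem spectral {H : Type*} [NormedAddCommGroup H] [InnerProductSpace ℝ H] {ι : Type*}
    (s : Finset ι) (v : ι → H) (T : H →ₗ[ℝ] H) (hT : ∀ u, T u = ∑ x ∈ s, ⟪v x, u⟫_ℝ • v x)
    {D τ : ℝ} (hD : ∑ x ∈ s, ‖v x‖ ^ 2 ≤ D) (hτ : 0 < τ) (hτD : τ ≤ D) :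
    ∃ (E : Submodule ℝ H) (lo hi : ℝ), Spec T E lo hi ∧ τ / 2 ≤ lo ∧ hi ≤ τ ∧
      lo + τ ^ 2 / (6 * D) ≤ hi ∧ (Module.finrank ℝ E : ℝ) ≤ 2 * D / τ := by
  classical
  obtain ⟨n, e, l, he, hl, h1, h2, h3⟩ := spectral_diag s v T hT
  obtain ⟨lo, hi, k1, k2, k3, k4⟩ := spectral_gap hl (h1.trans hD) hτ hτD
  have hD0 : 0 < D := hτ.trans_le hτD
  have hlo : 0 < lo := (half_pos hτ).trans_le k1
  have hlt : lo < hi := lt_of_lt_of_le (lt_add_of_pos_right _ (by positivity)) k3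
  let J : Finset (Fin n) := Finset.univ.filter fun i => hi ≤ l i
  have hJ : ∀ i, i ∈ J ↔ hi ≤ l i := fun i => by simp [J]
  let E : Submodule ℝ H := Submodule.span ℝ (e '' J)
  have hE : ∀ i ∈ J, e i ∈ E := fun i h => Submodule.subset_span ⟨i, h, rfl⟩
  have hmap : ∀ f ∈ E, T f ∈ E := fun f hf => by
    obtain ⟨c, rfl⟩ := (Submodule.mem_span_image_finset_iff_exists_fun' ℝ).1 hf
    rw [map_sum]
    exact E.sum_mem fun i h => by
      rw [map_smul, h2]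
      exact E.smul_mem _ (E.smul_mem _ (hE i h))
  refine ⟨E, lo, hi, ⟨FiniteDimensional.span_of_finite ℝ (J.finite_toSet.image e), hlo.le, hlt,
    fun f hf => ?_, hmap, fun u hu => ⟨?_, ?_⟩⟩, k1, k2, k3, ?_⟩
  · obtain ⟨c, rfl⟩ := (Submodule.mem_span_image_finset_iff_exists_fun' ℝ).1 hf
    have hp : ∀ i ∈ J, 0 < l i := fun i h => (hlo.trans hlt).trans_le ((hJ i).1 h)
    refine ⟨∑ i ∈ J, (c i / l i) • e i, E.sum_mem fun i h => E.smul_mem _ (hE i h), ?_, ?_⟩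
    · rw [map_sum]
      refine Finset.sum_congr rfl fun i h => ?_
      rw [map_smul, h2, smul_smul, div_mul_cancel₀ _ (hp i h).ne']
    · refine (pow_le_pow_iff_left₀ (mul_nonneg (hlo.trans hlt).le (norm_nonneg _))
        (norm_nonneg _) two_ne_zero).1 ?_
      rw [mul_pow, spectral_norm he, spectral_norm he, Finset.mul_sum]
      refine Finset.sum_le_sum fun i h => ?_
      have a1 : hi ^ 2 ≤ l i ^ 2 := pow_le_pow_left₀ (hlo.trans hlt).le ((hJ i).1 h) 2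
      have a2 : l i ^ 2 * (c i / l i) ^ 2 = c i ^ 2 := by
        rw [← mul_pow, mul_div_cancel₀ _ (hp i h).ne']
      rw [← a2]
      exact mul_le_mul_of_nonneg_right a1 (sq_nonneg _)
  · refine (Submodule.mem_orthogonal E _).2 fun w hw => ?_
    rw [← spectral_symm s v T hT]
    exact (Submodule.mem_orthogonal E _).1 hu _ (hmap w hw)
  · refine (pow_le_pow_iff_left₀ (norm_nonneg _) (mul_nonneg hlo.le (norm_nonneg _))
      two_ne_zero).1 ?_
    have a0 : ∑ i, ⟪e i, u⟫_ℝ ^ 2 ≤ ‖u‖ ^ 2 := by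
      simpa only [Real.norm_eq_abs, sq_abs] using he.sum_inner_products_le (s := Finset.univ) u
    rw [h3, spectral_norm he, mul_pow]
    refine le_trans ?_ (mul_le_mul_of_nonneg_left a0 (sq_nonneg lo))
    rw [Finset.mul_sum]
    refine Finset.sum_le_sum fun i _ => ?_
    rcases k4 i with h | h
    · rw [mul_pow]
      exact mul_le_mul_of_nonneg_right (pow_le_pow_left₀ (hl i) h.le 2) (sq_nonneg _)
    · rw [(Submodule.mem_orthogonal E _).1 hu _ (hE i ((hJ i).2 h))]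
      simp
  · refine le_trans ?_ (spectral_card hl (h1.trans hD) hτ J fun i h =>
      (k1.trans hlt.le).trans ((hJ i).1 h))
    have a1 : Module.finrank ℝ E ≤ (J.image e).card := by
      have := finrank_span_finset_le_card (R := ℝ) (J.image e)
      rwa [Set.finrank, Finset.coe_image] at this
    exact_mod_cast a1.trans Finset.card_image_le

end

section

variable {G : Type*} [Group G] [DecidableEq G]

omit [Group G] in
theorem spect_mul {φ : G → ℝ} (Ω : Finset G) (hΩ : ∀ x, φ x ≠ 0 → x ∈ Ω) (w : L2 G) :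
    mul φ w = ∑ x ∈ Ω, (φ x * w.ev x) • ind {x} := by
  refine L2.ext fun y => ?_
  rw [L2.ev_sum, ev_mul]
  simp only [L2.ev_smul, ev_ind, Finset.mem_singleton, mul_ite, mul_one, mul_zero,
    Finset.sum_ite_eq]
  split_ifs with h
  · rfl
  · rw [not_not.1 (mt (hΩ y) h), zero_mul]

theorem spect_norm {A : Finset G} (hA : A.Nonempty) (x : G) :
    ‖M A (ind {x})‖ ^ 2 ≤ (A.card : ℝ)⁻¹ := by
  have hc : (0 : ℝ) < A.card := by exact_mod_cast hA.card_pos
  have h1 : ‖M A (ind {x})‖ ≤ (A.card : ℝ)⁻¹ * ‖ind (A.image fun a => a⁻¹ * x)‖ := by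
    refine L2.norm_le_of_abs_le (inv_pos.2 hc).le fun y => ?_
    rw [ev_M, abs_mul, abs_of_pos (inv_pos.2 hc)]
    refine mul_le_mul_of_nonneg_left (le_of_eq (congrArg _ ?_)) (inv_pos.2 hc).le
    have e : ∀ a : G, a * y = x ↔ a = x * y⁻¹ := fun a => eq_mul_inv_iff_mul_eq.symm
    simp only [ev_ind, Finset.mem_singleton, e, Finset.sum_ite_eq', Finset.mem_image]
    refine if_congr ⟨fun h => ⟨_, h, by simp⟩, ?_⟩ rfl rfl
    rintro ⟨a, ha, rfl⟩
    simpa using ha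
  have h2 : ‖ind (A.image fun a => a⁻¹ * x)‖ ^ 2 ≤ A.card := by
    rw [norm_sq_ind]
    exact_mod_cast Finset.card_image_le
  calc _ ≤ ((A.card : ℝ)⁻¹ * ‖ind (A.image fun a => a⁻¹ * x)‖) ^ 2 :=
        pow_le_pow_left₀ (norm_nonneg _) h1 2
    _ ≤ (A.card : ℝ)⁻¹ ^ 2 * A.card := by
        rw [mul_pow]
        exact mul_le_mul_of_nonneg_left h2 (sq_nonneg _)
    _ = _ := by field_simp

end

section

theorem packing_sum {E : Type*} [NormedAddCommGroup E] [InnerProductSpace ℝ E] {d N : ℕ}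
    (b : OrthonormalBasis (Fin d) ℝ E) (hd : d ≤ N) (x : E) :
    ∑ k, |b.repr x k| ≤ √(N : ℝ) * ‖x‖ := by
  have h1 : (∑ k, |b.repr x k|) ^ 2 ≤ (d : ℝ) * ∑ k, |b.repr x k| ^ 2 := by
    simpa using sq_sum_le_card_mul_sum_sq (s := Finset.univ) (f := fun k => |b.repr x k|)
  have h2 : ∑ k, |b.repr x k| ^ 2 = ‖x‖ ^ 2 := by
    rw [← b.repr.norm_map x, EuclideanSpace.norm_sq_eq]
    simp only [Real.norm_eq_abs]
  have h3 : (d : ℝ) ≤ N := by exact_mod_cast hd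
  refine (pow_le_pow_iff_left₀ (by positivity) (by positivity) two_ne_zero).1 ?_
  rw [mul_pow, Real.sq_sqrt (Nat.cast_nonneg N)]
  rw [h2] at h1
  exact h1.trans (mul_le_mul_of_nonneg_right h3 (sq_nonneg _))

theorem packing_bil {H : Type*} [NormedAddCommGroup H] [InnerProductSpace ℝ H]
    {E₁ E₂ : Submodule ℝ H} {d₁ d₂ N : ℕ}
    (b₁ : OrthonormalBasis (Fin d₁) ℝ E₁) (b₂ : OrthonormalBasis (Fin d₂) ℝ E₂)
    (h₁ : d₁ ≤ N) (h₂ : d₂ ≤ N) (Y : H →ₗ[ℝ] H) {η : ℝ} (hη : 0 ≤ η)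
    (hY : ∀ j k, |⟪(b₂ k : H), Y (b₁ j : H)⟫_ℝ| ≤ η) (f : E₁) (e : E₂) :
    |⟪(e : H), Y (f : H)⟫_ℝ| ≤ η * N * ‖e‖ * ‖f‖ := by
  have hf : (f : H) = ∑ j, b₁.repr f j • (b₁ j : H) := by
    conv_lhs => rw [← b₁.sum_repr f]
    simp only [Submodule.coe_sum, Submodule.coe_smul]
  have he : (e : H) = ∑ k, b₂.repr e k • (b₂ k : H) := by
    conv_lhs => rw [← b₂.sum_repr e]
    simp only [Submodule.coe_sum, Submodule.coe_smul]
  have h3 : ⟪(e : H), Y (f : H)⟫_ℝ =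
      ∑ k, ∑ j, b₂.repr e k * (b₁.repr f j * ⟪(b₂ k : H), Y (b₁ j : H)⟫_ℝ) := by
    conv_lhs => rw [he, hf]
    rw [sum_inner]
    refine Finset.sum_congr rfl fun k _ => ?_
    rw [real_inner_smul_left, map_sum, inner_sum, Finset.mul_sum]
    refine Finset.sum_congr rfl fun j _ => ?_
    rw [map_smul, real_inner_smul_right]
  have h4 : |⟪(e : H), Y (f : H)⟫_ℝ| ≤ η * ((∑ k, |b₂.repr e k|) * ∑ j, |b₁.repr f j|) := by
    rw [h3, Finset.sum_mul_sum, Finset.mul_sum]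
    refine (Finset.abs_sum_le_sum_abs _ _).trans (Finset.sum_le_sum fun k _ => ?_)
    rw [Finset.mul_sum]
    refine (Finset.abs_sum_le_sum_abs _ _).trans (Finset.sum_le_sum fun j _ => ?_)
    rw [abs_mul, abs_mul]
    have := mul_le_mul_of_nonneg_left (hY j k)
      (mul_nonneg (abs_nonneg (b₂.repr e k)) (abs_nonneg (b₁.repr f j)))
    linarith
  have h5 : (∑ k, |b₂.repr e k|) * ∑ j, |b₁.repr f j| ≤ (√(N : ℝ) * ‖e‖) * (√(N : ℝ) * ‖f‖) :=
    mul_le_mul (packing_sum b₂ h₂ e) (packing_sum b₁ h₁ f) (by positivity) (by positivity)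
  have h6 : (√(N : ℝ) * ‖e‖) * (√(N : ℝ) * ‖f‖) = N * ‖e‖ * ‖f‖ := by
    have := Real.mul_self_sqrt (Nat.cast_nonneg N : (0 : ℝ) ≤ N)
    calc _ = (√(N : ℝ) * √(N : ℝ)) * ‖e‖ * ‖f‖ := by ring
      _ = _ := by rw [this]
  rw [h6] at h5
  calc _ ≤ _ := h4
    _ ≤ η * (N * ‖e‖ * ‖f‖) := mul_le_mul_of_nonneg_left h5 hη
    _ = _ := by ring

theorem packing_pigeon {ι κ : Type*} [DecidableEq κ] (S : Finset ι) (T : Finset κ)
    (hT : T.Nonempty) (c : ι → κ) (hc : ∀ i ∈ S, c i ∈ T) :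
    ∃ S' ⊆ S, S.card ≤ T.card * S'.card ∧ ∀ i ∈ S', ∀ j ∈ S', c i = c j := by
  obtain ⟨y, -, hy⟩ := Finset.exists_max_image T (fun y => (S.filter fun i => c i = y).card) hT
  refine ⟨S.filter fun i => c i = y, Finset.filter_subset _ _, ?_, fun i hi j hj => ?_⟩
  · rw [Finset.card_eq_sum_card_fiberwise (f := c) (t := T) hc]
    exact (Finset.sum_le_card_nsmul _ _ _ hy).trans (by rw [smul_eq_mul])
  · rw [(Finset.mem_filter.1 hi).2, (Finset.mem_filter.1 hj).2]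

theorem packing_floor {a b : ℝ} (ha : 0 ≤ a) (hb : 0 ≤ b) (h : ⌊a⌋₊ = ⌊b⌋₊) : |a - b| ≤ 1 := by
  have h1 := Nat.floor_le ha
  have h2 := Nat.floor_le hb
  have h3 := Nat.lt_floor_add_one a
  have h4 := Nat.lt_floor_add_one b
  rw [h] at h1 h3
  rw [abs_le]; constructor <;> linarith

theorem packing {H : Type*} [NormedAddCommGroup H] [InnerProductSpace ℝ H] {ι : Type*}
    (E₁ E₂ : Submodule ℝ H) [FiniteDimensional ℝ E₁] [FiniteDimensional ℝ E₂] (N : ℕ)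
    (h₁ : Module.finrank ℝ E₁ ≤ N) (h₂ : Module.finrank ℝ E₂ ≤ N)
    (S : Finset ι) (X : ι → H →ₗ[ℝ] H) {r ε : ℝ} (hr : 0 ≤ r) (hε : 0 < ε)
    (hX : ∀ i ∈ S, ∀ f ∈ E₁, ‖X i f‖ ≤ r * ‖f‖) :
    ∃ S' ⊆ S, (S.card : ℝ) ≤ (2 * r * N / ε + 2) ^ (N * N) * S'.card ∧
      ∀ i ∈ S', ∀ j ∈ S', ∀ f ∈ E₁, ∀ e ∈ E₂, |⟪e, X i f - X j f⟫_ℝ| ≤ ε * ‖e‖ * ‖f‖ := by
  classical
  obtain ⟨b₁⟩ : Nonempty (OrthonormalBasis (Fin (Module.finrank ℝ E₁)) ℝ E₁) :=
    ⟨stdOrthonormalBasis ℝ E₁⟩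
  obtain ⟨b₂⟩ : Nonempty (OrthonormalBasis (Fin (Module.finrank ℝ E₂)) ℝ E₂) :=
    ⟨stdOrthonormalBasis ℝ E₂⟩
  generalize Module.finrank ℝ E₁ = d₁ at b₁ h₁
  generalize Module.finrank ℝ E₂ = d₂ at b₂ h₂
  have hb : ∀ i ∈ S, ∀ j k, |⟪(b₂ k : H), X i (b₁ j : H)⟫_ℝ| ≤ r := by
    intro i hi j k
    have e1 : ‖(b₁ j : H)‖ = 1 := b₁.orthonormal.1 j
    have e2 : ‖(b₂ k : H)‖ = 1 := b₂.orthonormal.1 k
    have e3 := hX i hi _ (b₁ j).2
    have e4 := abs_real_inner_le_norm (b₂ k : H) (X i (b₁ j : H))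
    rw [e1, mul_one] at e3
    rw [e2, one_mul] at e4
    exact e4.trans e3
  have hq : 0 ≤ (N : ℝ) / ε := by positivity
  obtain ⟨S', hS', hcard, hcol⟩ := packing_pigeon S
    (Fintype.piFinset fun _ : Fin d₁ × Fin d₂ => Finset.range (⌊2 * r * (N / ε)⌋₊ + 1))
    ⟨fun _ => 0, by simp⟩
    (fun i p => ⌊(⟪(b₂ p.2 : H), X i (b₁ p.1 : H)⟫_ℝ + r) * (N / ε)⌋₊) (by
      intro i hi
      rw [Fintype.mem_piFinset]
      intro p
      rw [Finset.mem_range, Nat.lt_succ_iff]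
      refine Nat.floor_le_floor (mul_le_mul_of_nonneg_right ?_ hq)
      have := (abs_le.1 (hb i hi p.1 p.2)).2
      linarith)
  refine ⟨S', hS', ?_, fun i hi j hj f hf e he => ?_⟩
  · rw [Fintype.card_piFinset, Finset.prod_const, Finset.card_range, Finset.card_univ,
      Fintype.card_prod, Fintype.card_fin, Fintype.card_fin] at hcard
    have h0 : 0 ≤ 2 * r * (N / ε) := by positivity
    have h3 : ((⌊2 * r * (N / ε)⌋₊ + 1 : ℕ) : ℝ) ≤ 2 * r * N / ε + 2 := by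
      have := Nat.floor_le h0
      rw [mul_div_assoc]
      push_cast
      linarith
    have h4 : (1 : ℝ) ≤ 2 * r * N / ε + 2 := by
      rw [mul_div_assoc]; linarith
    have h5 : (S.card : ℝ) ≤ ((⌊2 * r * (N / ε)⌋₊ + 1 : ℕ) : ℝ) ^ (d₁ * d₂) * S'.card := by
      exact_mod_cast hcard
    refine h5.trans (mul_le_mul_of_nonneg_right ?_ (Nat.cast_nonneg _))
    exact (pow_le_pow_left₀ (Nat.cast_nonneg _) h3 _).trans
      (pow_le_pow_right₀ h4 (Nat.mul_le_mul h₁ h₂))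
  · have hη : 0 ≤ ε / N := by positivity
    have h3 := packing_bil b₁ b₂ h₁ h₂ (X i - X j) hη (fun a c => ?_) ⟨f, hf⟩ ⟨e, he⟩
    · have h4 : ε / N * N ≤ ε := by
        rcases Nat.eq_zero_or_pos N with h | h
        · simp [h, hε.le]
        · rw [div_mul_cancel₀ _ (by positivity)]
      refine h3.trans ?_
      exact mul_le_mul_of_nonneg_right (mul_le_mul_of_nonneg_right h4 (norm_nonneg _))
        (norm_nonneg _)
    · have hN : (0 : ℝ) < N := by exact_mod_cast lt_of_lt_of_le a.pos h₁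
      have h5 := packing_floor
        (mul_nonneg (by have := (abs_le.1 (hb i (hS' hi) a c)).1; linarith) hq)
        (mul_nonneg (by have := (abs_le.1 (hb j (hS' hj) a c)).1; linarith) hq)
        (congrFun (hcol i hi j hj) (a, c))
      rw [← sub_mul, abs_mul, abs_of_nonneg hq, add_sub_add_right_eq_sub, ← mul_div_assoc,
        div_le_one hε] at h5
      rw [LinearMap.sub_apply, inner_sub_right, le_div_iff₀ hN]
      exact h5

end

section

variable {G : Type*} [Group G] [DecidableEq G]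

omit [DecidableEq G] in
theorem dist_disc {c : ℝ} (hc : 0 ≤ c) :
    ∃ p : GroupSeminorm G, (∀ g, p g ≤ c) ∧ ∀ g, g ≠ 1 → p g = c := by
  classical
  refine ⟨⟨fun g => if g = 1 then 0 else c, by simp, ?_, ?_⟩, ?_, ?_⟩
  · intro x y
    by_cases hx : x = 1
    · subst hx; simp
    · by_cases hy : y = 1
      · subst hy; simp
      · simp only [hx, hy, if_false]
        split_ifs <;> linarith
  · intro x; simp
  · intro g
    change (if g = 1 then 0 else c) ≤ c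
    split_ifs
    · exact hc
    · exact le_rfl
  · intro g hg
    change (if g = 1 then 0 else c) = c
    rw [if_neg hg]

omit [DecidableEq G] in
theorem dist_trunc (p : GroupSeminorm G) {lam : ℝ} (hl : 0 < lam) :
    ∃ p' : GroupSeminorm G, ∀ g, p' g = min 1 (p g / lam) := by
  refine ⟨⟨fun g => min 1 (p g / lam), by simp, ?_, ?_⟩, fun _ => rfl⟩
  · intro x y
    have hx : 0 ≤ p x / lam := div_nonneg (apply_nonneg p x) hl.le
    have hy : 0 ≤ p y / lam := div_nonneg (apply_nonneg p y) hl.le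
    have hxy : p (x * y) / lam ≤ p x / lam + p y / lam := by
      rw [← add_div]; exact div_le_div_of_nonneg_right (map_mul_le_add p x y) hl.le
    have h1 := min_le_left 1 (p (x * y) / lam)
    have h2 := min_le_right 1 (p (x * y) / lam)
    rcases min_choice 1 (p x / lam) with h | h <;> rcases min_choice 1 (p y / lam) with h' | h' <;>
      rw [h, h'] <;> linarith
  · intro x; simp only [map_inv_eq_map]

omit [DecidableEq G] in
theorem exists_dist (V : G → Prop) {n₀ : ℕ} (hn₀ : 1 ≤ n₀) :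
    ∃ d : GroupSeminorm G, (∀ g, d g ≤ 1) ∧ (∀ g, g ≠ 1 → 1 / (n₀ : ℝ) ≤ d g) ∧
      (∀ (q : G) (n : ℕ), 1 ≤ n → n ≤ n₀ → Trap V q n → d q ≤ 1 / (n : ℝ)) ∧
      ∀ (p : GroupSeminorm G) (lam : ℝ), 0 < lam →
        (∀ (q : G) (n : ℕ), 1 ≤ n → n ≤ n₀ → Trap V q n → p q ≤ lam / n) →
        ∀ g, min 1 (p g / lam) ≤ d g := by
  let Adm : GroupSeminorm G → Prop := fun p => (∀ g, p g ≤ 1) ∧
    ∀ (q : G) (n : ℕ), 1 ≤ n → n ≤ n₀ → Trap V q n → p q ≤ 1 / (n : ℝ)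
  have h0 : Adm 0 := ⟨fun g => by simp, fun q n _ _ _ => by simp⟩
  let S : G → Set ℝ := fun g => {r | ∃ p, Adm p ∧ p g = r}
  have hne : ∀ g, (S g).Nonempty := fun g => ⟨_, 0, h0, rfl⟩
  have hbd : ∀ g, BddAbove (S g) := fun g => ⟨1, by rintro _ ⟨p, hp, rfl⟩; exact hp.1 g⟩
  have hle : ∀ p, Adm p → ∀ g, p g ≤ sSup (S g) := fun p hp g => le_csSup (hbd g) ⟨p, hp, rfl⟩
  have hsup : ∀ g (c : ℝ), (∀ p, Adm p → p g ≤ c) → sSup (S g) ≤ c := fun g c h =>
    csSup_le (hne g) (by rintro _ ⟨p, hp, rfl⟩; exact h p hp)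
  have hn₀' : (1 : ℝ) ≤ n₀ := by exact_mod_cast hn₀
  refine ⟨⟨fun g => sSup (S g), ?_, ?_, ?_⟩, ?_, ?_, ?_, ?_⟩
  · refine le_antisymm (hsup 1 0 fun p _ => (map_one_eq_zero p).le) ?_
    simpa using hle 0 h0 1
  · intro x y
    exact hsup _ _ fun p hp => (map_mul_le_add p x y).trans (add_le_add (hle p hp x) (hle p hp y))
  · intro x
    refine le_antisymm (hsup _ _ fun p hp => ?_) (hsup _ _ fun p hp => ?_)
    · rw [map_inv_eq_map]; exact hle p hp x
    · rw [← map_inv_eq_map p x]; exact hle p hp x⁻¹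
  · intro g
    exact hsup g 1 fun p hp => hp.1 g
  · intro g hg
    obtain ⟨p, hp, hp'⟩ := dist_disc (G := G) (c := 1 / (n₀ : ℝ)) (by positivity)
    have hadm : Adm p := by
      refine ⟨fun g => (hp g).trans ?_, fun q n hn hn' _ => (hp q).trans ?_⟩
      · rw [div_le_one (by linarith)]; exact hn₀'
      · have h1 : (0 : ℝ) < n := by exact_mod_cast hn
        have h2 : (n : ℝ) ≤ n₀ := by exact_mod_cast hn'
        exact one_div_le_one_div_of_le h1 h2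
    rw [← hp' g hg]
    exact hle p hadm g
  · intro q n hn hn' ht
    exact hsup q _ fun p hp => hp.2 q n hn hn' ht
  · intro p lam hl hp g
    obtain ⟨p', hp'⟩ := dist_trunc p hl
    have hadm : Adm p' := by
      refine ⟨fun g => by rw [hp']; exact min_le_left _ _, fun q n hn hn' ht => ?_⟩
      rw [hp']
      refine (min_le_right _ _).trans ?_
      rw [div_le_iff₀ hl]
      have := hp q n hn hn' ht
      calc p q ≤ lam / n := this
        _ = 1 / n * lam := by ring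
    rw [← hp']
    exact hle p' hadm g

omit [Group G] [DecidableEq G] in
theorem dist_delta (U : Finset G) (d : G → ℝ) {c₀ : ℝ} (hc₀ : 0 < c₀) (hc₁ : c₀ ≤ 1)
    (h : ∀ g, g ∉ U → c₀ ≤ d g) :
    ∃ δ : ℝ, 0 < δ ∧ δ ≤ 1 ∧ (∀ g, g ∉ U → δ ≤ d g) ∧
      ∀ c : ℝ, c ≤ 1 → (∀ g, g ∉ U → c ≤ d g) → c ≤ δ := by
  let S : Set ℝ := insert 1 (d '' {g | g ∉ U})
  have hlow : ∀ c : ℝ, c ≤ 1 → (∀ g, g ∉ U → c ≤ d g) → c ∈ lowerBounds S := by
    intro c h1 h2 r hr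
    rcases hr with rfl | ⟨g, hg, rfl⟩
    · exact h1
    · exact h2 g hg
  have hne : S.Nonempty := ⟨1, Set.mem_insert _ _⟩
  have hbd : BddBelow S := ⟨c₀, hlow c₀ hc₁ h⟩
  refine ⟨sInf S, hc₀.trans_le (le_csInf hne (hlow c₀ hc₁ h)), csInf_le hbd (Set.mem_insert _ _),
    fun g hg => csInf_le hbd (Set.mem_insert_of_mem _ ⟨g, hg, rfl⟩),
    fun c h1 h2 => le_csInf hne (hlow c h1 h2)⟩

omit [DecidableEq G] in
theorem exists_delta (U : Finset G) (d : G → ℝ) {c₀ : ℝ} (hc₀ : 0 < c₀) (hc₁ : c₀ ≤ 1)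
    (h : ∀ g, g ∉ U → c₀ ≤ d g) :
    ∃ δ : ℝ, 0 < δ ∧ δ ≤ 1 ∧ (∀ g, g ∉ U → δ ≤ d g) ∧
      ∀ c : ℝ, c ≤ 1 → (∀ g, g ∉ U → c ≤ d g) → c ≤ δ :=
  dist_delta U d hc₀ hc₁ h

omit [DecidableEq G] in
theorem dist_tele (q : G) (f : L2 G) (n : ℕ) :
    R (q ^ n) f - f = ∑ j ∈ Finset.range n, R (q ^ j) (R q f - f) := by
  induction n with
  | zero => simp
  | succ n ih =>
    rw [Finset.sum_range_succ, ← ih, map_sub, ← R_mul, ← pow_succ]
    abel

omit [DecidableEq G] in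
theorem gleason (q : G) (f : L2 G) (n : ℕ) {β : ℝ}
    (h : ∀ j < n, ‖R (q ^ j) (R q f - f) - (R q f - f)‖ ≤ β) :
    (n : ℝ) * ‖R q f - f‖ ≤ 2 * ‖f‖ + n * β := by
  set y := R q f - f with hy
  have h1 : (n : ℝ) • y = (R (q ^ n) f - f) - ∑ j ∈ Finset.range n, (R (q ^ j) y - y) := by
    rw [dist_tele, Finset.sum_sub_distrib, ← hy, Finset.sum_const, Finset.card_range,
      Nat.cast_smul_eq_nsmul]
    abel
  have h2 : ‖R (q ^ n) f - f‖ ≤ 2 * ‖f‖ := by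
    have := norm_sub_le (R (q ^ n) f) f
    rw [norm_R] at this
    linarith
  have h3 : ‖∑ j ∈ Finset.range n, (R (q ^ j) y - y)‖ ≤ n * β := by
    refine (norm_sum_le _ _).trans ?_
    refine (Finset.sum_le_sum fun j hj => h j (Finset.mem_range.1 hj)).trans ?_
    rw [Finset.sum_const, Finset.card_range, nsmul_eq_mul]
  have h4 : ‖(n : ℝ) • y‖ = n * ‖y‖ := by
    rw [norm_smul, Real.norm_natCast]
  rw [← h4, h1]
  exact (norm_sub_le _ _).trans (add_le_add h2 h3)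

end

section

theorem num_pow {b : ℝ} (hb : 2 ≤ b) {i j : ℕ} (k : ℕ) (h : k + i ≤ j) :
    2 ^ k * b ^ i ≤ b ^ j :=
  calc 2 ^ k * b ^ i ≤ b ^ k * b ^ i :=
        mul_le_mul_of_nonneg_right (pow_le_pow_left₀ zero_le_two hb k) (pow_nonneg (by linarith) _)
    _ ≤ b ^ j := pow_add b k i ▸ pow_le_pow_right₀ (by linarith) h

theorem num_exp (x : ℝ) : x ≤ Real.exp x := (le_add_of_nonneg_right zero_le_one).trans
  (Real.add_one_le_exp x)

theorem num1 {b : ℝ} (hb : 2 ≤ b) {n k : ℕ} (hn : 2 ≤ n) (hk : 2 ^ k ≤ 2 * n) :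
    Real.exp (b ^ 564) ^ (k + 1) ≤ (n : ℝ) ^ (b ^ 1200 : ℝ) := by
  have h2 : (2 : ℝ) ≤ n := by exact_mod_cast hn
  have h3 : (2 : ℝ) ^ k ≤ 2 * n := by exact_mod_cast hk
  have h4 := Real.log_le_log (by positivity) h3
  rw [Real.log_pow, Real.log_mul two_ne_zero (by positivity)] at h4
  have h5 := Real.log_le_log two_pos h2
  have h6 := Real.log_two_gt_d9
  have h7 : (k : ℝ) + 1 ≤ Real.log n * 2 ^ 3 := by nlinarith [Nat.cast_nonneg (α := ℝ) k]
  have h8 := num_pow hb (i := 564) (j := 1200) 3 (by norm_num)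
  have h9 : 0 ≤ b ^ 564 := pow_nonneg (by linarith) _
  rw [← Real.exp_nat_mul, Real.rpow_def_of_pos (by positivity), Real.exp_le_exp, Nat.cast_succ]
  generalize b ^ 564 = B at h8 h9 ⊢
  generalize b ^ 1200 = C at h8 ⊢
  calc ((k : ℝ) + 1) * B ≤ Real.log n * 2 ^ 3 * B := mul_le_mul_of_nonneg_right h7 h9
    _ ≤ Real.log n * C := mul_assoc _ _ B ▸ mul_le_mul_of_nonneg_left h8 (by linarith)

end

section

theorem numq_two {K : ℝ} (hK : 1 ≤ K) : 2 ≤ Real.log (8 * K) := by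
  have h := Real.log_le_log (by norm_num : (0 : ℝ) < 2 ^ 3) (by linarith : 2 ^ 3 ≤ 8 * K)
  rw [Real.log_pow] at h
  have := Real.log_two_gt_d9
  push_cast at h
  linarith

theorem numq_eq {K : ℝ} (hK : 1 ≤ K) : Real.exp (Real.log (8 * K)) = 8 * K :=
  Real.exp_log (by linarith)

theorem numq_exp {K : ℝ} (hK : 1 ≤ K) : 5 * K < Real.exp (⌈Real.log (8 * K)⌉₊ : ℕ) := by
  have := Real.exp_le_exp.2 (Nat.le_ceil (Real.log (8 * K)))
  rw [numq_eq hK] at this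
  linarith

theorem numq_pow {K : ℝ} (hK : 1 ≤ K) (n : ℕ) : K ^ n ≤ Real.exp (n * Real.log (8 * K)) := by
  rw [Real.exp_nat_mul, numq_eq hK]
  exact pow_le_pow_left₀ (by linarith) (by linarith) n

theorem numq_fol1 {K : ℝ} (hK : 1 ≤ K) :
    K ^ 7 ≤ (101 / 100 : ℝ) ^ ⌈707 * Real.log (8 * K)⌉₊ := by
  have h1 := Real.one_sub_inv_le_log_of_pos (by norm_num : (0 : ℝ) < 101 / 100)
  have h2 := Nat.le_ceil (707 * Real.log (8 * K))
  have h3 := numq_two hK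
  refine (numq_pow hK 7).trans ?_
  rw [← Real.exp_log (by norm_num : (0 : ℝ) < 101 / 100), ← Real.exp_nat_mul, Real.exp_le_exp]
  have h4 := mul_le_mul h2 h1 (by norm_num) (Nat.cast_nonneg _)
  push_cast
  linarith

theorem numq_ceil {l : ℝ} (hl : 2 ≤ l) : (⌈l⌉₊ : ℝ) ≤ 3 / 2 * l := by
  have := Nat.ceil_lt_add_one (by linarith : 0 ≤ l)
  linarith

theorem numq_fol2 {K : ℝ} (hK : 1 ≤ K) :
    K ^ 34 * (2 * K ^ (16 * ⌈707 * Real.log (8 * K)⌉₊ ^ 2 * ⌈Real.log (8 * K)⌉₊)) ≤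
      Real.exp (Real.log (8 * K) ^ 28) := by
  have h1 := numq_two hK
  have h2 := numq_ceil h1
  have h3 := Nat.ceil_lt_add_one (by linarith : 0 ≤ 707 * Real.log (8 * K))
  have h4 : 2 ≤ Real.exp (Real.log (8 * K)) := by rw [numq_eq hK]; linarith
  refine (mul_le_mul (numq_pow hK _) (mul_le_mul h4 (numq_pow hK _) (by positivity)
    (by positivity)) (by positivity) (by positivity)).trans ?_
  rw [← Real.exp_add, ← Real.exp_add, Real.exp_le_exp]
  refine le_trans ?_ (num_pow h1 (i := 4) 24 le_rfl)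
  push_cast
  generalize Real.log (8 * K) = l at h1 h2 h3 ⊢
  have h5 : (⌈707 * l⌉₊ : ℝ) ^ 2 * ⌈l⌉₊ ≤ (708 * l) ^ 2 * (3 / 2 * l) :=
    mul_le_mul (pow_le_pow_left₀ (Nat.cast_nonneg _) (by linarith) 2) h2 (Nat.cast_nonneg _)
      (by positivity)
  have h6 := mul_le_mul_of_nonneg_right h5 (by linarith : 0 ≤ l)
  have h7 : l ^ 1 ≤ l ^ 4 := pow_le_pow_right₀ (by linarith) (by norm_num)
  linarith

theorem numq_pre {K : ℝ} (hK : 1 ≤ K) :
    8 * (K ^ 2 * (2 * K ^ (16 * 18 ^ 2 * ⌈Real.log (8 * K)⌉₊))) ≤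
      Real.exp (Real.log (8 * K) ^ 15) := by
  have h1 := numq_two hK
  have h2 := numq_ceil h1
  have h3 : 8 ≤ Real.exp (Real.log (8 * K)) := by rw [numq_eq hK]; linarith
  have h4 : 2 ≤ Real.exp (Real.log (8 * K)) := by linarith
  refine (mul_le_mul h3 (mul_le_mul (numq_pow hK _) (mul_le_mul h4 (numq_pow hK _) (by positivity)
    (by positivity)) (by positivity) (by positivity)) (by positivity) (by positivity)).trans ?_
  rw [← Real.exp_add, ← Real.exp_add, ← Real.exp_add, Real.exp_le_exp]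
  refine le_trans ?_ (num_pow h1 (i := 2) 13 le_rfl)
  push_cast
  generalize Real.log (8 * K) = l at h1 h2 ⊢
  have h6 := mul_le_mul_of_nonneg_right h2 (by linarith : 0 ≤ l)
  have h7 : l ^ 1 ≤ l ^ 2 := pow_le_pow_right₀ (by linarith) (by norm_num)
  linarith

end

section

theorem numq_sigma {b : ℝ} (hb : 2 ^ 40 ≤ b) :
    2 * Real.exp (b / 2 ^ 20 - b / 50) ≤ ((b ^ 20)⁻¹) ^ 2 := by
  have hb0 : 0 < b := lt_of_lt_of_le (by positivity) hb
  set s := √b with hs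
  have hs0 : 0 < s := Real.sqrt_pos.2 hb0
  have hss : s * s = b := Real.mul_self_sqrt hb0.le
  have hs1 : (2 : ℝ) ^ 20 ≤ s := by
    rw [hs]
    refine Real.le_sqrt_of_sq_le ?_
    calc ((2 : ℝ) ^ 20) ^ 2 = 2 ^ 40 := by norm_num
      _ ≤ b := hb
  have h1 : s ≤ Real.exp s := num_exp s
  have h2 : b ^ 40 ≤ Real.exp (80 * s) := by
    have h3 : b ^ 40 = s ^ 80 := by rw [← hss]; ring
    rw [h3]
    calc s ^ 80 ≤ Real.exp s ^ 80 := pow_le_pow_left₀ hs0.le h1 80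
      _ = Real.exp (80 * s) := by rw [← Real.exp_nat_mul]; norm_num
  have h4 : (2 : ℝ) ≤ Real.exp 1 := by linarith [Real.add_one_le_exp (1 : ℝ)]
  have h5 : 1 + (b / 2 ^ 20 - b / 50) + 80 * s ≤ 0 := by
    have h6 : (2 : ℝ) ^ 20 * s ≤ b := by rw [← hss]; exact mul_le_mul_of_nonneg_right hs1 hs0.le
    norm_num at h6 hs1 ⊢
    linarith
  have h7 : ((b ^ 20)⁻¹) ^ 2 = (b ^ 40)⁻¹ := by rw [inv_pow, ← pow_mul]
  rw [h7, ← one_div, le_div_iff₀ (by positivity)]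
  calc 2 * Real.exp (b / 2 ^ 20 - b / 50) * b ^ 40
      ≤ Real.exp 1 * Real.exp (b / 2 ^ 20 - b / 50) * Real.exp (80 * s) := by gcongr
    _ = Real.exp (1 + (b / 2 ^ 20 - b / 50) + 80 * s) := by rw [Real.exp_add, Real.exp_add]
    _ ≤ 1 := Real.exp_le_one_iff.2 h5

theorem num2Q {b K : ℝ} (hb : 2 ≤ b) (hK0 : 0 ≤ K) (hK : K ≤ Real.exp b) {m : ℕ}
    (hm : (2 : ℝ) ^ m ≤ 4 * (16384 * (b ^ 124) ^ 2 * Real.exp (b ^ 564) ^ 2 * (b ^ 19) ^ 2)) :
    K ^ 3 * Real.exp (b ^ 564) ^ (m + 1) ≤ Real.exp (b ^ 1200) := by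
  have h1 := (num_pow hb (i := 124 * 2 + 19 * 2) (j := 564) 16 (by norm_num)).trans (num_exp _)
  rw [pow_add, pow_mul, pow_mul] at h1
  have h2 : K ^ 3 ≤ Real.exp (b ^ 564) := by
    refine (pow_le_pow_left₀ hK0 hK 3).trans ?_
    rw [← Real.exp_nat_mul, Real.exp_le_exp]
    have h8 := num_pow hb (i := 1) (j := 564) 2 (by norm_num)
    rw [pow_one] at h8
    push_cast
    linarith
  have h3 := num_pow hb (i := 564 * 2) (j := 1200) 3 (by norm_num)
  rw [pow_mul] at h3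
  have h4 : 1 ≤ b ^ 564 := one_le_pow₀ (by linarith)
  generalize b ^ 564 = B at h1 h2 h3 h4 hm ⊢
  generalize b ^ 1200 = C at h3 ⊢
  generalize (b ^ 124) ^ 2 = u at h1 hm
  generalize (b ^ 19) ^ 2 = v at h1 hm
  have h5 : (2 : ℝ) ^ m ≤ Real.exp B ^ 3 := by
    have := mul_le_mul_of_nonneg_right h1 (sq_nonneg (Real.exp B))
    linarith
  have h6 := Real.log_le_log (by positivity) h5
  rw [Real.log_pow, Real.log_pow, Real.log_exp, Nat.cast_ofNat] at h6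
  have h7 : (m : ℝ) ≤ 5 * B := by nlinarith [Real.log_two_gt_d9, Nat.cast_nonneg (α := ℝ) m]
  refine (mul_le_mul_of_nonneg_right h2 (by positivity)).trans ?_
  rw [← pow_succ', ← Real.exp_nat_mul, Real.exp_le_exp]
  push_cast
  nlinarith

theorem num3Q {b x : ℝ} (hb : 2 ≤ b) {N : ℕ} (hN : (N : ℝ) ≤ b ^ 180) (hx0 : 0 ≤ x)
    (hx : x ≤ 8 * N * b ^ 19 + 2) : x ^ (N * N) ≤ Real.exp (b ^ 563) := by
  have hb0 : 0 ≤ b := by linarith
  have h1 := num_pow hb (i := 180 + 19) (j := 203) 4 le_rfl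
  have h2 : 1 ≤ b ^ (180 + 19) := one_le_pow₀ (by linarith)
  rw [pow_add] at h1 h2
  have h3 := mul_le_mul_of_nonneg_right hN (pow_nonneg hb0 19)
  have h4 : x ≤ b ^ 203 := by linarith
  refine (pow_le_pow_left₀ hx0 (h4.trans (num_exp _)) _).trans ?_
  rw [← Real.exp_nat_mul, Real.exp_le_exp, Nat.cast_mul]
  calc (N : ℝ) * N * b ^ 203 ≤ b ^ 180 * b ^ 180 * b ^ 203 :=
        mul_le_mul_of_nonneg_right (mul_self_le_mul_self (Nat.cast_nonneg N) hN) (pow_nonneg hb0 _)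
    _ ≤ b ^ 563 := by
      rw [← pow_add, ← pow_add]

end

end Pool.Agent.MP_34e614_co.H31
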