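import Pool.Agent.MP_34e614_co.H31.PartA

set_option autoImplicit false

open scoped Pointwise InnerProductSpace

namespace Pool.Agent.MP_34e614_co.H31

section

variable {G : Type*} [Group G] [DecidableEq G]

theorem factor_div {a c w : ℝ} (hc : 0 ≤ c) (hw : 0 ≤ w) (h : |a| ≤ c * w) :
    |a / w| ≤ c ∧ w * (a / w) = a := by
  rcases hw.eq_or_lt with h0 | h0
  · subst h0
    have ha : a = 0 := abs_nonpos_iff.1 (by simpa using h)
    subst ha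
    simpa using hc
  · refine ⟨?_, by field_simp⟩
    rw [abs_div, abs_of_pos h0, div_le_iff₀ h0]
    exact h

end

section

variable {G : Type*} [Group G] [DecidableEq G]

omit [Group G] [DecidableEq G] in
theorem half_mul_sq {φ κ : G → ℝ} (hκ : ∀ x, κ x ^ 2 ≤ φ x) (w : L2 G) :
    ‖mul κ w‖ ^ 2 ≤ ⟪mul φ w, w⟫_ℝ := by
  rw [L2.norm_sq_eq _ w.supp, L2.inner_eq _ _ w.supp]
  · refine Finset.sum_le_sum fun x _ => ?_
    simp only [ev_mul]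
    have := mul_le_mul_of_nonneg_right (hκ x) (sq_nonneg (w.ev x))
    nlinarith
  · intro x hx; exact L2.mem_supp.2 (right_ne_zero_of_mul hx)
  · intro x hx
    simp only [ev_mul] at hx
    exact L2.mem_supp.2 (right_ne_zero_of_mul hx)

theorem half {A : Finset G} (hs : A⁻¹ = A) {φ κ : G → ℝ} (hκ : ∀ x, κ x ^ 2 ≤ φ x)
    {E : Submodule ℝ (L2 G)} {lo hi η : ℝ} (hE : Spec (T A φ) E lo hi) (hη : 0 ≤ η)
    (hlo : lo ≤ η ^ 2) (u : L2 G) :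
    ∃ p ∈ E, M A (mul κ u) - p ∈ Eᗮ ∧ ‖M A (mul κ u) - p‖ ≤ η * ‖u‖ ∧
      ‖p‖ ≤ ‖M A (mul κ u)‖ := by
  have := hE.fd
  obtain ⟨p, hp, hq, hpy, -⟩ := split E (M A (mul κ u))
  refine ⟨p, hp, hq, ?_, hpy⟩
  obtain ⟨s, hsdef⟩ : ∃ s, s = M A (mul κ u) - p := ⟨_, rfl⟩
  rw [← hsdef] at hq ⊢
  have hy : M A (mul κ u) = p + s := by rw [hsdef]; abel
  have h0 : ⟪p, s⟫_ℝ = 0 := (Submodule.mem_orthogonal E s).1 hq p hp
  have h1 : ‖s‖ ^ 2 = ⟪mul κ (M A s), u⟫_ℝ := by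
    rw [inner_mul, inner_M hs, hy, inner_add_right, real_inner_comm, h0, zero_add,
      real_inner_self_eq_norm_sq]
  have h2 : ‖mul κ (M A s)‖ ^ 2 ≤ (η * ‖s‖) ^ 2 := by
    refine (half_mul_sq hκ _).trans ?_
    rw [← inner_M hs, ← T_apply]
    have h3 := real_inner_le_norm (T A φ s) s
    have h4 := mul_le_mul_of_nonneg_right (hE.perp s hq).2 (norm_nonneg s)
    have h5 := mul_le_mul_of_nonneg_right hlo (sq_nonneg ‖s‖)
    nlinarith
  have h3 : ‖mul κ (M A s)‖ ≤ η * ‖s‖ :=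
    (pow_le_pow_iff_left₀ (norm_nonneg _) (by positivity) two_ne_zero).1 h2
  have h4 := real_inner_le_norm (mul κ (M A s)) u
  have h5 := mul_le_mul_of_nonneg_right h3 (norm_nonneg u)
  rcases (norm_nonneg s).eq_or_lt with h6 | h6
  · rw [← h6]; positivity
  · refine le_of_mul_le_mul_left ?_ h6
    nlinarith

omit [DecidableEq G] in
theorem half_split {E : Submodule ℝ (L2 G)} (g : G) {y p : L2 G} (hp : p ∈ E) :
    ‖R g y - y‖ ≤ aE E g * ‖p‖ + 2 * ‖y - p‖ := by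
  have e : R g y - y = (R g p - p) + (R g (y - p) - (y - p)) := by
    rw [map_sub]; abel
  rw [e]
  refine (norm_add_le _ _).trans ?_
  have h1 := aE_le E g hp
  have h2 := norm_sub_le (R g (y - p)) (y - p)
  rw [norm_R] at h2
  linarith

end

section

variable {G : Type*} [Group G] [DecidableEq G]

theorem kahan_uniq {H : Type*} [NormedAddCommGroup H] [InnerProductSpace ℝ H]
    {E : Submodule ℝ H} {y p p' : H} (hp : p ∈ E) (hp' : p' ∈ E) (h : y - p ∈ Eᗮ)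
    (h' : y - p' ∈ Eᗮ) : p = p' := by
  have h1 : p - p' ∈ E := E.sub_mem hp hp'
  have h2 : p - p' ∈ Eᗮ := by
    have := Eᗮ.sub_mem h' h
    rwa [show y - p' - (y - p) = p - p' by abel] at this
  have h3 := (Submodule.mem_orthogonal E _).1 h2 _ h1
  exact sub_eq_zero.1 (inner_self_eq_zero.1 h3)

end

section

variable {G : Type*} [Group G] [DecidableEq G]

/-- The operator `R g - 1`. -/
noncomputable def cover_X (g : G) : L2 G →ₗ[ℝ] L2 G := R g - LinearMap.id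

omit [DecidableEq G] in
theorem cover_X_apply (g : G) (f : L2 G) : cover_X g f = R g f - f := rfl

end

section

variable {G : Type*} [Group G] [DecidableEq G]

omit [DecidableEq G] in
theorem key_pow (a : GroupSeminorm G) (g : G) (j : ℕ) : a (g ^ j) ≤ j * a g := by
  induction j with
  | zero => simp
  | succ j ih =>
    rw [pow_succ]
    have := map_mul_le_add a (g ^ j) g
    push_cast
    linarith

theorem key_c {b : ℝ} (hb : 2 ≤ b) (k : ℕ) : (2 : ℝ) ^ k ≤ b ^ k :=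
  pow_le_pow_left₀ (by norm_num) hb k

theorem key_mul {b c : ℝ} (hb : 2 ≤ b) (i k : ℕ) (hc : c ≤ 2 ^ k) :
    c * b ^ i ≤ b ^ (i + k) := by
  have h0 : 0 < b ^ i := by positivity
  rw [pow_add, mul_comm]
  exact mul_le_mul_of_nonneg_left (hc.trans (key_c hb k)) h0.le

end

section

variable {G : Type*} [Group G] [DecidableEq G]

theorem hs_mul {Y : Finset G} (hY : Y.Nonempty) (hs : Y⁻¹ = Y) {κ : G → ℝ} {Ω : Finset G}
    (hΩ : ∀ x, κ x ≠ 0 → x ∈ Ω) {c : ℝ} (hc : 0 ≤ c) (h : ∑ x ∈ Ω, κ x ^ 2 ≤ c ^ 2 * Y.card)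
    (f : L2 G) : ‖mul κ (M Y f)‖ ≤ c * ‖f‖ := by
  have hN : (0 : ℝ) < Y.card := by exact_mod_cast hY.card_pos
  have h1 : ∀ x, (M Y f).ev x ^ 2 ≤ (Y.card : ℝ)⁻¹ * ‖f‖ ^ 2 := fun x => by
    rw [← inner_ind_single, ← inner_M hs, ← sq_abs]
    refine (pow_le_pow_left₀ (abs_nonneg _) (abs_real_inner_le_norm _ _) 2).trans ?_
    rw [mul_pow]
    exact mul_le_mul_of_nonneg_right (spect_norm hY x) (sq_nonneg _)
  refine (pow_le_pow_iff_left₀ (norm_nonneg _) (by positivity) two_ne_zero).1 ?_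
  rw [L2.norm_sq_eq _ Ω fun x hx => hΩ x (left_ne_zero_of_mul hx)]
  calc _ ≤ ∑ x ∈ Ω, κ x ^ 2 * ((Y.card : ℝ)⁻¹ * ‖f‖ ^ 2) := by
        refine Finset.sum_le_sum fun x _ => ?_
        rw [ev_mul, mul_pow]
        exact mul_le_mul_of_nonneg_left (h1 x) (sq_nonneg _)
    _ ≤ c ^ 2 * Y.card * ((Y.card : ℝ)⁻¹ * ‖f‖ ^ 2) := by
        rw [← Finset.sum_mul]
        exact mul_le_mul_of_nonneg_right h (by positivity)
    _ = _ := by field_simp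

theorem hs_M {Y : Finset G} (hY : Y.Nonempty) (hs : Y⁻¹ = Y) {κ : G → ℝ} {Ω : Finset G}
    (hΩ : ∀ x, κ x ≠ 0 → x ∈ Ω) {c : ℝ} (hc : 0 ≤ c) (h : ∑ x ∈ Ω, κ x ^ 2 ≤ c ^ 2 * Y.card)
    (u : L2 G) : ‖M Y (mul κ u)‖ ≤ c * ‖u‖ := by
  obtain ⟨y, hy⟩ : ∃ y, y = M Y (mul κ u) := ⟨_, rfl⟩
  have h1 : ‖y‖ ^ 2 = ⟪u, mul κ (M Y y)⟫_ℝ := by
    rw [← inner_mul, ← inner_M hs, ← hy, real_inner_self_eq_norm_sq]
  have h2 := real_inner_le_norm u (mul κ (M Y y))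
  have h3 := mul_le_mul_of_nonneg_left (hs_mul hY hs hΩ hc h y) (norm_nonneg u)
  rw [← hy]
  rcases (norm_nonneg y).eq_or_lt with h6 | h6
  · rw [← h6]; positivity
  · refine le_of_mul_le_mul_left ?_ h6
    nlinarith

theorem spec_TQ {Y : Finset G} (hY : Y.Nonempty) (hs : Y⁻¹ = Y) {φ : G → ℝ}
    (h0 : ∀ x, 0 ≤ φ x) (Ω : Finset G) (hΩ : ∀ x, φ x ≠ 0 → x ∈ Ω)
    {D τ : ℝ} (hD : ∑ x ∈ Ω, φ x ≤ D * Y.card) (hτ : 0 < τ) (hτD : τ ≤ D) :
    ∃ (E : Submodule ℝ (L2 G)) (lo hi : ℝ), Spec (T Y φ) E lo hi ∧ τ / 2 ≤ lo ∧ hi ≤ τ ∧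
      lo + τ ^ 2 / (6 * D) ≤ hi ∧ (Module.finrank ℝ E : ℝ) ≤ 2 * D / τ := by
  have hc : (0 : ℝ) < Y.card := by exact_mod_cast hY.card_pos
  refine spectral Ω (fun x => √(φ x) • M Y (ind {x})) (T Y φ) (fun u => ?_) ?_ hτ hτD
  · rw [T_apply, spect_mul Ω hΩ, map_sum]
    refine Finset.sum_congr rfl fun x _ => ?_
    rw [map_smul, inner_smul_left, inner_M hs, inner_ind_single, smul_smul, conj_trivial,
      mul_right_comm, Real.mul_self_sqrt (h0 x)]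
  · calc _ ≤ ∑ x ∈ Ω, φ x * (Y.card : ℝ)⁻¹ := by
          refine Finset.sum_le_sum fun x _ => ?_
          rw [norm_smul, mul_pow, Real.norm_eq_abs, sq_abs, Real.sq_sqrt (h0 x)]
          exact mul_le_mul_of_nonneg_left (spect_norm hY x) (h0 x)
      _ ≤ D := by
          rw [← Finset.sum_mul, mul_inv_le_iff₀ hc]
          exact hD

theorem WinQ.mul_le {Y U : Finset G} (hY : Y.Nonempty) (hs : Y⁻¹ = Y) {ω₀ ω : G → ℝ}
    {C ε c : ℝ} (hW : WinQ Y U ω₀ ω C ε c) (f : L2 G) : ‖mul ω (M Y f)‖ ≤ ‖f‖ := by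
  obtain ⟨Ω, h1, h2, -⟩ := hW.supp
  simpa only [one_mul] using hs_mul hY hs h1 zero_le_one h2 f

theorem WinQ.M_le {Y U : Finset G} (hY : Y.Nonempty) (hs : Y⁻¹ = Y) {ω₀ ω : G → ℝ}
    {C ε c : ℝ} (hW : WinQ Y U ω₀ ω C ε c) (u : L2 G) : ‖M Y (mul ω u)‖ ≤ ‖u‖ := by
  obtain ⟨Ω, h1, h2, -⟩ := hW.supp
  simpa only [one_mul] using hs_M hY hs h1 zero_le_one h2 u

theorem WinQ.M_le₀ {Y U : Finset G} (hY : Y.Nonempty) (hs : Y⁻¹ = Y) {ω₀ ω : G → ℝ}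
    {C ε c : ℝ} (hW : WinQ Y U ω₀ ω C ε c) (u : L2 G) : ‖M Y (mul ω₀ u)‖ ≤ ‖u‖ := by
  obtain ⟨Ω, h1, h2, -⟩ := hW.supp
  have h3 : ∀ x, ω₀ x ≠ 0 → x ∈ Ω := fun x hx =>
    h1 x fun h => hx (le_antisymm (h ▸ hW.le x) (hW.nonneg x))
  have h4 : ∑ x ∈ Ω, ω₀ x ^ 2 ≤ 1 ^ 2 * (Y.card : ℝ) :=
    (Finset.sum_le_sum fun x _ => pow_le_pow_left₀ (hW.nonneg x) (hW.le x) 2).trans h2
  simpa only [one_mul] using hs_M hY hs h3 zero_le_one h4 u

theorem escapeQ {Y U : Finset G} (hY : Y.Nonempty) (hs : Y⁻¹ = Y) {ω₀ ω φ lam : G → ℝ}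
    {C ε c : ℝ} (hW : WinQ Y U ω₀ ω C ε c) (hφ : PhiQ U ω₀ ω φ C lam)
    {E : Submodule ℝ (L2 G)} {lo hi η : ℝ} (hE : Spec (T Y φ) E lo hi) (hη : 0 ≤ η)
    (hlo : lo ≤ η ^ 2) {g : G} (hg : g ∉ U) : c - 2 * η ≤ aE E g := by
  obtain ⟨u, hu, h1⟩ := hW.detect
  obtain ⟨p, hp, -, hsn, hpn⟩ := half hs hφ.ge hE hη hlo u
  have h2 := (h1 g hg).trans (half_split g hp)
  have ha0 : 0 ≤ aE E g := apply_nonneg _ _
  have h3 := mul_le_mul_of_nonneg_left ((hpn.trans (hW.M_le₀ hY hs u)).trans hu) ha0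
  have h4 := mul_le_mul_of_nonneg_left hu hη
  linarith

theorem sm_of_aEQ {Y U : Finset G} (hY : Y.Nonempty) (hs : Y⁻¹ = Y) {ω₀ ω φ lam : G → ℝ}
    {C ε c : ℝ} (hε : 0 ≤ ε) (hW : WinQ Y U ω₀ ω C ε c) (hφ : PhiQ U ω₀ ω φ C lam)
    {E : Submodule ℝ (L2 G)} {lo hi η θ : ℝ} (hE : Spec (T Y φ) E lo hi) (hη : 0 ≤ η)
    (hlo : lo ≤ η ^ 2) {g : G} (hg : aE E g + 2 * η + 2 * ε ≤ θ) : Sm Y ω θ g := by
  intro u
  obtain ⟨p, hp, -, hsn, hpn⟩ := half hs hφ.ge hE hη hlo u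
  have e : mul ω u = mul ω₀ u + mul (fun x => ω x - ω₀ x) u := L2.ext fun x => by
    simp only [ev_mul, L2.ev_add]; ring
  have hz : ‖M Y (mul (fun x => ω x - ω₀ x) u)‖ ≤ ε * ‖u‖ := by
    obtain ⟨Ω, h1, -, h2⟩ := hW.supp
    refine hs_M hY hs (fun x hx => h1 x fun h => hx ?_) hε h2 u
    have h3 := hW.le x
    have h4 := hW.nonneg x
    linarith
  have hy := hW.M_le₀ hY hs u
  rw [e, map_add, map_add]
  obtain ⟨y, hyd⟩ : ∃ y, y = M Y (mul ω₀ u) := ⟨_, rfl⟩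
  obtain ⟨z, hzd⟩ : ∃ z, z = M Y (mul (fun x => ω x - ω₀ x) u) := ⟨_, rfl⟩
  rw [← hyd] at hsn hpn hy ⊢
  rw [← hzd] at hz ⊢
  have e2 : R g y + R g z - (y + z) = (R g y - y) + (R g z - z) := by abel
  rw [e2]
  refine (norm_add_le _ _).trans ?_
  have h1 := half_split (y := y) g hp
  have h2 := norm_sub_le (R g z) z
  rw [norm_R] at h2
  have ha0 : 0 ≤ aE E g := apply_nonneg _ _
  have h3 := mul_le_mul_of_nonneg_left (hpn.trans hy) ha0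
  have h4 := mul_le_mul_of_nonneg_right hg (norm_nonneg u)
  nlinarith

end

section

variable {G : Type*} [Group G] [DecidableEq G]

omit [DecidableEq G] in
theorem factorq_sup (U : Finset G) (h1 : (1 : G) ∈ U) (F : G → G → ℝ) :
    ∃ φ : G → ℝ, (∀ x, ∀ z ∈ U, F x z ≤ φ x) ∧ ∀ x, ∃ z ∈ U, φ x = F x z :=
  ⟨fun x => U.sup' ⟨1, h1⟩ (F x), fun x _ hz => Finset.le_sup' (F x) hz,
    fun x => Finset.exists_mem_eq_sup' ⟨1, h1⟩ (F x)⟩

theorem exists_phiQ {Y U : Finset G} {ω₀ ω : G → ℝ} {C ε c : ℝ} (hC : 0 ≤ C)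
    (hW : WinQ Y U ω₀ ω C ε c) (d : GroupSeminorm G) {δ : ℝ} (hδ : 0 < δ)
    (hd : ∀ g, g ∉ U → δ ≤ d g) :
    ∃ φ : G → ℝ, PhiQ U ω₀ ω φ C (fun q => C * d q / δ) := by
  have h1 := hW.one_mem
  have dn : ∀ g, 0 ≤ d g / δ := fun g => div_nonneg (apply_nonneg d g) hδ.le
  obtain ⟨φ, hge, hat⟩ : ∃ φ : G → ℝ,
      (∀ x, ∀ z ∈ U, ω₀ (x * z) ^ 2 * max 0 (1 - d z / δ) ≤ φ x) ∧
      ∀ x, ∃ z ∈ U, φ x = ω₀ (x * z) ^ 2 * max 0 (1 - d z / δ) :=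
    factorq_sup U h1 fun x z => ω₀ (x * z) ^ 2 * max 0 (1 - d z / δ)
  have h0 : ∀ x, ω₀ x ^ 2 ≤ φ x := fun x => by simpa using hge x 1 h1
  have hall : ∀ x z, ω₀ (x * z) ^ 2 * max 0 (1 - d z / δ) ≤ φ x := fun x z => by
    by_cases hz : z ∈ U
    · exact hge x z hz
    · have : 1 ≤ d z / δ := (one_le_div hδ).2 (hd z hz)
      rw [max_eq_left (by linarith), mul_zero]
      exact (sq_nonneg _).trans (h0 x)
  have hle : ∀ x, ∃ z ∈ U, φ x ≤ ω₀ (x * z) ^ 2 := fun x => by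
    obtain ⟨z, hz, e⟩ := hat x
    refine ⟨z, hz, e.trans_le (mul_le_of_le_one_right (sq_nonneg _) (max_le zero_le_one ?_))⟩
    linarith [dn z]
  have key : ∀ x q, ∃ z ∈ U, φ (x * q) - φ x ≤ ω₀ (x * q * z) ^ 2 * (d q / δ) := fun x q => by
    obtain ⟨z, hz, e⟩ := hat (x * q)
    refine ⟨z, hz, ?_⟩
    have h2 := hall x (q * z)
    have h3 : d (q * z) / δ ≤ d q / δ + d z / δ := by
      rw [← add_div]
      exact div_le_div_of_nonneg_right (map_mul_le_add d q z) hδ.le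
    have h4 : max 0 (1 - d z / δ) ≤ max 0 (1 - d (q * z) / δ) + d q / δ :=
      max_le (add_nonneg (le_max_left _ _) (dn q))
        (by linarith [le_max_right 0 (1 - d (q * z) / δ)])
    have h5 := mul_le_mul_of_nonneg_left h4 (sq_nonneg (ω₀ (x * q * z)))
    rw [← mul_assoc] at h2
    rw [e]
    linarith
  refine ⟨φ, hC, fun q => ?_, h0, fun x => ?_, fun q hq x => ?_⟩
  · rw [mul_div_assoc]
    exact mul_nonneg hC (dn q)
  · obtain ⟨z, hz, e⟩ := hle x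
    exact e.trans (by simpa using hW.shift x z hz 1 h1)
  · have e : C * d q / δ * ω x ^ 2 = C * ω x ^ 2 * (d q / δ) := by ring
    rw [e, abs_sub_le_iff]
    constructor
    · obtain ⟨z, hz, h2⟩ := key x q
      exact h2.trans (mul_le_mul_of_nonneg_right (hW.shift x q hq z hz) (dn q))
    · obtain ⟨z, hz, h2⟩ := key (x * q) q⁻¹
      rw [mul_inv_cancel_right, map_inv_eq_map] at h2
      exact h2.trans (mul_le_mul_of_nonneg_right (by simpa using hW.shift x z hz 1 h1) (dn q))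

theorem factorQ {Y U : Finset G} (hY : Y.Nonempty) (hs : Y⁻¹ = Y) {ω₀ ω φ lam : G → ℝ}
    {C ε c : ℝ} (hW : WinQ Y U ω₀ ω C ε c) (hφ : PhiQ U ω₀ ω φ C lam) {g : G} (hg : g ∈ U)
    (f' : L2 G) :
    ∃ u : L2 G, R g (T Y φ f') - T Y φ f' = M Y (mul ω u) ∧
      ‖u‖ ≤ lam g * ‖f'‖ + C * ‖R g f' - f'‖ := by
  have h1 : ∀ x, |(φ (x * g) - φ x) / ω x ^ 2| ≤ lam g ∧
      ω x ^ 2 * ((φ (x * g) - φ x) / ω x ^ 2) = φ (x * g) - φ x :=
    fun x => factor_div (hφ.lam_nonneg g) (sq_nonneg _) (hφ.lip g hg x)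
  have h2 : ∀ x, |φ x / ω x ^ 2| ≤ C ∧ ω x ^ 2 * (φ x / ω x ^ 2) = φ x := fun x =>
    factor_div hφ.C_nonneg (sq_nonneg _) (by
      rw [abs_of_nonneg ((sq_nonneg _).trans (hφ.ge x))]; exact hφ.le x)
  refine ⟨mul (fun x => (φ (x * g) - φ x) / ω x ^ 2) (mul ω (M Y (R g f'))) +
    mul (fun x => φ x / ω x ^ 2) (mul ω (M Y (R g f' - f'))), ?_, ?_⟩
  · rw [T_apply, R_M, ← map_sub]
    congr 1
    refine L2.ext fun x => ?_
    rw [map_sub, ← R_M]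
    simp only [L2.ev_sub, L2.ev_add, ev_mul, ev_R]
    have e1 := (h1 x).2
    have e2 := (h2 x).2
    linear_combination (-(M Y f').ev (x * g)) * e1 -
      ((M Y f').ev (x * g) - (M Y f').ev x) * e2
  · refine (norm_add_le _ _).trans (add_le_add ?_ ?_)
    · refine (norm_mul_le (hφ.lam_nonneg g) (fun x => (h1 x).1) _).trans ?_
      refine mul_le_mul_of_nonneg_left ?_ (hφ.lam_nonneg g)
      exact (hW.mul_le hY hs _).trans (norm_R g f').le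
    · refine (norm_mul_le hφ.C_nonneg (fun x => (h2 x).1) _).trans ?_
      exact mul_le_mul_of_nonneg_left (hW.mul_le hY hs _) hφ.C_nonneg

theorem factorEQ {Y U : Finset G} (hY : Y.Nonempty) (hs : Y⁻¹ = Y) {ω₀ ω φ lam : G → ℝ}
    {C ε c : ℝ} (hW : WinQ Y U ω₀ ω C ε c) (hφ : PhiQ U ω₀ ω φ C lam)
    {E : Submodule ℝ (L2 G)} {lo hi : ℝ} (hE : Spec (T Y φ) E lo hi) {g : G} (hg : g ∈ U)
    {f : L2 G} (hf : f ∈ E) :
    ∃ u : L2 G, R g f - f = M Y (mul ω u) ∧ hi * ‖u‖ ≤ (lam g + C * aE E g) * ‖f‖ := by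
  obtain ⟨f', hf', hT, hn⟩ := hE.inv f hf
  obtain ⟨u, hu, hun⟩ := factorQ hY hs hW hφ hg f'
  have hhi : 0 ≤ hi := hE.lo_nonneg.trans hE.lt.le
  refine ⟨u, by rw [← hT]; exact hu, ?_⟩
  have h1 := aE_le E g hf'
  have ha : 0 ≤ aE E g := apply_nonneg _ _
  have hc : 0 ≤ lam g + C * aE E g := add_nonneg (hφ.lam_nonneg g) (mul_nonneg hφ.C_nonneg ha)
  have h2 : ‖u‖ ≤ (lam g + C * aE E g) * ‖f'‖ := by
    have := mul_le_mul_of_nonneg_left h1 hφ.C_nonneg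
    linarith
  calc hi * ‖u‖ ≤ hi * ((lam g + C * aE E g) * ‖f'‖) := mul_le_mul_of_nonneg_left h2 hhi
    _ = (lam g + C * aE E g) * (hi * ‖f'‖) := by ring
    _ ≤ _ := mul_le_mul_of_nonneg_left hn hc

end

section

variable {G : Type*} [Group G] [DecidableEq G]

theorem boot_estQ {Y U : Finset G} (hY : Y.Nonempty) (hs : Y⁻¹ = Y) {ω₀ ω φ lam : G → ℝ}
    {C ε c : ℝ} (hW : WinQ Y U ω₀ ω C ε c) (hφ : PhiQ U ω₀ ω φ C lam)
    {E : Submodule ℝ (L2 G)} {lo hi : ℝ} (hE : Spec (T Y φ) E lo hi) {θ μ κ : ℝ} (hθ : 0 ≤ θ)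
    (hμ : 0 ≤ μ) (hκ0 : 0 ≤ κ) (hκ1 : κ ≤ 1) (hCθ : 8 * C * θ ≤ κ * hi) {q : G} {n : ℕ}
    (hn : 1 ≤ n) (hq : Trap (fun v => v ∈ U ∧ Sm Y ω θ v) q n) (hlam : lam q ≤ C * μ / n) :
    aE E q ≤ (16 + κ * μ) / 7 / n := by
  have hq4 : q ∈ U := by simpa using (hq 1 le_rfl hn).1
  have hhi : 0 < hi := hE.lo_nonneg.trans_lt hE.lt
  have ha : 0 ≤ aE E q := apply_nonneg _ _
  have hn' : (0 : ℝ) < n := by exact_mod_cast hn
  have hC := hφ.C_nonneg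
  have hb : 0 ≤ μ / n + aE E q := by positivity
  have key : aE E q ≤ 2 / n + κ * (μ / n + aE E q) / 8 := by
    refine aE_bound E q (by positivity) fun f hf => ?_
    obtain ⟨u, hu, hun⟩ := factorEQ hY hs hW hφ hE hq4 hf
    have hf0 := norm_nonneg f
    have h1 : θ * ‖u‖ ≤ κ * (μ / n + aE E q) / 8 * ‖f‖ := by
      refine le_of_mul_le_mul_left ?_ hhi
      have h2 : lam q + C * aE E q ≤ C * (μ / n + aE E q) := by
        rw [mul_add, ← mul_div_assoc]; linarith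
      have h3 : hi * ‖u‖ ≤ C * (μ / n + aE E q) * ‖f‖ :=
        hun.trans (mul_le_mul_of_nonneg_right h2 hf0)
      calc hi * (θ * ‖u‖) = θ * (hi * ‖u‖) := by ring
        _ ≤ θ * (C * (μ / n + aE E q) * ‖f‖) := mul_le_mul_of_nonneg_left h3 hθ
        _ = (8 * C * θ) * ((μ / n + aE E q) / 8 * ‖f‖) := by ring
        _ ≤ (κ * hi) * ((μ / n + aE E q) / 8 * ‖f‖) :=
          mul_le_mul_of_nonneg_right hCθ (by positivity)
        _ = hi * (κ * (μ / n + aE E q) / 8 * ‖f‖) := by ring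
    have h4 := gleason q f n (β := κ * (μ / n + aE E q) / 8 * ‖f‖) (fun j hj => by
      rcases Nat.eq_zero_or_pos j with h0 | h0
      · subst h0
        simp only [pow_zero, R_one, sub_self, norm_zero]
        positivity
      · rw [hu]
        exact ((hq j h0 hj.le).2 u).trans h1)
    refine le_of_mul_le_mul_left (h4.trans (le_of_eq ?_)) hn'
    field_simp
  have e1 : (16 + κ * μ) / 7 / n = (16 * (1 / n) + κ * (μ / n)) / 7 := by ring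
  have e2 : (2 : ℝ) / n = 2 * (1 / n) := by ring
  have e3 : κ * aE E q ≤ aE E q := mul_le_of_le_one_left ha hκ1
  rw [e1]
  rw [e2, mul_add κ] at key
  linarith

theorem commQ {Y U : Finset G} (hY : Y.Nonempty) (hs : Y⁻¹ = Y) {ω₀ ω φ lam : G → ℝ}
    {C ε c : ℝ} (hW : WinQ Y U ω₀ ω C ε c) (hφ : PhiQ U ω₀ ω φ C lam) {g : G} (hg : g ∈ U)
    (f : L2 G) : ‖R g (T Y φ f) - T Y φ (R g f)‖ ≤ lam g * ‖f‖ := by
  have h1 : ∀ x, |(φ (x * g) - φ x) / ω x ^ 2| ≤ lam g ∧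
      ω x ^ 2 * ((φ (x * g) - φ x) / ω x ^ 2) = φ (x * g) - φ x :=
    fun x => factor_div (hφ.lam_nonneg g) (sq_nonneg _) (hφ.lip g hg x)
  have e : R g (T Y φ f) - T Y φ (R g f)
      = M Y (mul ω (mul (fun x => (φ (x * g) - φ x) / ω x ^ 2) (mul ω (M Y (R g f))))) := by
    rw [T_apply, T_apply, R_M, ← map_sub, R_mulop, R_M]
    congr 1
    refine L2.ext fun x => ?_
    simp only [L2.ev_sub, ev_mul]
    have := (h1 x).2
    linear_combination (-(M Y (R g f)).ev x) * this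
  rw [e]
  refine (hW.M_le hY hs _).trans
    ((norm_mul_le (hφ.lam_nonneg g) (fun x => (h1 x).1) _).trans ?_)
  refine mul_le_mul_of_nonneg_left ((hW.mul_le hY hs _).trans ?_) (hφ.lam_nonneg g)
  rw [norm_R]

end

section

variable {G : Type*} [Group G] [DecidableEq G]

omit [DecidableEq G] in
theorem coverq_step {T' : L2 G →ₗ[ℝ] L2 G} {E : Submodule ℝ (L2 G)} {lo hi : ℝ}
    (hE : Spec T' E lo hi) {g : G} {lam : ℝ} (hlam : 0 ≤ lam)
    (h : ∀ f, ‖R g (T' f) - T' (R g f)‖ ≤ lam * ‖f‖) {c : ℝ} (hc : 0 ≤ c)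
    (hQ : ∀ f ∈ E, ∀ p ∈ E, R g f - p ∈ Eᗮ → ‖R g f - p‖ ≤ c * ‖f‖) :
    ∀ f ∈ E, ∀ p ∈ E, R g f - p ∈ Eᗮ → ‖R g f - p‖ ≤ (lo * c + lam) / hi * ‖f‖ := by
  have := hE.fd
  intro f hf p hp hq
  have hlo := hE.lo_nonneg
  have hhi : 0 < hi := lt_of_le_of_lt hlo hE.lt
  obtain ⟨f', hf', hT, hn⟩ := hE.inv f hf
  obtain ⟨p', hp', hq', -, -⟩ := split E (R g f')
  obtain ⟨w, hw, hw', -, hw2⟩ := split E (R g (T' f') - T' (R g f'))
  have h1 := hE.perp _ hq'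
  have e : R g f - (T' p' + w)
      = T' (R g f' - p') + (R g (T' f') - T' (R g f') - w) := by
    rw [map_sub, hT]; abel
  have h2 : p = T' p' + w :=
    kahan_uniq hp (E.add_mem (hE.map _ hp') hw) hq (by rw [e]; exact Eᗮ.add_mem h1.1 hw')
  rw [h2, e]
  have h3 := hQ f' hf' p' hp' hq'
  have h4 := h f'
  have h5 : ‖T' (R g f' - p')‖ ≤ lo * (c * ‖f'‖) :=
    h1.2.trans (mul_le_mul_of_nonneg_left h3 hlo)
  have h6 : ‖f'‖ ≤ ‖f‖ / hi := by rw [le_div_iff₀ hhi]; linarith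
  have h7 : 0 ≤ lo * c + lam := by positivity
  calc _ ≤ lo * (c * ‖f'‖) + lam * ‖f'‖ := (norm_add_le _ _).trans (add_le_add h5 (hw2.trans h4))
    _ = (lo * c + lam) * ‖f'‖ := by ring
    _ ≤ (lo * c + lam) * (‖f‖ / hi) := mul_le_mul_of_nonneg_left h6 h7
    _ = _ := by ring

omit [DecidableEq G] in
theorem coverq_kahan {T' : L2 G →ₗ[ℝ] L2 G} {E : Submodule ℝ (L2 G)} {lo hi : ℝ}
    (hE : Spec T' E lo hi) {g : G} {lam : ℝ} (hlam : 0 ≤ lam)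
    (h : ∀ f, ‖R g (T' f) - T' (R g f)‖ ≤ lam * ‖f‖) {f : L2 G} (hf : f ∈ E) :
    ∃ p ∈ E, R g f - p ∈ Eᗮ ∧ ‖R g f - p‖ ≤ lam / (hi - lo) * ‖f‖ := by
  have := hE.fd
  have hlo := hE.lo_nonneg
  have hlt := hE.lt
  have hhi : 0 < hi := lt_of_le_of_lt hlo hlt
  set S : Set ℝ :=
    {c | 0 ≤ c ∧ ∀ f ∈ E, ∀ p ∈ E, R g f - p ∈ Eᗮ → ‖R g f - p‖ ≤ c * ‖f‖} with hS
  have h1 : (1 : ℝ) ∈ S := by
    refine ⟨zero_le_one, fun f _ p hp hq => ?_⟩
    obtain ⟨p', hp', hq', -, hn⟩ := split E (R g f)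
    rw [kahan_uniq hp hp' hq hq', one_mul, ← norm_R g f]
    exact hn
  have hne : S.Nonempty := ⟨1, h1⟩
  have hbd : BddBelow S := ⟨0, fun c hc => hc.1⟩
  have hx0 : 0 ≤ sInf S := le_csInf hne fun c hc => hc.1
  have hx : ∀ f ∈ E, ∀ p ∈ E, R g f - p ∈ Eᗮ → ‖R g f - p‖ ≤ sInf S * ‖f‖ := by
    intro f hf p hp hq
    rcases (norm_nonneg f).eq_or_lt with h0 | h0
    · have := h1.2 f hf p hp hq
      rw [← h0] at this ⊢
      simpa using this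
    · rw [← div_le_iff₀ h0]
      exact le_csInf hne fun c hc => (div_le_iff₀ h0).2 (hc.2 f hf p hp hq)
  have h2 : (lo * sInf S + lam) / hi ∈ S :=
    ⟨by positivity, coverq_step hE hlam h hx0 hx⟩
  have h3 := csInf_le hbd h2
  rw [le_div_iff₀ hhi] at h3
  have h4 : sInf S ≤ lam / (hi - lo) := by
    rw [le_div_iff₀ (sub_pos.2 hlt)]; linarith
  obtain ⟨p, hp, hq, -, -⟩ := split E (R g f)
  exact ⟨p, hp, hq, (hx f hf p hp hq).trans (mul_le_mul_of_nonneg_right h4 (norm_nonneg _))⟩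

omit [DecidableEq G] in
theorem selftrapQ {T' : L2 G →ₗ[ℝ] L2 G} {E : Submodule ℝ (L2 G)} {lo hi : ℝ}
    (hE : Spec T' E lo hi) {g : G} {lam t : ℝ} (hlam : 0 ≤ lam)
    (h : ∀ f, ‖R g (T' f) - T' (R g f)‖ ≤ lam * ‖f‖) (ht0 : 0 ≤ t) (ht : t ≤ 1 / 2) {n : ℕ}
    (hn : 1 ≤ n) (hg : Trap (fun x => aE E x ≤ t) g n) :
    aE E g ≤ 4 / n + 4 * (lam / (hi - lo)) := by
  have := hE.fd
  have hnu : 0 ≤ lam / (hi - lo) := div_nonneg hlam (sub_pos.2 hE.lt).le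
  have hn0 : (0 : ℝ) < n := by exact_mod_cast hn
  refine aE_bound E g (by positivity) fun f hf => ?_
  obtain ⟨p, hp, hq, hb⟩ := coverq_kahan hE hlam h hf
  generalize lam / (hi - lo) = ν at hnu hb ⊢
  have hpf : p - f ∈ E := E.sub_mem hp hf
  have hy : ‖p - f‖ ≤ ‖R g f - f‖ := by
    obtain ⟨p', hp', hq', hn', -⟩ := split E (R g f - f)
    have : p - f = p' := kahan_uniq hpf hp'
      (by rwa [show R g f - f - (p - f) = R g f - p by abel]) hq'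
    rw [this]; exact hn'
  have hj : ∀ j < n, ‖R (g ^ j) (R g f - f) - (R g f - f)‖
      ≤ t * ‖R g f - f‖ + 2 * (ν * ‖f‖) := by
    intro j hj
    rcases Nat.eq_zero_or_pos j with rfl | hj0
    · simp only [pow_zero, R_one, sub_self, norm_zero]
      positivity
    · have h1 : aE E (g ^ j) ≤ t := hg j hj0 hj.le
      have h2 := aE_le E (g ^ j) hpf
      have e : R (g ^ j) (R g f - f) - (R g f - f)
          = (R (g ^ j) (p - f) - (p - f)) + (R (g ^ j) (R g f - p) - (R g f - p)) := by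
        simp only [map_sub]; abel
      have h3 := norm_sub_le (R (g ^ j) (R g f - p)) (R g f - p)
      rw [norm_R] at h3
      have h4 : aE E (g ^ j) * ‖p - f‖ ≤ t * ‖R g f - f‖ :=
        mul_le_mul h1 hy (norm_nonneg _) ht0
      rw [e]
      refine (norm_add_le _ _).trans ?_
      linarith
  have hG := gleason g f n hj
  have h5 : t * ‖R g f - f‖ ≤ 1 / 2 * ‖R g f - f‖ :=
    mul_le_mul_of_nonneg_right ht (norm_nonneg _)
  have h6 : (n : ℝ) * (t * ‖R g f - f‖) ≤ n * (1 / 2 * ‖R g f - f‖) :=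
    mul_le_mul_of_nonneg_left h5 hn0.le
  have h7 : (n : ℝ) * ‖R g f - f‖ ≤ n * ((4 / n + 4 * ν) * ‖f‖) := by
    have e : (n : ℝ) * ((4 / n + 4 * ν) * ‖f‖) = 4 * ‖f‖ + 4 * (n * (ν * ‖f‖)) := by
      field_simp
    rw [e]
    linarith
  exact le_of_mul_le_mul_left h7 hn0

theorem coverQ {Y U : Finset G} (hY : Y.Nonempty) (hs : Y⁻¹ = Y) {ω₀ ω φ lam : G → ℝ}
    {C ε c : ℝ} (hW : WinQ Y U ω₀ ω C ε c) (hφ : PhiQ U ω₀ ω φ C lam)
    {E E'' : Submodule ℝ (L2 G)} {lo hi lo'' hi'' η κ r ρ : ℝ} (hE : Spec (T Y φ) E lo hi)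
    (hE'' : Spec (T Y fun x => ω x ^ 2) E'' lo'' hi'') (hη : 0 ≤ η) (hlo : lo'' ≤ η ^ 2)
    {N : ℕ} (hN : Module.finrank ℝ E ≤ N) (hN'' : Module.finrank ℝ E'' ≤ N)
    (hr : 0 ≤ r) (hρ : 0 < ρ) (hκ : 0 ≤ κ) (hηκ : 4 * η * κ ≤ ρ)
    (hU : ∀ g, aE E g ≤ ρ → g ∈ U) (S : Finset G) (hS : S ⊆ U)
    (h1 : ∀ g ∈ S, aE E g ≤ r) (h2 : ∀ g ∈ S, lam g + C * aE E g ≤ κ * hi) :
    (S.card : ℝ) ≤ (4 * r * N / ρ + 2) ^ (N * N) * (ball U (aE E) ρ).card := by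
  have := hE.fd
  have := hE''.fd
  have hhi : 0 < hi := lt_of_le_of_lt hE.lo_nonneg hE.lt
  have hX : ∀ g ∈ S, ∀ f ∈ E, ‖cover_X g f‖ ≤ r * ‖f‖ := by
    intro g hg f hf
    rw [cover_X_apply]
    exact (aE_le E g hf).trans (mul_le_mul_of_nonneg_right (h1 g hg) (norm_nonneg _))
  have hpk := packing (H := L2 G) (ι := G) E E'' N hN hN'' S cover_X hr (half_pos hρ) hX
  obtain ⟨S', hS', hcard, hclose⟩ := hpk
  have e0 : 2 * r * N / (ρ / 2) = 4 * r * N / ρ := by field_simp; ring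
  rw [e0] at hcard
  refine hcard.trans (mul_le_mul_of_nonneg_left ?_ (by positivity))
  rcases S'.eq_empty_or_nonempty with rfl | ⟨g0, hg0⟩
  · simp
  have hu : ∀ g ∈ S', ∀ f ∈ E, ∃ u : L2 G, R g f - f = M Y (mul ω u) ∧ ‖u‖ ≤ κ * ‖f‖ := by
    intro g hg f hf
    obtain ⟨u, a1, a2⟩ := factorEQ hY hs hW hφ hE (hS (hS' hg)) hf
    refine ⟨u, a1, le_of_mul_le_mul_left (a2.trans ?_) hhi⟩
    calc (lam g + C * aE E g) * ‖f‖ ≤ κ * hi * ‖f‖ :=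
          mul_le_mul_of_nonneg_right (h2 g (hS' hg)) (norm_nonneg _)
      _ = _ := by ring
  have key : ∀ g ∈ S', aE E (g0⁻¹ * g) ≤ ρ := by
    intro g hg
    refine aE_bound E _ hρ.le fun f hf => ?_
    have e1 : R g0 (R (g0⁻¹ * g) f - f) = R g f - R g0 f := by
      rw [map_sub, ← R_mul, mul_inv_cancel_left]
    rw [← norm_R g0, e1]
    obtain ⟨u, a1, a2⟩ := hu g hg f hf
    obtain ⟨u0, b1, b2⟩ := hu g0 hg0 f hf
    have e2 : R g f - R g0 f = M Y (mul ω (u - u0)) := by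
      rw [map_sub, map_sub, ← a1, ← b1]; abel
    obtain ⟨p, hp, c1, c2, -⟩ := half hs (φ := fun x => ω x ^ 2) (κ := ω) (fun _ => le_rfl) hE'' hη
      hlo (u - u0)
    rw [← e2] at c1 c2
    have hf0 := norm_nonneg f
    have c3 : ‖R g f - R g0 f - p‖ ≤ ρ / 2 * ‖f‖ := by
      refine c2.trans ?_
      have d1 : ‖u - u0‖ ≤ 2 * κ * ‖f‖ := (norm_sub_le _ _).trans (by linarith)
      calc η * ‖u - u0‖ ≤ η * (2 * κ * ‖f‖) := mul_le_mul_of_nonneg_left d1 hη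
        _ = (4 * η * κ) / 2 * ‖f‖ := by ring
        _ ≤ _ := by gcongr
    have c4 : ‖p‖ ≤ ρ / 2 * ‖f‖ := by
      have d1 := hclose g hg g0 hg0 f hf p hp
      have d2 : cover_X g f - cover_X g0 f = (R g f - R g0 f - p) + p := by
        rw [cover_X_apply, cover_X_apply]; abel
      rw [d2, inner_add_right, (Submodule.mem_orthogonal E'' _).1 c1 p hp, zero_add,
        real_inner_self_eq_norm_sq, abs_of_nonneg (sq_nonneg _)] at d1
      rcases (norm_nonneg p).eq_or_lt with h0 | h0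
      · rw [← h0]; positivity
      · refine le_of_mul_le_mul_left ?_ h0
        calc ‖p‖ * ‖p‖ = ‖p‖ ^ 2 := by ring
          _ ≤ _ := d1
          _ = _ := by ring
    calc ‖R g f - R g0 f‖ = ‖(R g f - R g0 f - p) + p‖ := by rw [sub_add_cancel]
      _ ≤ ‖R g f - R g0 f - p‖ + ‖p‖ := norm_add_le _ _
      _ ≤ _ := by linarith
  have hle : S'.card ≤ (ball U (aE E) ρ).card :=
    Finset.card_le_card_of_injOn (fun g => g0⁻¹ * g)
      (fun g hg => Finset.mem_coe.2 (mem_ball.2 ⟨hU _ (key g hg), key g hg⟩))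
      (fun a _ b _ h => mul_left_cancel h)
  exact_mod_cast hle

omit [DecidableEq G] in
theorem NSS.transfer {U V : Finset G} {a : GroupSeminorm G} {t Λ P P' P'' : ℝ} {n₀ : ℕ}
    (h : NSS U a t Λ P n₀) (ht : 0 ≤ t) (hUV : U ⊆ V) (hP : 0 ≤ P) (hP' : 1 ≤ P')
    (hV : (V.card : ℝ) ≤ P' * U.card) (hPP : P' * P ≤ P'') : NSS V a t Λ P'' n₀ := by
  have hb : ∀ r, r ≤ t → ball V a r = ball U a r := by
    intro r hr
    ext g
    rw [mem_ball, mem_ball]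
    exact ⟨fun hg => ⟨h.mem g (hg.2.trans hr), hg.2⟩, fun hg => ⟨hUV hg.1, hg.2⟩⟩
  have hPP' : P ≤ P'' := by nlinarith
  refine ⟨fun g hg => hUV (h.mem g hg), h.trap, fun r h1 h2 => ?_, ?_⟩
  · have hr0 : 0 ≤ r := le_trans (div_nonneg ht (Nat.cast_nonneg _)) h1
    rw [hb r h2, hb (r / 2) (by linarith)]
    exact (h.dbl r h1 h2).trans (mul_le_mul_of_nonneg_right hPP' (Nat.cast_nonneg _))
  · rw [hb t le_rfl]
    calc (V.card : ℝ) ≤ P' * U.card := hV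
      _ ≤ P' * (P * (ball U a t).card) := mul_le_mul_of_nonneg_left h.top (by linarith)
      _ = P' * P * (ball U a t).card := by ring
      _ ≤ _ := mul_le_mul_of_nonneg_right hPP (Nat.cast_nonneg _)

end

section

variable {G : Type*} [Group G] [DecidableEq G]

omit [DecidableEq G] in
theorem keyq_spec {Y U : Finset G} {ω₀ ω φ lam : G → ℝ} {C D : ℝ} {Ω : Finset G}
    (hφ : PhiQ U ω₀ ω φ C lam) (hCD : C ≤ D) (hΩ : ∀ x, ω x ≠ 0 → x ∈ Ω)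
    (h : ∑ x ∈ Ω, ω x ^ 2 ≤ 1 ^ 2 * Y.card) :
    (∀ x, 0 ≤ φ x) ∧ (∀ x, φ x ≠ 0 → x ∈ Ω) ∧ ∑ x ∈ Ω, φ x ≤ D * Y.card := by
  have hφ0 : ∀ x, 0 ≤ φ x := fun x => (sq_nonneg _).trans (hφ.ge x)
  refine ⟨hφ0, fun x hx => hΩ x fun h => hx
    (le_antisymm (by simpa [h] using hφ.le x) (hφ0 x)), ?_⟩
  calc ∑ x ∈ Ω, φ x ≤ ∑ x ∈ Ω, C * ω x ^ 2 := Finset.sum_le_sum fun x _ => hφ.le x
    _ = C * ∑ x ∈ Ω, ω x ^ 2 := (Finset.mul_sum _ _ _).symm
    _ ≤ C * (1 ^ 2 * Y.card) := mul_le_mul_of_nonneg_left h hφ.C_nonneg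
    _ ≤ D * Y.card := by
      rw [one_pow, one_mul]
      exact mul_le_mul_of_nonneg_right hCD (Nat.cast_nonneg _)

/-- The window with a polynomial Lipschitz constant. -/
theorem key_bootQ {Y U : Finset G} (hY : Y.Nonempty) (hs : Y⁻¹ = Y) {b : ℝ} (hb4 : 4 ≤ b)
    {ω₀ ω : G → ℝ} (hW : WinQ Y U ω₀ ω (b ^ 8) ((b ^ 20)⁻¹) (1 / (2 * b))) {n₀ : ℕ}
    (hn₀ : 1 ≤ n₀) :
    ∃ φ lam : G → ℝ, PhiQ U ω₀ ω φ (b ^ 8) lam ∧ (∀ g, lam g ≤ b ^ 11) ∧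
      ∀ (q : G) (n : ℕ), 1 ≤ n → n ≤ n₀ →
        Trap (fun v => v ∈ U ∧ Sm Y ω ((b ^ 17)⁻¹) v) q n → lam q ≤ b ^ 11 / n := by
  have hb : 2 ≤ b := by linarith
  have hb0 : 0 < b := by linarith
  obtain ⟨d, hd1, hd0, hdT, hdmax⟩ :=
    exists_dist (fun v => v ∈ U ∧ Sm Y ω ((b ^ 17)⁻¹) v) hn₀
  have hn0' : (1 : ℝ) ≤ n₀ := by exact_mod_cast hn₀
  obtain ⟨δ, hδ0, hδ1, hδd, hδmax⟩ := exists_delta U d (c₀ := 1 / (n₀ : ℝ))
    (by positivity) (by rw [div_le_one (by linarith)]; exact hn0')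
    (fun g hg => hd0 g (fun h => hg (h ▸ hW.one_mem)))
  have hC : (0 : ℝ) ≤ b ^ 8 := by positivity
  obtain ⟨φ, hφ⟩ := exists_phiQ hC hW d hδ0 hδd
  obtain ⟨Ω, hΩ, hΩc, -⟩ := hW.supp
  obtain ⟨hφ0, hφΩ, hφD⟩ := keyq_spec hφ le_rfl hΩ hΩc
  have h5 : (1 : ℝ) ≤ b ^ 5 := one_le_pow₀ (by linarith)
  have h8 : (1 : ℝ) ≤ b ^ 8 := one_le_pow₀ (by linarith)
  obtain ⟨E, lo, hi, hE, hlo, hhi, -, -⟩ := spec_TQ hY hs hφ0 Ω hφΩ hφD
    (τ := (b ^ 5)⁻¹) (by positivity) ((inv_le_one_of_one_le₀ h5).trans h8)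
  have hlt := hE.lt
  have h64 : 64 ≤ b ^ 3 := by
    have := pow_le_pow_left₀ (by norm_num : (0 : ℝ) ≤ 4) hb4 3
    linarith
  obtain ⟨κ, hκ⟩ : ∃ κ : ℝ, κ = 1 / (4 * b) := ⟨_, rfl⟩
  have hκ0 : 0 < κ := by rw [hκ]; positivity
  have hκ1 : κ ≤ 1 := by rw [hκ, div_le_one (by positivity)]; linarith
  have hesc : ∀ g, g ∉ U → κ ≤ aE E g := by
    intro g hg
    have h1 := escapeQ hY hs hW hφ hE (η := 1 / (8 * b)) (by positivity) (by
      have e1 : (b ^ 5)⁻¹ ≤ (1 / (8 * b)) ^ 2 := by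
        rw [inv_eq_one_div, div_pow, one_pow]
        refine one_div_le_one_div_of_le (by positivity) ?_
        calc (8 * b) ^ 2 = 64 * b ^ 2 := by ring
          _ ≤ b ^ 3 * b ^ 2 := mul_le_mul_of_nonneg_right h64 (by positivity)
          _ = b ^ 5 := by ring
      linarith) hg
    have e : 1 / (2 * b) - 2 * (1 / (8 * b)) = κ := by rw [hκ]; field_simp; ring
    rwa [e] at h1
  have hCθ : 8 * b ^ 8 * (b ^ 17)⁻¹ ≤ κ * hi := by
    have e2 : 8 * b ^ 8 * (b ^ 17)⁻¹ ≤ κ * ((b ^ 5)⁻¹ / 2) := by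
      have e3 : κ * ((b ^ 5)⁻¹ / 2) = b ^ 3 / 64 * (8 * b ^ 8 * (b ^ 17)⁻¹) := by
        rw [hκ]; field_simp; ring
      rw [e3]
      exact le_mul_of_one_le_left (by positivity) (by linarith)
    exact e2.trans (mul_le_mul_of_nonneg_left (by linarith) hκ0.le)
  have hμ : 0 ≤ 1 / δ := by positivity
  have hbootq : ∀ (q : G) (n : ℕ), 1 ≤ n → n ≤ n₀ →
      Trap (fun v => v ∈ U ∧ Sm Y ω ((b ^ 17)⁻¹) v) q n →
      aE E q ≤ (16 + κ * (1 / δ)) / 7 / n := by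
    intro q n hn hn' hq
    refine boot_estQ hY hs hW hφ hE (by positivity) hμ hκ0.le hκ1 hCθ hn hq ?_
    have := hdT q n hn hn' hq
    have hn1 : (0 : ℝ) < n := by exact_mod_cast hn
    calc b ^ 8 * d q / δ ≤ b ^ 8 * (1 / n) / δ := by gcongr
      _ = b ^ 8 * (1 / δ) / n := by field_simp
  have hl0 : 0 ≤ κ * (1 / δ) := by positivity
  have hl : 0 < (16 + κ * (1 / δ)) / 7 := by positivity
  have hδ8 : 3 / 8 * κ ≤ δ := by
    have hc1 : κ / ((16 + κ * (1 / δ)) / 7) ≤ 1 := by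
      rw [div_le_one hl]; linarith
    have := hδmax (κ / ((16 + κ * (1 / δ)) / 7)) hc1 (fun g hg => by
      refine le_trans (le_min hc1 ?_) (hdmax (aE E) _ hl hbootq g)
      exact div_le_div_of_nonneg_right (hesc g hg) hl.le)
    rw [div_le_iff₀ hl] at this
    have e : δ * ((16 + κ * (1 / δ)) / 7) = (16 * δ + κ) / 7 := by field_simp
    rw [e] at this
    linarith
  have hlam : ∀ g, b ^ 8 * d g / δ ≤ b ^ 11 * d g := by
    intro g
    have hg0 : 0 ≤ d g := apply_nonneg d g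
    rw [div_le_iff₀ hδ0]
    have e2 : b ^ 8 ≤ b ^ 11 * δ := by
      have e1 : b ^ 11 * (3 / 8 * κ) ≤ b ^ 11 * δ := mul_le_mul_of_nonneg_left hδ8 (by positivity)
      have e3 : b ^ 11 * (3 / 8 * κ) = 3 / 32 * b ^ 2 * b ^ 8 := by rw [hκ]; field_simp; ring
      have e4 : 1 ≤ 3 / 32 * b ^ 2 := by nlinarith
      have e5 : b ^ 8 ≤ 3 / 32 * b ^ 2 * b ^ 8 := le_mul_of_one_le_left hC e4
      linarith
    calc b ^ 8 * d g ≤ b ^ 11 * δ * d g := mul_le_mul_of_nonneg_right e2 hg0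
      _ = _ := by ring
  refine ⟨φ, _, hφ, fun g => (hlam g).trans ?_, fun q n hn hn' hq => (hlam q).trans ?_⟩
  · exact mul_le_of_le_one_right (by positivity) (hd1 g)
  · rw [div_eq_mul_one_div]
    exact mul_le_mul_of_nonneg_left (hdT q n hn hn' hq) (by positivity)

theorem keyQ {Y U : Finset G} (hY : Y.Nonempty) (hs : Y⁻¹ = Y) {b : ℝ} (hb4 : 4 ≤ b)
    {ω₀ ω : G → ℝ} (hW : WinQ Y U ω₀ ω (b ^ 8) ((b ^ 20)⁻¹) (1 / (2 * b))) {n₀ : ℕ}
    (hn₀ : 1 ≤ n₀) :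
    ∃ a : GroupSeminorm G, NSS U a ((b ^ 19)⁻¹) (b ^ 124) (Real.exp (b ^ 563)) n₀ := by
  obtain ⟨φ, lam, hφ, hlam1, hlamT⟩ := key_bootQ hY hs hb4 hW hn₀
  have hb : 2 ≤ b := by linarith
  have hb0 : 0 < b := by linarith
  have hb1 : ∀ k : ℕ, (1 : ℝ) ≤ b ^ k := fun k => one_le_pow₀ (by linarith)
  have hmono : ∀ i j : ℕ, i ≤ j → b ^ i ≤ b ^ j := fun i j h =>
    pow_le_pow_right₀ (by linarith) h
  obtain ⟨Ω, hΩ, hΩc, -⟩ := hW.supp
  obtain ⟨hφ0, hφΩ, hφD⟩ := keyq_spec hφ (hmono 8 27 (by norm_num)) hΩ hΩc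
  obtain ⟨E, lo, hi, hE, hlo, hhi, hgap, hdim⟩ := spec_TQ hY hs hφ0 Ω hφΩ hφD
    (τ := (b ^ 40)⁻¹) (by positivity) ((inv_le_one_of_one_le₀ (hb1 40)).trans (hb1 27))
  obtain ⟨E'', lo'', hi'', hE'', -, hhi'', -, hdim''⟩ := spec_TQ hY hs (φ := fun x => ω x ^ 2)
    (fun x => sq_nonneg _) Ω (fun x hx => hΩ x fun h => hx (by simp [h])) (D := b ^ 27)
    (hΩc.trans (mul_le_mul_of_nonneg_right (by rw [one_pow]; exact hb1 27) (Nat.cast_nonneg _)))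
    (τ := (b ^ 152)⁻¹) (by positivity) ((inv_le_one_of_one_le₀ (hb1 152)).trans (hb1 27))
  have hlt := hE.lt
  have hlt'' := hE''.lt
  have hlo'' : lo'' ≤ ((b ^ 76)⁻¹) ^ 2 := by
    rw [inv_pow, ← pow_mul]; linarith
  have hlo20 : lo ≤ ((b ^ 20)⁻¹) ^ 2 := by
    rw [inv_pow, ← pow_mul]; linarith
  have hN'' : Module.finrank ℝ E'' ≤ ⌊b ^ 180⌋₊ := by
    refine Nat.le_floor (hdim''.trans ?_)
    rw [div_inv_eq_mul, mul_assoc, ← pow_add]
    exact key_mul hb 179 1 (by norm_num)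
  have hN : Module.finrank ℝ E ≤ ⌊b ^ 180⌋₊ := by
    refine Nat.le_floor (hdim.trans ?_)
    rw [div_inv_eq_mul, mul_assoc, ← pow_add]
    exact (key_mul hb 67 1 (by norm_num)).trans (hmono _ _ (by norm_num))
  obtain ⟨N, hNdef⟩ : ∃ N, N = ⌊b ^ 180⌋₊ := ⟨_, rfl⟩
  have hNb : (N : ℝ) ≤ b ^ 180 := by rw [hNdef]; exact Nat.floor_le (by positivity)
  rw [← hNdef] at hN hN''
  obtain ⟨t, ht⟩ : ∃ t, t = (b ^ 19)⁻¹ := ⟨_, rfl⟩
  have ht0 : 0 < t := by rw [ht]; positivity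
  have htb : t * b ^ 19 = 1 := by rw [ht]; field_simp
  have ht4 : t ≤ 1 / 4 := by
    rw [ht, inv_eq_one_div]
    refine one_div_le_one_div_of_le (by norm_num) ?_
    have := key_c hb 2
    have := hmono 2 19 (by norm_num)
    linarith
  rw [← ht]
  have hmem : ∀ g, aE E g ≤ t → g ∈ U := by
    intro g hg
    by_contra h
    have h1 := escapeQ hY hs hW hφ hE (by positivity) hlo20 h
    have e1 : 1 / (2 * b) = b ^ 19 / 2 * (b ^ 20)⁻¹ := by field_simp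
    have e2 : t = b * (b ^ 20)⁻¹ := by rw [ht]; field_simp
    have e3 : 4 * b ^ 1 ≤ b ^ (1 + 18) := key_mul hb 1 18 (by norm_num)
    have e4 : (0 : ℝ) < (b ^ 20)⁻¹ := by positivity
    have e5 : (b + 2) * (b ^ 20)⁻¹ < b ^ 19 / 2 * (b ^ 20)⁻¹ :=
      mul_lt_mul_of_pos_right (by norm_num at e3; linarith) e4
    rw [e1] at h1
    rw [e2] at hg
    linarith
  have hV : ∀ g, aE E g ≤ t → g ∈ U ∧ Sm Y ω ((b ^ 17)⁻¹) g := by
    intro g hg
    refine ⟨hmem g hg, sm_of_aEQ hY hs (by positivity) hW hφ hE (by positivity) hlo20 ?_⟩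
    have e1 : (b ^ 17)⁻¹ = b ^ 3 * (b ^ 20)⁻¹ := by field_simp
    have e2 : t = b * (b ^ 20)⁻¹ := by rw [ht]; field_simp
    have e3 : b + 4 ≤ b ^ 3 := by nlinarith [mul_nonneg hb0.le (sub_nonneg.2 hb)]
    have e4 : (0 : ℝ) < (b ^ 20)⁻¹ := by positivity
    rw [e1]
    nlinarith
  have hlamT' : ∀ (g : G) (n : ℕ), 1 ≤ n → n ≤ n₀ → Trap (fun x => aE E x ≤ t) g n →
      lam g ≤ b ^ 11 / n := fun g n hn hn' hg =>
    hlamT g n hn hn' fun j h1 h2 => hV _ (hg j h1 h2)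
  have hhi0 : (b ^ 40)⁻¹ / 2 ≤ hi := by linarith
  refine ⟨aE E, hmem, ?_, ?_, ?_⟩
  · intro g n hn hn' hg
    have hn1 : (0 : ℝ) < n := by exact_mod_cast hn
    have hgU : g ∈ U := hmem g (by simpa using hg 1 le_rfl hn)
    have h1 := selftrapQ hE (g := g) (lam := b ^ 11 / n) (t := t) (by positivity)
      (fun f => (commQ hY hs hW hφ hgU f).trans
        (mul_le_mul_of_nonneg_right (hlamT' g n hn hn' hg) (norm_nonneg _))) ht0.le (by linarith) hn hg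
    refine h1.trans ?_
    have e1 : ((b ^ 40)⁻¹) ^ 2 / (6 * b ^ 27) = 1 / (6 * b ^ 107) := by field_simp
    have e2 : b ^ 11 / n / (hi - lo) ≤ 6 * b ^ 118 / n := by
      rw [div_le_iff₀ (by linarith)]
      calc b ^ 11 / n = 6 * b ^ 118 / n * (1 / (6 * b ^ 107)) := by field_simp
        _ ≤ _ := mul_le_mul_of_nonneg_left (by linarith) (by positivity)
    have e3 : 64 * b ^ 118 ≤ b ^ (118 + 6) := key_mul hb 118 6 (by norm_num)
    have e4 := hb1 118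
    calc 4 / (n : ℝ) + 4 * (b ^ 11 / n / (hi - lo)) ≤ 4 / n + 4 * (6 * b ^ 118 / n) := by linarith
      _ = (4 + 24 * b ^ 118) / n := by ring
      _ ≤ b ^ 124 / n := div_le_div_of_nonneg_right (by norm_num at e3; linarith) hn1.le
  · intro r hr0 hr1
    have hn0' : (0 : ℝ) < n₀ := by exact_mod_cast hn₀
    have hr : 0 < r := lt_of_lt_of_le (by positivity) hr0
    have hcov := coverQ hY hs hW hφ hE hE'' (η := (b ^ 76)⁻¹) (κ := b ^ 73 * r) (r := r) (ρ := r / 2)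
      (by positivity) hlo'' hN hN'' hr.le (by positivity) (by positivity) ?_
      (fun g hg => hmem g (by linarith)) (ball U (aE E) r)
      (fun g hg => (mem_ball.1 hg).1) (fun g hg => (mem_ball.1 hg).2) ?_
    · refine hcov.trans (mul_le_mul_of_nonneg_right (num3Q hb hNb (by positivity) ?_)
        (Nat.cast_nonneg _))
      have e : 4 * r * N / (r / 2) = 8 * N := by field_simp; ring
      rw [e]
      have := mul_le_mul_of_nonneg_left (hb1 19) (show (0 : ℝ) ≤ 8 * N by positivity)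
      linarith
    · have e1 : 8 * b ^ 73 ≤ b ^ (73 + 3) := key_mul hb 73 3 (by norm_num)
      have e2 : 4 * (b ^ 76)⁻¹ * (b ^ 73 * r) = (8 * b ^ 73 / b ^ 76) * (r / 2) := by
        field_simp; ring
      rw [e2]
      refine mul_le_of_le_one_left (by positivity) ?_
      rw [div_le_one (by positivity)]
      exact e1
    · intro g hg
      have hga := (mem_ball.1 hg).2
      have hx1 : 1 ≤ t / r := by rw [le_div_iff₀ hr]; linarith
      have hn1 : 1 ≤ ⌊t / r⌋₊ := Nat.le_floor (by exact_mod_cast hx1)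
      have hn2 : ⌊t / r⌋₊ ≤ n₀ := by
        refine Nat.floor_le_of_le ?_
        rw [div_le_iff₀ hr]
        rw [div_le_iff₀ hn0'] at hr0
        linarith
      have hfl : (⌊t / r⌋₊ : ℝ) ≤ t / r := Nat.floor_le (by positivity)
      have hfl2 : t / r < ⌊t / r⌋₊ + 1 := Nat.lt_floor_add_one _
      have hn1' : (1 : ℝ) ≤ ⌊t / r⌋₊ := by exact_mod_cast hn1
      have h1 := hlamT' g _ hn1 hn2 (fun j _ hj => by
        have hj' : (j : ℝ) ≤ t / r := le_trans (by exact_mod_cast hj) hfl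
        calc aE E (g ^ j) ≤ j * aE E g := key_pow _ _ _
          _ ≤ t / r * r := mul_le_mul hj' hga (apply_nonneg _ _) (by positivity)
          _ = t := by field_simp)
      have h3' : b ^ 11 / (⌊t / r⌋₊ : ℝ) ≤ 2 * b ^ 30 * r := by
        rw [div_le_iff₀ (by linarith)]
        have e1 : t / r ≤ 2 * (⌊t / r⌋₊ : ℝ) := by linarith
        rw [div_le_iff₀ hr] at e1
        calc b ^ 11 = b ^ 30 * t := by rw [ht]; field_simp
          _ ≤ b ^ 30 * (2 * (⌊t / r⌋₊ : ℝ) * r) := mul_le_mul_of_nonneg_left e1 (by positivity)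
          _ = _ := by ring
      have h4 : b ^ 8 * aE E g ≤ b ^ 30 * r :=
        mul_le_mul (hmono _ _ (by norm_num)) hga (apply_nonneg _ _) (by positivity)
      have e1 : 8 * b ^ 30 ≤ b ^ 33 := key_mul hb 30 3 (by norm_num)
      have e2 : b ^ 73 * r * ((b ^ 40)⁻¹ / 2) = b ^ 33 / 2 * r := by field_simp
      have e3 : b ^ 73 * r * ((b ^ 40)⁻¹ / 2) ≤ b ^ 73 * r * hi :=
        mul_le_mul_of_nonneg_left hhi0 (by positivity)
      have e4 : 4 * b ^ 30 * r ≤ b ^ 33 / 2 * r :=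
        mul_le_mul_of_nonneg_right (by linarith only [e1]) hr.le
      have e5 : 0 < b ^ 30 * r := by positivity
      linarith only [e2, e3, e4, e5, h4, h3', h1]
  · have hcov := coverQ hY hs hW hφ hE hE'' (η := (b ^ 76)⁻¹) (κ := b ^ 53) (r := 2) (ρ := t)
      (by positivity) hlo'' hN hN'' (by norm_num) ht0 (by positivity) ?_
      hmem U (fun g hg => hg) (fun g _ => aE_le_two E g) ?_
    · refine hcov.trans (mul_le_mul_of_nonneg_right (num3Q hb hNb (by positivity) ?_)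
        (Nat.cast_nonneg _))
      have e : 4 * 2 * (N : ℝ) / t = 8 * N * b ^ 19 := by rw [ht]; field_simp; ring
      rw [e]
    · have e1 : 4 * b ^ 72 ≤ b ^ (72 + 4) := key_mul hb 72 4 (by norm_num)
      have e2 : 4 * (b ^ 76)⁻¹ * b ^ 53 = (4 * b ^ 72 / b ^ 76) * t := by
        rw [ht]; field_simp
      rw [e2]
      refine mul_le_of_le_one_left ht0.le ?_
      rw [div_le_one (by positivity)]
      exact e1
    · intro g _
      have h1 := hlam1 g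
      have h4 : b ^ 8 * aE E g ≤ b ^ 8 * 2 :=
        mul_le_mul_of_nonneg_left (aE_le_two E g) (by positivity)
      have e0 : 2 * b ^ 8 ≤ b ^ 11 := key_mul hb 8 3 (by norm_num)
      have e1 : 4 * b ^ 11 ≤ b ^ 13 := key_mul hb 11 2 (by norm_num)
      have e2 : b ^ 53 * ((b ^ 40)⁻¹ / 2) = b ^ 13 / 2 := by field_simp
      have e3 : b ^ 53 * ((b ^ 40)⁻¹ / 2) ≤ b ^ 53 * hi :=
        mul_le_mul_of_nonneg_left hhi0 (by positivity)
      linarith only [e0, e1, e2, e3, h1, h4]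

end

end Pool.Agent.MP_34e614_co.H31
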