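import Pool.Agent.MP_34e614_co.H31.PartA

set_option autoImplicit false

open scoped Pointwise InnerProductSpace

namespace Pool.Agent.MP_34e614_co.H31

section

variable {G : Type*} [Group G] [DecidableEq G]

omit [DecidableEq G] in
theorem NSS.iter {U : Finset G} {a : GroupSeminorm G} {t Λ P : ℝ} {n₀ : ℕ}
    (h : NSS U a t Λ P n₀) (ht : 0 < t) (hP : 0 ≤ P) (m : ℕ) (hm : 2 ^ m ≤ 2 * n₀) :
    (U.card : ℝ) ≤ P ^ (m + 1) * (ball U a (t / 2 ^ m)).card := by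
  induction m with
  | zero => simpa using h.top
  | succ m ih =>
    have h1 : 2 ^ m ≤ n₀ := by rw [pow_succ] at hm; omega
    have h2 : 2 ^ m ≤ 2 * n₀ := by omega
    have h3 : ((2 : ℝ)) ^ m ≤ n₀ := by exact_mod_cast h1
    have hp : (0 : ℝ) < 2 ^ m := by positivity
    have h4 : t / n₀ ≤ t / 2 ^ m := div_le_div_of_nonneg_left ht.le hp h3
    have h5 : t / 2 ^ m ≤ t := div_le_self ht.le (one_le_pow₀ (by norm_num))
    have h6 := h.dbl _ h4 h5
    have h7 : t / 2 ^ m / 2 = t / 2 ^ (m + 1) := by rw [pow_succ, div_div]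
    rw [h7] at h6
    calc (U.card : ℝ) ≤ P ^ (m + 1) * (ball U a (t / 2 ^ m)).card := ih h2
      _ ≤ P ^ (m + 1) * (P * (ball U a (t / 2 ^ (m + 1))).card) :=
          mul_le_mul_of_nonneg_left h6 (pow_nonneg hP _)
      _ = P ^ (m + 1 + 1) * (ball U a (t / 2 ^ (m + 1))).card := by ring

omit [DecidableEq G] in
theorem sub_pow_le (a : GroupSeminorm G) (g : G) (j : ℕ) : a (g ^ j) ≤ j * a g := by
  induction j with
  | zero => simp
  | succ j ih =>
    rw [pow_succ]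
    have := map_mul_le_add a (g ^ j) g
    push_cast
    linarith

omit [DecidableEq G] in
theorem NSS.conj {U : Finset G} {a : GroupSeminorm G} {t Λ P : ℝ} {n₀ : ℕ}
    (h : NSS U a t Λ P n₀) (ht : 0 < t) (hΛ : 0 ≤ Λ) {y g : G} {s : ℝ} (hs0 : 0 < s)
    (hs1 : s ≤ t / 2) (hs2 : t ≤ 2 * s * n₀) (hy : a y ≤ t / 4) (hg : a g ≤ s) :
    a (y * g * y⁻¹) ≤ 4 * Λ * s / t := by
  have h2s : 0 < 2 * s := by positivity
  have hq1 : 1 ≤ t / (2 * s) := by rw [le_div_iff₀ h2s]; linarith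
  have hq0 : 0 ≤ t / (2 * s) := by linarith
  set n := ⌊t / (2 * s)⌋₊ with hn
  have hn1 : 1 ≤ n := Nat.le_floor (by simpa using hq1)
  have hnle : (n : ℝ) ≤ t / (2 * s) := Nat.floor_le hq0
  have hnlt : t / (2 * s) < n + 1 := Nat.lt_floor_add_one _
  have hn1' : (1 : ℝ) ≤ n := by exact_mod_cast hn1
  have hn0 : n ≤ n₀ := by
    have : (n : ℝ) ≤ n₀ := hnle.trans (by rw [div_le_iff₀ h2s]; linarith)
    exact_mod_cast this
  have hns : (n : ℝ) * s ≤ t / 2 := by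
    rw [le_div_iff₀ h2s] at hnle; linarith
  have htrap : Trap (fun x => a x ≤ t) (y * g * y⁻¹) n := by
    intro j _ hj
    show a ((y * g * y⁻¹) ^ j) ≤ t
    rw [conj_pow]
    have e1 := map_mul_le_add a (y * g ^ j) y⁻¹
    have e2 := map_mul_le_add a y (g ^ j)
    have e3 := sub_pow_le a g j
    have e4 : a y⁻¹ = a y := map_inv_eq_map a y
    have e5 : (j : ℝ) ≤ n := by exact_mod_cast hj
    have e6 : (j : ℝ) * a g ≤ n * s :=
      mul_le_mul e5 hg (apply_nonneg a g) (by linarith)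
    linarith
  have key := h.trap _ n hn1 hn0 htrap
  refine key.trans ?_
  rw [div_le_div_iff₀ (by linarith) ht]
  rw [div_lt_iff₀ h2s] at hnlt
  have : t ≤ 4 * s * n := by nlinarith
  nlinarith

theorem NSS.sub {U : Finset G} {a : GroupSeminorm G} {t Λ P : ℝ} {n₀ : ℕ}
    (h : NSS U a t Λ P n₀) (ht : 0 < t) (hΛ : 0 < Λ) {n : ℕ} (hn : 1 ≤ n)
    (hc : ∀ (g : G) (T : Finset G), T ⊆ U → (∀ x ∈ T, x ∈ Subgroup.zpowers g) → T.card ≤ n)
    (hn₀ : 2 * Λ * n ≤ t * n₀) :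
    ∃ H : Subgroup G, (∀ g, g ∈ H ↔ a g ≤ t / n) ∧ (∀ g ∈ H, a g ≤ Λ / n₀) ∧
      ∀ g, (∀ j : ℕ, a (g ^ j) ≤ t) → g ∈ H := by
  have hn' : (1 : ℝ) ≤ n := by exact_mod_cast hn
  have hnp : (0 : ℝ) < n := by linarith
  have hn0p : (0 : ℝ) < n₀ := by
    have : 0 < t * n₀ := lt_of_lt_of_le (by positivity) hn₀
    exact (mul_pos_iff_of_pos_left ht).1 this
  have hn01 : 1 ≤ n₀ := by exact_mod_cast hn0p
  have hA : ∀ g, (∀ j : ℕ, a (g ^ j) ≤ t) → a g ≤ Λ / n₀ := fun g hg =>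
    h.trap g n₀ hn01 le_rfl fun j _ _ => hg j
  have h2 : 2 * (Λ / n₀) ≤ t / n := by
    rw [← mul_div_assoc, div_le_div_iff₀ hn0p hnp]; exact hn₀
  have h0 : 0 ≤ Λ / n₀ := by positivity
  have hB : ∀ g, a g ≤ t / n → ∀ j : ℕ, a (g ^ j) ≤ t := by
    intro g hg
    have hsmall : ∀ j : ℕ, j ≤ n → a (g ^ j) ≤ t := by
      intro j hj
      have e5 : (j : ℝ) ≤ n := by exact_mod_cast hj
      calc a (g ^ j) ≤ j * a g := sub_pow_le a g j
        _ ≤ n * (t / n) := mul_le_mul e5 hg (apply_nonneg a g) hnp.le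
        _ = t := by field_simp
    have hcard : ((Finset.range (n + 1)).image fun j => g ^ j).card ≤ n := by
      refine hc g _ ?_ ?_
      · intro x hx
        obtain ⟨j, hj, rfl⟩ := Finset.mem_image.1 hx
        exact h.mem _ (hsmall j (Nat.lt_succ_iff.1 (Finset.mem_range.1 hj)))
      · intro x hx
        obtain ⟨j, _, rfl⟩ := Finset.mem_image.1 hx
        exact Subgroup.npow_mem_zpowers g j
    obtain ⟨i, hi, j, hj, hij, he⟩ := Finset.exists_ne_map_eq_of_card_image_lt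
      (s := Finset.range (n + 1)) (f := fun j => g ^ j) (by rw [Finset.card_range]; omega)
    have hm : ∃ m, 1 ≤ m ∧ m ≤ n ∧ g ^ m = 1 := by
      have hi' := Finset.mem_range.1 hi
      have hj' := Finset.mem_range.1 hj
      rcases lt_or_gt_of_ne hij with hl | hl
      · refine ⟨j - i, by omega, by omega, ?_⟩
        have : g ^ i * g ^ (j - i) = g ^ i * 1 := by
          rw [← pow_add, Nat.add_sub_cancel' hl.le, mul_one]; exact he.symm
        exact mul_left_cancel this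
      · refine ⟨i - j, by omega, by omega, ?_⟩
        have : g ^ j * g ^ (i - j) = g ^ j * 1 := by
          rw [← pow_add, Nat.add_sub_cancel' hl.le, mul_one]; exact he
        exact mul_left_cancel this
    obtain ⟨m, hm1, hmn, hgm⟩ := hm
    intro k
    rw [pow_eq_pow_mod k hgm]
    exact hsmall _ ((Nat.mod_lt k (by omega)).le.trans hmn)
  refine ⟨{ carrier := {g | ∀ j : ℕ, a (g ^ j) ≤ t}
            mul_mem' := ?_
            one_mem' := ?_
            inv_mem' := ?_ }, ?_, ?_, ?_⟩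
  · intro x y hx hy
    refine hB _ ?_
    have := map_mul_le_add a x y
    have := hA x hx
    have := hA y hy
    linarith
  · intro j
    simpa using ht.le
  · intro x hx
    refine hB _ ?_
    have := hA x hx
    rw [map_inv_eq_map]
    linarith
  · intro g
    refine ⟨fun hg => ?_, fun hg => hB g hg⟩
    have := hA g hg
    linarith
  · intro g hg
    exact hA g hg
  · intro g hg
    exact hg

end

section

variable {G : Type*} [Group G] [DecidableEq G]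

/-- The bump function. -/
noncomputable def commPsi (a : GroupSeminorm G) (r : ℝ) (x : G) : ℝ := max (1 - a x / r) 0

omit [DecidableEq G] in
theorem comm_nonneg (a : GroupSeminorm G) (r : ℝ) (x : G) : 0 ≤ commPsi a r x := le_max_right _ _

omit [DecidableEq G] in
theorem comm_lip (a : GroupSeminorm G) {r : ℝ} (hr : 0 < r) (w c : G) :
    |commPsi a r (w * c) - commPsi a r w| ≤ a c / r := by
  refine (abs_max_sub_max_le_abs _ _ _).trans ?_
  have h1 := map_mul_le_add a w c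
  have h2 := map_mul_le_add a (w * c) c⁻¹
  rw [mul_inv_cancel_right, map_inv_eq_map] at h2
  have e : 1 - a (w * c) / r - (1 - a w / r) = (a w - a (w * c)) / r := by ring
  rw [e, abs_div, abs_of_pos hr]
  exact div_le_div_of_nonneg_right (abs_le.2 ⟨by linarith, by linarith⟩) hr.le

omit [DecidableEq G] in
theorem comm_lt (a : GroupSeminorm G) {r : ℝ} (hr : 0 < r) {x : G} (h : commPsi a r x ≠ 0) :
    a x < r := by
  by_contra hx
  have : 1 ≤ a x / r := (one_le_div hr).2 (not_lt.1 hx)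
  exact h (max_eq_right (by linarith))

/-- The convolution square of the bump function. -/
noncomputable def commPhi (a : GroupSeminorm G) (r : ℝ) (B : Finset G) (x : G) : ℝ :=
  ∑ z ∈ B, commPsi a r (x * z⁻¹) * commPsi a r z

omit [DecidableEq G] in
theorem comm_shift (a : GroupSeminorm G) {r : ℝ} (hr : 0 < r) {B : Finset G}
    (hB : ∀ y, a y ≤ 2 * r → y ∈ B) (x : G) {h : G} (hh : a h ≤ r) :
    commPhi a r B (x * h) = ∑ y ∈ B, commPsi a r (x * y⁻¹) * commPsi a r (y * h) := by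
  symm
  refine Finset.sum_bij_ne_zero (fun y _ _ => y * h) ?_ ?_ ?_ ?_
  · intro y _ h2
    have := comm_lt a hr (right_ne_zero_of_mul h2)
    exact hB _ (by linarith)
  · intro y _ _ y' _ _ e
    exact mul_right_cancel e
  · intro z _ h2
    have h3 := comm_lt a hr (right_ne_zero_of_mul h2)
    have h4 := map_mul_le_add a z h⁻¹
    rw [map_inv_eq_map] at h4
    refine ⟨z * h⁻¹, hB _ (by linarith), ?_, by simp⟩
    simpa [mul_assoc] using h2
  · intro y _ _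
    simp [mul_assoc]

omit [DecidableEq G] in
theorem comm_second (a : GroupSeminorm G) {r : ℝ} (hr : 0 < r) {B : Finset G}
    (hB : ∀ y, a y ≤ 2 * r → y ∈ B) (x g : G) {h : G} (hh : a h ≤ r) {u v : ℝ} (hv : a h ≤ v)
    (hu : ∀ y ∈ B, a (y * g * y⁻¹) ≤ u) :
    |commPhi a r B (x * g * h) - commPhi a r B (x * g) - commPhi a r B (x * h) + commPhi a r B x| ≤
      B.card * (u / r * (v / r)) := by
  rw [comm_shift a hr hB (x * g) hh, comm_shift a hr hB x hh]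
  unfold commPhi
  rw [← Finset.sum_sub_distrib, ← Finset.sum_sub_distrib, ← Finset.sum_add_distrib,
    ← nsmul_eq_mul, ← Finset.sum_const]
  refine (Finset.abs_sum_le_sum_abs _ _).trans (Finset.sum_le_sum fun y hy => ?_)
  have e : x * g * y⁻¹ = x * y⁻¹ * (y * g * y⁻¹) := by group
  have h1 := comm_lip a hr (x * y⁻¹) (y * g * y⁻¹)
  have h2 := comm_lip a hr y h
  rw [← e] at h1
  have e2 : commPsi a r (x * g * y⁻¹) * commPsi a r (y * h) -
      commPsi a r (x * g * y⁻¹) * commPsi a r y - commPsi a r (x * y⁻¹) * commPsi a r (y * h) +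
      commPsi a r (x * y⁻¹) * commPsi a r y =
      (commPsi a r (x * g * y⁻¹) - commPsi a r (x * y⁻¹)) *
        (commPsi a r (y * h) - commPsi a r y) := by ring
  rw [e2, abs_mul]
  have h3 := h1.trans (div_le_div_of_nonneg_right (hu y hy) hr.le)
  exact mul_le_mul h3 (h2.trans (div_le_div_of_nonneg_right hv hr.le)) (abs_nonneg _)
    ((abs_nonneg _).trans h3)

theorem NSS.comm {U : Finset G} {a : GroupSeminorm G} {t Λ P : ℝ} {n₀ : ℕ}
    (h : NSS U a t Λ P n₀) (ht : 0 < t) (ht1 : t ≤ 1) (hΛ : 1 ≤ Λ) (hP : 1 ≤ P) {ρ s : ℝ}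
    (hρ : 16384 * Λ ^ 2 * P ^ 2 * ρ ≤ t ^ 3) (hs0 : 0 < s) (hs1 : s ≤ ρ) (hs2 : 2 * Λ ≤ s * n₀)
    {y g : G} (hy : a y ≤ ρ) (hg : a g ≤ s) : a (y * g * y⁻¹ * g⁻¹) ≤ s / 2 := by
  have hρ0 : 0 < ρ := hs0.trans_le hs1
  have hLP : 1 ≤ Λ ^ 2 * P ^ 2 := one_le_mul_of_one_le_of_one_le (one_le_pow₀ hΛ) (one_le_pow₀ hP)
  have ht3 : t ^ 3 ≤ t := by
    have : t ^ 2 ≤ 1 := pow_le_one₀ ht.le ht1
    nlinarith
  have hρt : 16384 * ρ ≤ t := by nlinarith
  have hn0 : (0 : ℝ) ≤ n₀ := Nat.cast_nonneg _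
  have hρn : s * n₀ ≤ ρ * n₀ := mul_le_mul_of_nonneg_right hs1 hn0
  have hn8 : (8 : ℝ) ≤ n₀ := by nlinarith
  have hr : 0 < t / 8 := by positivity
  set B := ball U a (t / 4) with hBd
  have hB : ∀ z, a z ≤ 2 * (t / 8) → z ∈ B := fun z hz =>
    mem_ball.2 ⟨h.mem z (by linarith), by linarith⟩
  have hB' : ∀ z ∈ B, a z ≤ t / 4 := fun z hz => (mem_ball.1 hz).2
  set c := y * g * y⁻¹ * g⁻¹ with hc
  set e : ℝ := B.card * (256 * Λ * ρ * s / t ^ 3) with he
  have hyi : a y⁻¹ ≤ ρ := by rwa [map_inv_eq_map]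
  have hgi : a g⁻¹ ≤ s := by rwa [map_inv_eq_map]
  have step : ∀ w, commPhi a (t / 8) B w - 2 * e ≤ commPhi a (t / 8) B (w * c) := by
    intro w
    have h1 := comm_second a hr hB (w * y * g) y⁻¹ (h := g⁻¹) (by linarith) hgi
      fun z hz => h.conj ht (by linarith) hρ0 (by linarith) (by linarith) (hB' z hz) hyi
    have h2 := comm_second a hr hB (w * y * g) g⁻¹ (h := y⁻¹) (by linarith) hyi
      fun z hz => h.conj ht (by linarith) hs0 (by linarith) (by linarith) (hB' z hz) hgi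
    have e1 : w * y * g * y⁻¹ * g⁻¹ = w * c := by rw [hc]; group
    have e2 : w * y * g * g⁻¹ * y⁻¹ = w := by group
    have e3 : 4 * Λ * ρ / t / (t / 8) * (s / (t / 8)) = 256 * Λ * ρ * s / t ^ 3 := by
      field_simp; ring
    have e4 : 4 * Λ * s / t / (t / 8) * (ρ / (t / 8)) = 256 * Λ * ρ * s / t ^ 3 := by
      field_simp; ring
    rw [e1, e3, ← he] at h1
    rw [e2, e4, ← he] at h2
    have h3 := abs_le.1 h1
    have h4 := abs_le.1 h2
    linarith [h3.1, h4.2]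
  have iter : ∀ j : ℕ, commPhi a (t / 8) B 1 - j * (2 * e) ≤ commPhi a (t / 8) B (c ^ j) := by
    intro j
    induction j with
    | zero => simp
    | succ j ih =>
      have := step (c ^ j)
      rw [← pow_succ] at this
      push_cast
      linarith
  have htn : t / n₀ ≤ t / 8 := div_le_div_of_nonneg_left ht.le (by norm_num) hn8
  have d1 := h.dbl (t / 4) (by linarith) (by linarith)
  have d2 := h.dbl (t / 4 / 2) (by linarith) (by linarith)
  have hone : ((ball U a (t / 4 / 2 / 2)).card : ℝ) * (1 / 4) ≤ commPhi a (t / 8) B 1 := by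
    have half : ∀ z, a z ≤ t / 4 / 2 / 2 → 1 / 2 ≤ commPsi a (t / 8) z := by
      intro z hz
      refine le_trans ?_ (le_max_left _ _)
      have : a z / (t / 8) ≤ 1 / 2 := (div_le_iff₀ hr).2 (by linarith)
      linarith
    rw [← nsmul_eq_mul, ← Finset.sum_const]
    refine le_trans (Finset.sum_le_sum fun z hz => ?_)
      (Finset.sum_le_sum_of_subset_of_nonneg (s := ball U a (t / 4 / 2 / 2))
        (fun z hz => hB z (by linarith [(mem_ball.1 hz).2]))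
        fun z _ _ => mul_nonneg (comm_nonneg _ _ _) (comm_nonneg _ _ _))
    have h1 := half z (mem_ball.1 hz).2
    have h2 := half (1 * z⁻¹) (by rw [one_mul, map_inv_eq_map]; exact (mem_ball.1 hz).2)
    nlinarith
  have hBpos : (0 : ℝ) < B.card := by
    exact_mod_cast Finset.card_pos.2 ⟨1, hB 1 (by rw [map_one_eq_zero]; positivity)⟩
  have hP0 : 0 < P := by linarith
  have hBP : (B.card : ℝ) ≤ P ^ 2 * (4 * commPhi a (t / 8) B 1) := by
    calc (B.card : ℝ) ≤ P * (P * (ball U a (t / 4 / 2 / 2)).card) :=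
          d1.trans (mul_le_mul_of_nonneg_left d2 hP0.le)
      _ ≤ _ := by nlinarith [mul_le_mul_of_nonneg_left hone (sq_nonneg P)]
  have hq : 1 ≤ 2 * Λ / s := (one_le_div hs0).2 (by linarith)
  set n := ⌈2 * Λ / s⌉₊ with hn
  have hn1 : 2 * Λ / s ≤ n := Nat.le_ceil _
  have hn2 : (n : ℝ) ≤ 2 * (2 * Λ / s) := by
    have := Nat.ceil_lt_add_one (show 0 ≤ 2 * Λ / s by linarith)
    linarith
  have hn3 : n ≤ n₀ := Nat.ceil_le.2 ((div_le_iff₀ hs0).2 (by linarith))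
  have hnp : (0 : ℝ) < n := by linarith
  have he0 : 0 ≤ e := by positivity
  have hne : P ^ 2 * (8 * (n * (2 * e))) ≤ B.card := by
    have h1 : n * (2 * e) ≤ 2 * (2 * Λ / s) * (2 * e) :=
      mul_le_mul_of_nonneg_right hn2 (by positivity)
    have h2 : P ^ 2 * (8 * (2 * (2 * Λ / s) * (2 * e))) =
        B.card * (16384 * Λ ^ 2 * P ^ 2 * ρ / t ^ 3) := by
      rw [he]; field_simp; ring
    have h3 : 16384 * Λ ^ 2 * P ^ 2 * ρ / t ^ 3 ≤ 1 := (div_le_one (by positivity)).2 hρ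
    nlinarith [mul_le_mul_of_nonneg_left h1 (sq_nonneg P), mul_le_mul_of_nonneg_left h3 hBpos.le]
  have htrap := h.trap c n (by exact_mod_cast hq.trans hn1) hn3 fun j _ hj => by
    have hj' : (j : ℝ) * (2 * e) ≤ n * (2 * e) :=
      mul_le_mul_of_nonneg_right (by exact_mod_cast hj) (by positivity)
    have hpos : commPhi a (t / 8) B (c ^ j) ≠ 0 := by
      intro h0
      have h1 := iter j
      rw [h0] at h1
      have h2 : commPhi a (t / 8) B 1 ≤ n * (2 * e) := by linarith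
      nlinarith [mul_le_mul_of_nonneg_left h2 (sq_nonneg P)]
    obtain ⟨z, _, hz⟩ := Finset.exists_ne_zero_of_sum_ne_zero hpos
    have h1 := comm_lt a hr (left_ne_zero_of_mul hz)
    have h2 := comm_lt a hr (right_ne_zero_of_mul hz)
    have h3 := map_mul_le_add a (c ^ j * z⁻¹) z
    rw [inv_mul_cancel_right] at h3
    change a (c ^ j) ≤ t
    linarith
  refine htrap.trans ((div_le_iff₀ hnp).2 ?_)
  have := (div_le_iff₀ hs0).1 hn1
  linarith

end

section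

variable {G : Type*} [Group G] [DecidableEq G]

omit [DecidableEq G] in
theorem nilpotent_of_filtration (S : Set G) (H : Subgroup G)
    [(H.subgroupOf (Subgroup.closure S)).Normal] (F : ℕ → Set G) (k : ℕ)
    (h0 : ∀ g ∈ F 0, g ∈ H) (hstep : ∀ i, ∀ g ∈ F (i + 1), ∀ y ∈ S, g * y * g⁻¹ * y⁻¹ ∈ F i)
    (hk : S ⊆ F k) :
    Group.IsNilpotent (Subgroup.closure S ⧸ H.subgroupOf (Subgroup.closure S)) := by
  have key : ∀ (Z : Subgroup (Subgroup.closure S ⧸ H.subgroupOf (Subgroup.closure S))) [Z.Normal]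
      (q : Subgroup.closure S ⧸ H.subgroupOf (Subgroup.closure S)),
      (∀ (y : G) (hy : y ∈ S), q * QuotientGroup.mk ⟨y, Subgroup.subset_closure hy⟩ * q⁻¹ *
        (QuotientGroup.mk ⟨y, Subgroup.subset_closure hy⟩)⁻¹ ∈ Z) →
      ∀ x, q * x * q⁻¹ * x⁻¹ ∈ Z := by
    intro Z hZ q hq x
    obtain ⟨⟨x, hx⟩, rfl⟩ := QuotientGroup.mk_surjective x
    induction hx using Subgroup.closure_induction with
    | mem y hy => exact hq y hy
    | one =>
      have h1 : (⟨1, Subgroup.one_mem _⟩ : Subgroup.closure S) = 1 := rfl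
      rw [h1, QuotientGroup.mk_one]
      simp
    | mul y z hy hz ihy ihz =>
      have h1 : (⟨y * z, Subgroup.mul_mem _ hy hz⟩ : Subgroup.closure S) = ⟨y, hy⟩ * ⟨z, hz⟩ := rfl
      rw [h1, QuotientGroup.mk_mul]
      have h2 := Z.mul_mem ihy (hZ.conj_mem _ ihz (QuotientGroup.mk ⟨y, hy⟩))
      refine (congrArg (· ∈ Z) ?_).mp h2
      group
    | inv y hy ih =>
      have h1 : (⟨y⁻¹, Subgroup.inv_mem _ hy⟩ : Subgroup.closure S) = ⟨y, hy⟩⁻¹ := rfl
      rw [h1, QuotientGroup.mk_inv]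
      have h2 := hZ.conj_mem _ (Z.inv_mem ih) (QuotientGroup.mk ⟨y, hy⟩)⁻¹
      refine (congrArg (· ∈ Z) ?_).mp h2
      group
  have main : ∀ i, ∀ g : Subgroup.closure S, (g : G) ∈ F i →
      (QuotientGroup.mk g : Subgroup.closure S ⧸ H.subgroupOf (Subgroup.closure S)) ∈
        Subgroup.upperCentralSeries _ i := by
    intro i
    induction i with
    | zero =>
      intro g hg
      rw [Subgroup.upperCentralSeries_zero, Subgroup.mem_bot, QuotientGroup.eq_one_iff]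
      exact Subgroup.mem_subgroupOf.2 (h0 _ hg)
    | succ i ih =>
      intro g hg
      rw [Subgroup.mem_upperCentralSeries_succ_iff]
      intro x
      rw [commutatorElement_def]
      refine key _ _ (fun y hy => ?_) x
      have h1 := ih (g * ⟨y, Subgroup.subset_closure hy⟩ * g⁻¹ *
        (⟨y, Subgroup.subset_closure hy⟩ : Subgroup.closure S)⁻¹) (hstep i _ hg y hy)
      simpa only [QuotientGroup.mk_mul, QuotientGroup.mk_inv] using h1
  refine ⟨⟨k, eq_top_iff.2 fun x _ => ?_⟩⟩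
  obtain ⟨⟨x, hx⟩, rfl⟩ := QuotientGroup.mk_surjective x
  induction hx using Subgroup.closure_induction with
  | mem y hy => exact main k _ (hk hy)
  | one => exact Subgroup.one_mem _
  | mul y z hy hz ihy ihz =>
    exact Subgroup.mul_mem _ (ihy (Subgroup.mem_top _)) (ihz (Subgroup.mem_top _))
  | inv y hy ih => exact Subgroup.inv_mem _ (ih (Subgroup.mem_top _))

theorem NSS.structure {U : Finset G} {a : GroupSeminorm G} {t Λ P : ℝ} {n₀ : ℕ}
    (h : NSS U a t Λ P n₀) (ht : 0 < t) (ht1 : t ≤ 1) (hΛ : 1 ≤ Λ) (hP : 1 ≤ P) {ρ : ℝ}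
    (hρ0 : 0 < ρ) (hρ : 16384 * Λ ^ 2 * P ^ 2 * ρ ≤ t ^ 3) {n : ℕ} (hn : 1 ≤ n)
    (hc : ∀ (g : G) (T : Finset G), T ⊆ U → (∀ x ∈ T, x ∈ Subgroup.zpowers g) → T.card ≤ n)
    (hn₀ : 2 * Λ * n ≤ t * n₀) (hn₁ : 2 * Λ ≤ ρ * n₀) :
    ∃ H Γ : Subgroup G, (∀ g, g ∈ H ↔ a g ≤ t / n) ∧ (∀ g, a g ≤ ρ → g ∈ Γ) ∧
      Γ = Subgroup.closure {g | a g ≤ ρ} ∧ H ≤ Γ ∧
      ∃ _ : (H.subgroupOf Γ).Normal, Group.IsNilpotent (Γ ⧸ H.subgroupOf Γ) := by
  obtain ⟨H, hH1, hH2, hH3⟩ := h.sub ht (by linarith) hn hc hn₀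
  have hnR : (1 : ℝ) ≤ n := by exact_mod_cast hn
  have hn0 : (0 : ℝ) < n₀ := by
    by_contra h1
    have h2 : (n₀ : ℝ) = 0 := le_antisymm (not_lt.1 h1) (Nat.cast_nonneg _)
    rw [h2, mul_zero] at hn₁
    linarith
  have hΛρ : Λ / n₀ ≤ ρ / 2 := by
    rw [div_le_iff₀ hn0]; linarith
  have hρt : 16384 * ρ ≤ t := by
    have h1 : (1 : ℝ) ≤ Λ ^ 2 * P ^ 2 :=
      one_le_mul_of_one_le_of_one_le (one_le_pow₀ hΛ) (one_le_pow₀ hP)
    have h2 : t ^ 3 ≤ t := by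
      have h3 : t ^ 2 ≤ 1 := pow_le_one₀ ht.le ht1
      nlinarith
    nlinarith
  have hconj : ∀ y, a y ≤ ρ → ∀ x ∈ H, y * x * y⁻¹ ∈ H := by
    intro y hy x hx
    refine hH3 _ fun j => ?_
    rw [conj_pow]
    have h1 := map_mul_le_add a (y * x ^ j) y⁻¹
    have h2 := map_mul_le_add a y (x ^ j)
    have h3 := map_inv_eq_map a y
    have h4 := hH2 _ (H.pow_mem hx j)
    linarith
  have hle : H ≤ Subgroup.closure {g | a g ≤ ρ} := fun g hg =>
    Subgroup.subset_closure (show a g ≤ ρ by linarith [hH2 g hg])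
  have hnorm : Subgroup.closure {g | a g ≤ ρ} ≤ Subgroup.normalizer H := by
    rw [Subgroup.closure_le]
    intro y hy
    have hy' : a y ≤ ρ := hy
    refine Subgroup.mem_normalizer_iff.2 fun x => ⟨hconj y hy' x, fun hx => ?_⟩
    have h1 := hconj y⁻¹ (by rw [map_inv_eq_map]; exact hy') _ hx
    refine (congrArg (· ∈ H) ?_).mp h1
    group
  have hN : (H.subgroupOf (Subgroup.closure {g | a g ≤ ρ})).Normal :=
    (Subgroup.normal_subgroupOf_iff_le_normalizer hle).2 hnorm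
  refine ⟨H, Subgroup.closure {g | a g ≤ ρ}, hH1, fun g hg => Subgroup.subset_closure hg, rfl,
    hle, hN, ?_⟩
  have htn : 0 < t / n := by positivity
  obtain ⟨k, hk⟩ := pow_unbounded_of_one_lt (ρ / (t / n)) (one_lt_two (α := ℝ))
  refine nilpotent_of_filtration _ H (fun i => {g | a g ≤ min (2 ^ i * (t / n)) ρ}) k ?_ ?_ ?_
  · intro g hg
    have hg' : a g ≤ min (2 ^ 0 * (t / n)) ρ := hg
    rw [pow_zero, one_mul] at hg'
    exact (hH1 g).2 (hg'.trans (min_le_left _ _))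
  · intro i g hg y hy
    have hg' : a g ≤ min (2 ^ (i + 1) * (t / n)) ρ := hg
    have hy' : a y ≤ ρ := hy
    have h2i : (1 : ℝ) ≤ 2 ^ (i + 1) := one_le_pow₀ one_le_two
    have hs2 : 2 * Λ ≤ min (2 ^ (i + 1) * (t / n)) ρ * n₀ := by
      rw [min_mul_of_nonneg _ _ hn0.le]
      refine le_min ?_ hn₁
      have h1 : 2 * Λ ≤ t / n * n₀ := by
        rw [div_mul_eq_mul_div, le_div_iff₀ (by linarith)]; exact hn₀
      have h2 : t / n * n₀ ≤ 2 ^ (i + 1) * (t / n) * n₀ :=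
        mul_le_mul_of_nonneg_right (le_mul_of_one_le_left htn.le h2i) hn0.le
      linarith
    have h1 := h.comm ht ht1 hΛ hP hρ (lt_min (by positivity) hρ0) (min_le_right _ _) hs2 hy' hg'
    have h2 : g * y * g⁻¹ * y⁻¹ = (y * g * y⁻¹ * g⁻¹)⁻¹ := by group
    change a (g * y * g⁻¹ * y⁻¹) ≤ min (2 ^ i * (t / n)) ρ
    rw [h2, map_inv_eq_map]
    have h3 := min_le_left (2 ^ (i + 1) * (t / n)) ρ
    have h4 := min_le_right (2 ^ (i + 1) * (t / n)) ρ
    refine le_min ?_ (by linarith)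
    rw [pow_succ] at h1 h3
    linarith
  · intro g hg
    have hg' : a g ≤ ρ := hg
    change a g ≤ min (2 ^ k * (t / n)) ρ
    rw [div_lt_iff₀ htn] at hk
    exact le_min (by linarith) hg'

end

section

variable {G : Type*} [Group G] [DecidableEq G]

theorem final_clog {n : ℕ} (hn : 1 ≤ n) : ∃ k : ℕ, n ≤ 2 ^ k ∧ 2 ^ k ≤ 2 * n := by
  refine ⟨Nat.log 2 n + 1, (Nat.lt_pow_succ_log_self (by norm_num) n).le, ?_⟩
  have := Nat.pow_log_le_self 2 (x := n) (by omega)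
  rw [pow_succ]; omega

theorem final_card_le {A : Finset G} (hA : A.Nonempty) : A.card ≤ (A ^ 4).card := by
  rw [show (4 : ℕ) = 3 + 1 from rfl, pow_succ']
  exact Finset.card_le_card_mul_right (hA.pow (n := 3))

theorem final_mem {A : Finset G} (hs : A⁻¹ = A) {x y : G} (hx : x ∈ A) (hy : y ∈ A) :
    x⁻¹ * y ∈ A ^ 4 := by
  have hi : x⁻¹ ∈ A := by rw [← hs]; exact Finset.inv_mem_inv hx
  have h2 : (1 : G) ∈ A ^ 2 := by
    rw [pow_two]; exact Finset.mem_mul.2 ⟨x, hx, x⁻¹, hi, by simp⟩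
  have h3 : x⁻¹ * y ∈ A ^ 2 := by
    rw [pow_two]; exact Finset.mem_mul.2 ⟨x⁻¹, hi, y, hy, rfl⟩
  rw [show (4 : ℕ) = 2 + 2 from rfl, pow_add]
  exact Finset.mem_mul.2 ⟨_, h3, 1, h2, by simp⟩

theorem final_max {A : Finset G} (hA : A.Nonempty) (hs : A⁻¹ = A) :
    ∃ (T : Finset G) (g : G), T ⊆ A ^ 4 ∧ (∀ x ∈ T, x ∈ Subgroup.zpowers g) ∧ 1 ≤ T.card ∧
      (2 ≤ A.card → 2 ≤ T.card) ∧
      ∀ (g' : G) (T' : Finset G), T' ⊆ A ^ 4 → (∀ x ∈ T', x ∈ Subgroup.zpowers g') →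
        T'.card ≤ T.card := by
  classical
  have h1 := one_mem_pow_four hA hs
  obtain ⟨T, hT, hmax⟩ := Finset.exists_max_image
    ((A ^ 4).powerset.filter fun T => ∃ g : G, ∀ x ∈ T, x ∈ Subgroup.zpowers g) Finset.card
    ⟨∅, by simp⟩
  obtain ⟨hT1, g, hg⟩ := Finset.mem_filter.1 hT
  have hmax' : ∀ (g' : G) (T' : Finset G), T' ⊆ A ^ 4 → (∀ x ∈ T', x ∈ Subgroup.zpowers g') →
      T'.card ≤ T.card := fun g' T' h h' =>
    hmax T' (Finset.mem_filter.2 ⟨Finset.mem_powerset.2 h, g', h'⟩)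
  refine ⟨T, g, Finset.mem_powerset.1 hT1, hg, ?_, ?_, hmax'⟩
  · have := hmax' 1 {1} (Finset.singleton_subset_iff.2 h1) (by simp)
    simpa using this
  · intro h2
    obtain ⟨x, hx, y, hy, hxy⟩ := Finset.one_lt_card.1 (show 1 < A.card by omega)
    have hne : (1 : G) ≠ x⁻¹ * y := fun h => hxy (inv_mul_eq_one.1 h.symm)
    have := hmax' (x⁻¹ * y) {1, x⁻¹ * y}
      (Finset.insert_subset h1 (Finset.singleton_subset_iff.2 (final_mem hs hx hy))) (by
        intro z hz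
        rcases Finset.mem_insert.1 hz with rfl | hz
        · exact Subgroup.one_mem _
        · rw [Finset.mem_singleton.1 hz]; exact Subgroup.mem_zpowers _)
    rwa [Finset.card_pair hne] at this

theorem final_abs {A : Finset G} (hA : A.Nonempty) (hs : A⁻¹ = A) {K t Λ P Q W : ℝ}
    (hK : 0 ≤ K) (h3 : ((A ^ 3).card : ℝ) ≤ K * A.card) (ht : 0 < t) (ht1 : t ≤ 1) (hΛ : 1 ≤ Λ)
    (hP : 1 ≤ P) (hQ : 0 ≤ Q)
    (hkey : ∀ n₀ : ℕ, 1 ≤ n₀ → ∃ a : GroupSeminorm G, NSS (A ^ 4) a t Λ P n₀)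
    (hnum1 : ∀ n k : ℕ, 2 ≤ n → 2 ^ k ≤ 2 * n → P ^ (k + 1) ≤ (n : ℝ) ^ Q)
    (hnum2 : ∀ m : ℕ, (2 : ℝ) ^ m ≤ 4 * (16384 * Λ ^ 2 * P ^ 2 * (t⁻¹) ^ 2) →
      K ^ 3 * P ^ (m + 1) ≤ W) :
    ∃ (T X : Finset G) (g : G) (H Γ : Subgroup G), T ⊆ A ^ 4 ∧ T.Nonempty ∧
      (∀ x ∈ T, x ∈ Subgroup.zpowers g) ∧ (H : Set G) ⊆ ↑(A ^ 4) ∧
      (A.card : ℝ) ≤ (T.card : ℝ) ^ Q * Nat.card H ∧ H ≤ Γ ∧
      (∃ _ : (H.subgroupOf Γ).Normal, Group.IsNilpotent (Γ ⧸ H.subgroupOf Γ)) ∧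
      Subgroup.closure ((Γ : Set G) ∩ ↑(A ^ 4)) = Γ ∧
      (A : Set G) ⊆ (X : Set G) * (Γ : Set G) ∧ (X.card : ℝ) ≤ W := by
  obtain ⟨T, g, hT, hg, hn, hn2, hmax⟩ := final_max hA hs
  obtain ⟨n, hnT⟩ : ∃ n, T.card = n := ⟨_, rfl⟩
  rw [hnT] at hn hn2 hmax
  obtain ⟨D, hD⟩ : ∃ D : ℝ, D = 16384 * Λ ^ 2 * P ^ 2 := ⟨_, rfl⟩
  have hD1 : 1 ≤ D := by
    have h1 : 1 ≤ Λ ^ 2 := one_le_pow₀ hΛ
    have h2 : 1 ≤ P ^ 2 := one_le_pow₀ hP
    rw [hD]
    exact one_le_mul_of_one_le_of_one_le (one_le_mul_of_one_le_of_one_le (by norm_num) h1) h2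
  have hD0 : 0 < D := by linarith
  obtain ⟨ρ, hρ⟩ : ∃ ρ : ℝ, ρ = t ^ 3 / D := ⟨_, rfl⟩
  have hρ0 : 0 < ρ := by rw [hρ]; positivity
  have hρD : D * ρ = t ^ 3 := by rw [hρ]; field_simp
  have hρt : ρ ≤ t := by
    have h1 : t ^ 3 ≤ t := by
      have : t ^ 2 ≤ 1 := pow_le_one₀ ht.le ht1
      calc t ^ 3 = t ^ 2 * t := by ring
        _ ≤ t := mul_le_of_le_one_left ht.le this
    have h2 : ρ ≤ D * ρ := le_mul_of_one_le_left hρ0.le hD1
    linarith
  have htρ : t / ρ = D * (t⁻¹) ^ 2 := by rw [hρ]; field_simp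
  obtain ⟨n₀, hn₀⟩ : ∃ n₀ : ℕ, n₀ = ⌈2 * Λ * n / t⌉₊ + ⌈2 * Λ / ρ⌉₊ := ⟨_, rfl⟩
  have hn₀a : 2 * Λ * n ≤ t * n₀ := by
    have h1 : 2 * Λ * n / t ≤ n₀ := by
      rw [hn₀]; push_cast
      exact (Nat.le_ceil _).trans (le_add_of_nonneg_right (Nat.cast_nonneg _))
    rwa [div_le_iff₀' ht] at h1
  have hn₀b : 2 * Λ ≤ ρ * n₀ := by
    have h1 : 2 * Λ / ρ ≤ n₀ := by
      rw [hn₀]; push_cast
      exact (Nat.le_ceil _).trans (le_add_of_nonneg_left (Nat.cast_nonneg _))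
    rwa [div_le_iff₀' hρ0] at h1
  have hnR : (1 : ℝ) ≤ n := by exact_mod_cast hn
  have hnn₀ : n ≤ n₀ := by
    have h0 : (0 : ℝ) ≤ n₀ := Nat.cast_nonneg _
    have h1 : t * n₀ ≤ n₀ := mul_le_of_le_one_left h0 ht1
    have h2 : (n : ℝ) ≤ 2 * Λ * n := le_mul_of_one_le_left (by linarith) (by linarith)
    have : (n : ℝ) ≤ n₀ := by linarith
    exact_mod_cast this
  obtain ⟨a, ha⟩ := hkey n₀ (hn.trans hnn₀)
  obtain ⟨H, Γ, hH, hΓ, hΓc, hHΓ, hnil⟩ := ha.structure ht ht1 hΛ hP hρ0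
    (by rw [← hD]; exact hρD.le) hn hmax hn₀a hn₀b
  have hHA : (H : Set G) ⊆ ↑(A ^ 4) := by
    intro x hx
    exact Finset.mem_coe.2 (ha.mem x (((hH x).1 hx).trans (div_le_self ht.le hnR)))
  have hHfin : (H : Set G).Finite := (Finset.finite_toSet _).subset hHA
  have hA4 : (A.card : ℝ) ≤ (A ^ 4).card := by exact_mod_cast final_card_le hA
  obtain ⟨c, hc⟩ : ∃ c : ℕ, c = ⌈t / ρ⌉₊ := ⟨_, rfl⟩
  have hq1 : 1 ≤ t / ρ := (one_le_div hρ0).2 hρt
  have hc1 : t / ρ ≤ c := by rw [hc]; exact Nat.le_ceil _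
  have hc2 : (c : ℝ) ≤ 2 * (t / ρ) := by
    have := Nat.ceil_lt_add_one (show 0 ≤ t / ρ by linarith)
    rw [hc]; linarith
  have hc3 : 1 ≤ c := by
    have : (1 : ℝ) ≤ c := hq1.trans hc1
    exact_mod_cast this
  have hc4 : c ≤ n₀ := by
    have h1 : c ≤ ⌈2 * Λ / ρ⌉₊ := by
      rw [hc]; exact Nat.ceil_mono (div_le_div_of_nonneg_right (by linarith) hρ0.le)
    omega
  obtain ⟨m, hm1, hm2⟩ := final_clog hc3
  have hm1R : (c : ℝ) ≤ 2 ^ m := by exact_mod_cast hm1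
  have hm2R : (2 : ℝ) ^ m ≤ 2 * c := by exact_mod_cast hm2
  have hmρ : t / 2 ^ m ≤ ρ := by
    rw [div_le_iff₀ (by positivity)]
    have := (div_le_iff₀ hρ0).1 (hc1.trans hm1R)
    linarith
  have hB := ha.iter ht (by linarith) m (by omega)
  have hBne : (ball (A ^ 4) a (t / 2 ^ m)).Nonempty :=
    ⟨1, mem_ball.2 ⟨one_mem_pow_four hA hs, by rw [map_one_eq_zero a]; positivity⟩⟩
  have hAB : ((A * ball (A ^ 4) a (t / 2 ^ m)).card : ℝ) ≤
      K ^ 3 * P ^ (m + 1) * (ball (A ^ 4) a (t / 2 ^ m)).card := by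
    have h1 : A * ball (A ^ 4) a (t / 2 ^ m) ⊆ A ^ 5 := by
      have e : A ^ 5 = A * A ^ 4 := pow_succ' A 4
      have hsub : ball (A ^ 4) a (t / 2 ^ m) ⊆ A ^ 4 := fun x hx => (mem_ball.1 hx).1
      rw [e]
      exact Finset.mul_subset_mul_left hsub
    have h2 : ((A * ball (A ^ 4) a (t / 2 ^ m)).card : ℝ) ≤ (A ^ 5).card := by
      exact_mod_cast Finset.card_le_card h1
    have h4 : ((A ^ 5).card : ℝ) ≤ K ^ 3 * A.card :=
      Finset.small_pow_of_small_tripling (m := 5) (by norm_num) h3 hs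
    calc _ ≤ K ^ 3 * A.card := h2.trans h4
      _ ≤ K ^ 3 * (P ^ (m + 1) * (ball (A ^ 4) a (t / 2 ^ m)).card) :=
        mul_le_mul_of_nonneg_left (hA4.trans hB) (by positivity)
      _ = _ := by ring
  obtain ⟨X, -, hX, hAX⟩ := Finset.ruzsa_covering_mul hBne hAB
  refine ⟨T, X, g, H, Γ, hT, Finset.card_pos.1 (by omega), hg, hHA, ?_, hHΓ, hnil, ?_, ?_, ?_⟩
  · rw [hnT]
    have hHc : (1 : ℝ) ≤ Nat.card H := by
      have : Finite H := hHfin.to_subtype
      have : 0 < Nat.card H := Nat.card_pos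
      exact_mod_cast this
    rcases Nat.lt_or_ge A.card 2 with h | h
    · have h1 : (A.card : ℝ) ≤ 1 := by exact_mod_cast Nat.lt_succ_iff.1 h
      have h2 : (1 : ℝ) ≤ (n : ℝ) ^ Q := Real.one_le_rpow hnR hQ
      exact h1.trans (one_le_mul_of_one_le_of_one_le h2 hHc)
    · obtain ⟨k, hk1, hk2⟩ := final_clog hn
      have hk1R : (n : ℝ) ≤ 2 ^ k := by exact_mod_cast hk1
      have h1 := ha.iter ht (by linarith) k (by omega)
      have h2 : (ball (A ^ 4) a (t / 2 ^ k)).card ≤ Nat.card H := by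
        have h5 : (↑(ball (A ^ 4) a (t / 2 ^ k)) : Set G) ⊆ H := by
          intro x hx
          exact (hH x).2 ((mem_ball.1 (Finset.mem_coe.1 hx)).2.trans
            (div_le_div_of_nonneg_left ht.le (by linarith) hk1R))
        have := Set.ncard_le_ncard h5 hHfin
        rwa [Set.ncard_coe_finset] at this
      have h2R : ((ball (A ^ 4) a (t / 2 ^ k)).card : ℝ) ≤ Nat.card H := by exact_mod_cast h2
      calc (A.card : ℝ) ≤ P ^ (k + 1) * (ball (A ^ 4) a (t / 2 ^ k)).card := hA4.trans h1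
        _ ≤ (n : ℝ) ^ Q * Nat.card H :=
          mul_le_mul (hnum1 n k (hn2 h) hk2) h2R (Nat.cast_nonneg _) (by positivity)
  · refine le_antisymm ((Subgroup.closure_le _).2 Set.inter_subset_left) ?_
    conv_lhs => rw [hΓc]
    refine Subgroup.closure_mono fun x hx => ⟨hΓ x hx, Finset.mem_coe.2 (ha.mem x ?_)⟩
    exact le_trans hx hρt
  · intro x hx
    obtain ⟨y, hy, z, hz, rfl⟩ := Finset.mem_mul.1 (hAX (Finset.mem_coe.1 hx))
    obtain ⟨u, hu, v, hv, rfl⟩ := Finset.mem_div.1 hz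
    exact Set.mul_mem_mul (Finset.mem_coe.2 hy) (Γ.div_mem
      (hΓ u ((mem_ball.1 hu).2.trans hmρ)) (hΓ v ((mem_ball.1 hv).2.trans hmρ)))
  · refine hX.trans (hnum2 m ?_)
    rw [← hD, ← htρ]; linarith

end

end Pool.Agent.MP_34e614_co.H31
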