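import Pool.Agent.MP_34e614_co.H31.PartA
import Pool.Agent.MP_34e614_co.CS

set_option autoImplicit false

open scoped Pointwise InnerProductSpace

namespace Pool.Agent.MP_34e614_co.H31

section

variable {G : Type*} [Group G] [DecidableEq G]

theorem ev_xi (Y : Finset G) (z x : G) :
    (xi Y z).ev x = if z * x⁻¹ ∈ Y then (√(Y.card : ℝ))⁻¹ else 0 := by
  have h1 : ∀ a : G, (ind {z}).ev (a * x) = if z * x⁻¹ = a then (1 : ℝ) else 0 := by
    intro a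
    rw [ev_ind]
    have : a * x ∈ ({z} : Finset G) ↔ z * x⁻¹ = a := by
      rw [Finset.mem_singleton, mul_inv_eq_iff_eq_mul, eq_comm]
    simp only [this]
  unfold xi
  rw [L2.ev_smul, ev_M, Finset.sum_congr rfl (fun a _ => h1 a), Finset.sum_ite_eq]
  split_ifs with h
  · have h0 : (0 : ℝ) < Y.card := by exact_mod_cast Finset.card_pos.2 ⟨_, h⟩
    have h2 : 0 < √(Y.card : ℝ) := Real.sqrt_pos.2 h0
    have h3 := Real.mul_self_sqrt h0.le
    rw [mul_one]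
    generalize √(Y.card : ℝ) = r at h2 h3 ⊢
    rw [← h3]
    field_simp
  · simp

theorem xi_ne {Y : Finset G} {z x : G} (h : (xi Y z).ev x ≠ 0) : z * x⁻¹ ∈ Y := by
  by_contra h'
  rw [ev_xi, if_neg h'] at h
  exact h rfl

theorem norm_xi {Y : Finset G} (hY : Y.Nonempty) (z : G) : ‖xi Y z‖ = 1 := by
  have h0 : (0 : ℝ) < Y.card := by exact_mod_cast Finset.card_pos.2 hY
  have h : ‖xi Y z‖ ^ 2 = 1 := by
    rw [L2.norm_sq_eq _ (Y.image fun a => a⁻¹ * z)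
      (fun x hx => Finset.mem_image.2 ⟨_, xi_ne hx, by group⟩),
      Finset.sum_image (fun a _ b _ hab => inv_injective (mul_right_cancel hab)),
      Finset.sum_congr rfl (g := fun _ => ((Y.card : ℝ))⁻¹)]
    · rw [Finset.sum_const, nsmul_eq_mul, mul_inv_cancel₀ h0.ne']
    · intro a ha
      rw [ev_xi, if_pos (by rw [show z * (a⁻¹ * z)⁻¹ = a by group]; exact ha), inv_pow,
        Real.sq_sqrt h0.le]
  exact (pow_eq_one_iff_of_nonneg (norm_nonneg _) two_ne_zero).1 h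

theorem R_xi (Y : Finset G) (g z : G) : R g (xi Y z) = xi Y (z * g⁻¹) :=
  L2.ext fun x => by rw [ev_R, ev_xi, ev_xi, mul_inv_rev, mul_assoc]

theorem cor_R (Y : Finset G) (ζ : L2 G) (g z : G) : cor Y (R g ζ) z = cor Y ζ (z * g) := by
  unfold cor
  rw [← inner_R g (xi Y (z * g)) ζ, R_xi, mul_inv_cancel_right]

theorem cor_le {Y : Finset G} (hY : Y.Nonempty) (ζ : L2 G) (z : G) : cor Y ζ z ≤ ‖ζ‖ := by
  have := real_inner_le_norm (xi Y z) ζ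
  rwa [norm_xi hY, one_mul] at this

theorem cor_sub {Y : Finset G} (hY : Y.Nonempty) (ζ : L2 G) (z g : G) :
    |cor Y ζ (z * g) - cor Y ζ z| ≤ ‖R g ζ - ζ‖ := by
  rw [← cor_R]
  unfold cor
  rw [← inner_sub_right]
  have := abs_real_inner_le_norm (xi Y z) (R g ζ - ζ)
  rwa [norm_xi hY, one_mul] at this

theorem xi_exists {f h : L2 G} (hne : ⟪f, h⟫_ℝ ≠ 0) : ∃ x, f.ev x ≠ 0 ∧ h.ev x ≠ 0 := by
  by_contra hc
  apply hne
  rw [L2.inner_eq f h ∅ (fun x hx =>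
    (hc ⟨x, left_ne_zero_of_mul hx, right_ne_zero_of_mul hx⟩).elim)]
  exact Finset.sum_empty

theorem mem_Om {Y : Finset G} {ζ : L2 G} {z : G} : z ∈ Om Y ζ ↔ 3 / 4 ≤ cor Y ζ z := by
  unfold Om
  rw [Finset.mem_filter]
  refine ⟨fun h => h.2, fun h => ⟨?_, h⟩⟩
  have hne : ⟪xi Y z, ζ⟫_ℝ ≠ 0 := by
    intro h0
    unfold cor at h
    rw [h0] at h
    norm_num at h
  obtain ⟨x, h1, h2⟩ := xi_exists hne
  exact Finset.mem_mul.2 ⟨_, xi_ne h1, x, L2.mem_supp.2 h2, by group⟩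

theorem mem_sq_of_inner {Y : Finset G} (hs : Y⁻¹ = Y) {z z' : G}
    (h : ⟪xi Y z, xi Y z'⟫_ℝ ≠ 0) : z * z'⁻¹ ∈ Y ^ 2 := by
  obtain ⟨x, h1, h2⟩ := xi_exists h
  have h3 : (z' * x⁻¹)⁻¹ ∈ Y := by rw [← hs]; exact Finset.inv_mem_inv (xi_ne h2)
  rw [pow_two]
  exact Finset.mem_mul.2 ⟨_, xi_ne h1, _, h3, by group⟩

theorem Om_div {Y : Finset G} (hY : Y.Nonempty) (hs : Y⁻¹ = Y) {ζ : L2 G} (hζ : ‖ζ‖ ≤ 1)
    {z z' : G} (hz : z ∈ Om Y ζ) (hz' : z' ∈ Om Y ζ) : z * z'⁻¹ ∈ Y ^ 2 := by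
  apply mem_sq_of_inner hs
  intro h0
  have h1 := mem_Om.1 hz
  have h2 := mem_Om.1 hz'
  unfold cor at h1 h2
  have h3 := real_inner_le_norm (xi Y z + xi Y z') ζ
  rw [inner_add_left] at h3
  have h4 := norm_add_sq_real (xi Y z) (xi Y z')
  rw [h0, norm_xi hY, norm_xi hY] at h4
  have h5 := norm_nonneg (xi Y z + xi Y z')
  have h6 : ‖xi Y z + xi Y z'‖ * ‖ζ‖ ≤ ‖xi Y z + xi Y z'‖ * 1 :=
    mul_le_mul_of_nonneg_left hζ h5
  nlinarith

theorem card_Om_le {Y : Finset G} (hY : Y.Nonempty) (hs : Y⁻¹ = Y) {ζ : L2 G} (hζ : ‖ζ‖ ≤ 1) :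
    (Om Y ζ).card ≤ (Y ^ 4).card := by
  rcases (Om Y ζ).eq_empty_or_nonempty with h | ⟨z₀, h₀⟩
  · rw [h]; exact Nat.zero_le _
  · have h1 : (Om Y ζ).card ≤ (Y ^ 2).card :=
      Finset.card_le_card_of_injOn (fun z => z * z₀⁻¹)
        (fun z hz => Om_div hY hs hζ hz h₀) (fun a _ b _ hab => mul_right_cancel hab)
    refine h1.trans ?_
    rw [show (4 : ℕ) = 2 + 2 from rfl, pow_add]
    exact Finset.card_le_card_mul_right (hY.pow)

end

section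

variable {G : Type*} [Group G] [DecidableEq G]

theorem xib_mem {Y : Finset G} (hs : Y⁻¹ = Y) (z x : G) :
    z * x⁻¹ ∈ Y ↔ x ∈ Y.image (· * z) := by
  have hinv : ∀ a ∈ Y, a⁻¹ ∈ Y := fun a ha => by rw [← hs]; exact Finset.inv_mem_inv ha
  rw [Finset.mem_image]
  constructor
  · intro h
    exact ⟨_, hinv _ h, by simp⟩
  · rintro ⟨a, ha, rfl⟩
    simpa using hinv a ha

theorem inner_xi_fol {Y S : Finset G} (hY : Y.Nonempty) (hs : Y⁻¹ = Y) (h1 : (1 : G) ∈ S)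
    (h : ((Y * S).card : ℝ) ≤ 101 / 100 * Y.card) {s : G} (hS : s ∈ S) :
    99 / 100 ≤ ⟪xi Y s, xi Y 1⟫_ℝ := by
  have hN : (0 : ℝ) < Y.card := by exact_mod_cast hY.card_pos
  have e1 : ∀ x : G, 1 * x⁻¹ ∈ Y ↔ x ∈ Y := fun x => by rw [xib_mem hs]; simp
  have e2 : ⟪xi Y s, xi Y 1⟫_ℝ = ((Y.image (· * s) ∩ Y).card : ℝ) * (Y.card : ℝ)⁻¹ := by
    rw [L2.inner_eq _ _ (Y.image (· * s) ∩ Y)]
    · rw [Finset.sum_congr rfl (g := fun _ => (Y.card : ℝ)⁻¹), Finset.sum_const, nsmul_eq_mul]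
      intro x hx
      rw [Finset.mem_inter] at hx
      rw [ev_xi, ev_xi, if_pos ((xib_mem hs s x).2 hx.1), if_pos ((e1 x).2 hx.2), ← mul_inv,
        Real.mul_self_sqrt hN.le]
    · intro x hx
      rw [ev_xi, ev_xi] at hx
      rw [Finset.mem_inter, ← xib_mem hs, ← e1 x]
      by_contra hc
      rcases not_and_or.1 hc with hc | hc
      · exact hx (by rw [if_neg hc, zero_mul])
      · exact hx (by rw [if_neg hc, mul_zero])
  have e3 : (Y.image (· * s)).card = Y.card :=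
    Finset.card_image_of_injective _ (mul_left_injective s)
  have e4 := Finset.card_union_add_card_inter (Y.image (· * s)) Y
  have e5 : Y.image (· * s) ∪ Y ⊆ Y * S := by
    intro x hx
    rcases Finset.mem_union.1 hx with hx | hx
    · obtain ⟨a, ha, rfl⟩ := Finset.mem_image.1 hx
      exact Finset.mul_mem_mul ha hS
    · simpa using Finset.mul_mem_mul hx h1
  have e6 : ((Y.image (· * s) ∪ Y).card : ℝ) ≤ (Y * S).card := by
    exact_mod_cast Finset.card_le_card e5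
  rw [e3] at e4
  have e7 : ((Y.image (· * s) ∪ Y).card : ℝ) + (Y.image (· * s) ∩ Y).card = Y.card + Y.card := by
    exact_mod_cast e4
  rw [e2, ← div_eq_mul_inv, le_div_iff₀ hN]
  linarith

theorem gZ_nonneg (Y : Finset G) (β : ℝ) (ζ : L2 G) : 0 ≤ gZ Y β ζ :=
  Finset.sum_nonneg fun _ _ => (Real.exp_pos _).le

theorem gnu_nonneg (Y : Finset G) (β : ℝ) (ζ : L2 G) (z : G) : 0 ≤ gnu Y β ζ z :=
  div_nonneg (Real.exp_pos _).le (gZ_nonneg Y β ζ)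

theorem sum_gnu {Y : Finset G} {β : ℝ} {ζ : L2 G} (h : 0 < gZ Y β ζ) :
    ∑ z ∈ Om Y ζ, gnu Y β ζ z = 1 := by
  unfold gnu
  rw [← Finset.sum_div]
  exact div_self h.ne'

theorem norm_gm_le {Y : Finset G} (hY : Y.Nonempty) {β : ℝ} {ζ : L2 G} (h : 0 < gZ Y β ζ) :
    ‖gm Y β ζ‖ ≤ 1 := by
  unfold gm
  refine (norm_sum_le _ _).trans (le_of_eq ?_)
  rw [← sum_gnu h]
  refine Finset.sum_congr rfl fun z _ => ?_
  rw [norm_smul, norm_xi hY, mul_one, Real.norm_of_nonneg (gnu_nonneg Y β ζ z)]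

theorem Gib.gZ_pos {Y S : Finset G} {L β σ : ℝ} {ζ : L2 G} (hF : Fol Y S L)
    (hG : Gib Y S β σ ζ) : 0 < gZ Y β ζ := by
  have : (0 : ℝ) < S.card := by exact_mod_cast Finset.card_pos.2 ⟨1, hF.one⟩
  exact lt_of_lt_of_le (mul_pos this (Real.exp_pos _)) hG.big

theorem mem_gU {Y S : Finset G} {L β σ : ℝ} {ζ : L2 G} (hF : Fol Y S L) (hG : Gib Y S β σ ζ)
    (hβ : 20 ≤ β) {g : G} : g ∈ gU Y β ζ ↔ ‖R g ζ - ζ‖ ≤ 1 / β := by
  classical
  unfold gU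
  rw [Finset.mem_filter]
  refine ⟨fun h => h.2, fun h => ⟨mem_Om.2 ?_, h⟩⟩
  have h1 := (abs_le.1 (cor_sub hF.ne ζ 1 g)).1
  rw [one_mul] at h1
  have h2 : 1 / β ≤ 1 / 20 := one_div_le_one_div_of_le (by norm_num) hβ
  have h3 := hG.one
  linarith

theorem Om_subset {Y S : Finset G} {L β σ : ℝ} {ζ : L2 G} (hF : Fol Y S L)
    (hG : Gib Y S β σ ζ) : Om Y ζ ⊆ Y ^ 2 := by
  intro z hz
  have h1 : (1 : G) ∈ Om Y ζ := mem_Om.2 (le_trans (by norm_num) hG.one)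
  simpa using Om_div hF.ne hF.symm hG.norm_le hz h1

theorem gU_subset {Y S : Finset G} {L β σ : ℝ} {ζ : L2 G} (hF : Fol Y S L)
    (hG : Gib Y S β σ ζ) : gU Y β ζ ⊆ Y ^ 2 := by
  classical
  intro z hz
  unfold gU at hz
  exact Om_subset hF hG (Finset.mem_filter.1 hz).1

theorem Fol.subset {Y S : Finset G} {L : ℝ} (hF : Fol Y S L) : S ⊆ Y ^ 2 := by
  intro s hs
  have h1 := hF.fol s hs
  have h2 : ⟪xi Y s, xi Y 1⟫_ℝ ≠ 0 := by
    intro h0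
    rw [h0] at h1
    norm_num at h1
  simpa using mem_sq_of_inner hF.symm h2

end

section

variable {G : Type*} [Group G] [DecidableEq G]

theorem gF_R (Y : Finset G) (β : ℝ) (g : G) (ζ : L2 G) : gF Y β (R g ζ) = gF Y β ζ := by
  unfold gF gZ
  rw [norm_R]
  congr 1
  refine Finset.sum_bij' (fun z _ => z * g) (fun z _ => z * g⁻¹) ?_ ?_ (by simp) (by simp) ?_
  · intro z hz
    rwa [mem_Om, ← cor_R, ← mem_Om]
  · intro z hz
    rw [mem_Om, cor_R, inv_mul_cancel_right]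
    exact mem_Om.1 hz
  · intro z _
    rw [cor_R]

theorem gibbs_low {Y S : Finset G} {L β : ℝ} (hF : Fol Y S L) (hβ : 0 ≤ β) :
    S.card * Real.exp (49 / 100 * β) ≤ gF Y β (xi Y 1) := by
  have h1 : S ⊆ Om Y (xi Y 1) := fun s hs =>
    mem_Om.2 (le_trans (by norm_num) (hF.fol s hs))
  have h2 : S.card * Real.exp (99 / 100 * β) ≤ gZ Y β (xi Y 1) := by
    calc S.card * Real.exp (99 / 100 * β) = ∑ _s ∈ S, Real.exp (99 / 100 * β) := by simp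
      _ ≤ ∑ s ∈ S, Real.exp (β * cor Y (xi Y 1) s) := by
          refine Finset.sum_le_sum fun s hs => Real.exp_le_exp.2 ?_
          rw [mul_comm]
          exact mul_le_mul_of_nonneg_left (hF.fol s hs) hβ
      _ ≤ _ := Finset.sum_le_sum_of_subset_of_nonneg h1 fun _ _ _ => (Real.exp_pos _).le
  unfold gF
  rw [norm_xi hF.ne]
  have e : Real.exp (49 / 100 * β) = Real.exp (99 / 100 * β) * Real.exp (-(β * 1 ^ 2 / 2)) := by
    rw [← Real.exp_add]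
    congr 1
    ring
  rw [e, ← mul_assoc]
  exact mul_le_mul_of_nonneg_right h2 (Real.exp_pos _).le

theorem gibbsa_le {Y S : Finset G} {L β c : ℝ} (hF : Fol Y S L) (hβ : 0 ≤ β) {ζ : L2 G}
    (hζ : ‖ζ‖ ≤ 1) (hc : ∀ z, cor Y ζ z ≤ c) :
    gZ Y β ζ ≤ S.card * Real.exp (L + β * c) := by
  have h1 : ((Om Y ζ).card : ℝ) ≤ (Y ^ 4).card := by
    exact_mod_cast card_Om_le hF.ne hF.symm hζ
  calc gZ Y β ζ ≤ ∑ _z ∈ Om Y ζ, Real.exp (β * c) :=
        Finset.sum_le_sum fun z _ => Real.exp_le_exp.2 (mul_le_mul_of_nonneg_left (hc z) hβ)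
    _ = (Om Y ζ).card * Real.exp (β * c) := by simp
    _ ≤ Real.exp L * S.card * Real.exp (β * c) :=
        mul_le_mul_of_nonneg_right (h1.trans hF.card) (Real.exp_pos _).le
    _ = _ := by rw [Real.exp_add]; ring

theorem gibbsa_pos {Y S : Finset G} {L : ℝ} (hF : Fol Y S L) : (0 : ℝ) < S.card := by
  exact_mod_cast Finset.card_pos.2 ⟨1, hF.one⟩

theorem gibbs_max {Y S : Finset G} {L β σ : ℝ} (hF : Fol Y S L) (hβ : 0 ≤ β) (hσ : 0 < σ) :
    ∃ ζ : L2 G, ‖ζ‖ ≤ 1 ∧ ∀ ζ' : L2 G, ‖ζ'‖ ≤ 1 → gF Y β ζ' ≤ (1 + σ) * gF Y β ζ := by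
  set V : Set ℝ := gF Y β '' {ζ : L2 G | ‖ζ‖ ≤ 1} with hV
  have hb : BddAbove V := by
    refine ⟨S.card * Real.exp (L + β * 1), ?_⟩
    rintro _ ⟨ζ, hζ, rfl⟩
    have h1 := gibbsa_le hF hβ hζ fun z => (cor_le hF.ne ζ z).trans hζ
    have h2 : Real.exp (-(β * ‖ζ‖ ^ 2 / 2)) ≤ 1 :=
      Real.exp_le_one_iff.2 (neg_nonpos.2 (by positivity))
    exact (mul_le_of_le_one_right (gZ_nonneg Y β ζ) h2).trans h1
  have h0 : gF Y β (xi Y 1) ∈ V := ⟨_, (norm_xi hF.ne 1).le, rfl⟩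
  have hp : 0 < sSup V :=
    lt_of_lt_of_le (mul_pos (gibbsa_pos hF) (Real.exp_pos _))
      ((gibbs_low hF hβ).trans (le_csSup hb h0))
  have h1 : sSup V / (1 + σ) < sSup V := div_lt_self hp (by linarith)
  obtain ⟨_, ⟨ζ, hζ, rfl⟩, h2⟩ := exists_lt_of_lt_csSup ⟨_, h0⟩ h1
  refine ⟨ζ, hζ, fun ζ' hζ' => (le_csSup hb ⟨ζ', hζ', rfl⟩).trans ?_⟩
  rw [div_lt_iff₀ (by linarith), mul_comm] at h2
  exact h2.le

theorem gibbs_big {Y S : Finset G} {L β : ℝ} (hF : Fol Y S L) (hβ : 500 * (L + 1) ≤ β)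
    {ζ : L2 G} (hζ : ‖ζ‖ ≤ 1) (h : S.card * Real.exp (49 / 100 * β) ≤ 2 * gF Y β ζ) :
    S.card * Real.exp (21 / 25 * β) ≤ gZ Y β ζ := by
  have hL := hF.L_nonneg
  have hβ0 : 0 < β := by linarith
  have hS := gibbsa_pos hF
  have h2 : (2 : ℝ) ≤ Real.exp 1 := by linarith [Real.add_one_le_exp (1 : ℝ)]
  have hZ := gibbsa_le hF hβ0.le hζ (cor_le hF.ne ζ)
  have hZ0 := gZ_nonneg Y β ζ
  have hr0 := norm_nonneg ζ
  unfold gF at h
  generalize ‖ζ‖ = r at *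
  generalize gZ Y β ζ = Z at *
  have h3 : S.card * Real.exp (49 / 100 * β) ≤ Z * Real.exp (1 + -(β * r ^ 2 / 2)) := by
    refine h.trans ?_
    rw [Real.exp_add, mul_left_comm]
    exact mul_le_mul_of_nonneg_left
      (mul_le_mul_of_nonneg_right h2 (Real.exp_pos _).le) hZ0
  have h4 : Real.exp (49 / 100 * β) ≤ Real.exp (L + β * r + (1 + -(β * r ^ 2 / 2))) := by
    refine le_of_mul_le_mul_left (h3.trans ?_) hS
    rw [Real.exp_add (L + β * r), ← mul_assoc]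
    exact mul_le_mul_of_nonneg_right hZ (Real.exp_pos _).le
  have h5 := Real.exp_le_exp.1 h4
  have h6 : 61 / 125 ≤ r - r ^ 2 / 2 := by
    refine le_of_mul_le_mul_left ?_ hβ0
    nlinarith
  have h7 : 169 / 200 ≤ r := by
    by_contra hc
    push Not at hc
    nlinarith
  have h8 : 357 / 500 ≤ r ^ 2 := by nlinarith
  have h9 : β * (357 / 500) ≤ β * r ^ 2 := mul_le_mul_of_nonneg_left h8 hβ0.le
  refine le_of_mul_le_mul_right (le_trans ?_ h3) (Real.exp_pos (1 + -(β * r ^ 2 / 2)))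
  rw [mul_assoc, ← Real.exp_add]
  exact mul_le_mul_of_nonneg_left (Real.exp_le_exp.2 (by linarith)) hS.le

theorem gibbs_centre {Y S : Finset G} {L β : ℝ} (hF : Fol Y S L) (hβ : 500 * (L + 1) ≤ β)
    {ζ : L2 G} (hζ : ‖ζ‖ ≤ 1) (h : S.card * Real.exp (21 / 25 * β) ≤ gZ Y β ζ) :
    ∃ z, 4 / 5 ≤ cor Y ζ z := by
  by_contra hc
  push Not at hc
  have hL := hF.L_nonneg
  have hZ := gibbsa_le hF (by linarith : 0 ≤ β) hζ fun z => (hc z).le
  have h1 := Real.exp_le_exp.1 (le_of_mul_le_mul_left (h.trans hZ) (gibbsa_pos hF))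
  linarith

end

section

variable {G : Type*} [Group G] [DecidableEq G]

theorem gibbs_jensen {ι : Type*} (s : Finset ι) (ν x : ι → ℝ) (h0 : ∀ i ∈ s, 0 ≤ ν i)
    (h1 : ∑ i ∈ s, ν i = 1) : Real.exp (∑ i ∈ s, ν i * x i) ≤ ∑ i ∈ s, ν i * Real.exp (x i) := by
  set m := ∑ i ∈ s, ν i * x i with hm
  have h : ∀ i ∈ s, Real.exp m * (ν i * x i) + Real.exp m * (1 - m) * ν i ≤
      ν i * Real.exp (x i) := fun i hi => by
    have h2 := mul_le_mul_of_nonneg_left (Real.add_one_le_exp (x i - m)) (Real.exp_pos m).le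
    rw [← Real.exp_add, add_sub_cancel] at h2
    nlinarith [mul_le_mul_of_nonneg_left h2 (h0 i hi)]
  refine le_trans (le_of_eq ?_) (Finset.sum_le_sum h)
  rw [Finset.sum_add_distrib, ← Finset.mul_sum, ← Finset.mul_sum, h1, ← hm]
  ring

theorem gibbsb_inner (Y : Finset G) (β : ℝ) (ζ η : L2 G) :
    ⟪gm Y β ζ, η⟫_ℝ = ∑ z ∈ Om Y ζ, gnu Y β ζ z * cor Y η z := by
  rw [gm, sum_inner]
  exact Finset.sum_congr rfl fun z _ => by rw [real_inner_smul_left, cor]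

theorem gibbsb_split {β : ℝ} (hβ : 0 ≤ β) (Y : Finset G) (ζ m : L2 G) :
    ∑ z ∈ Om Y ζ, Real.exp (β * cor Y m z) ≤
      gZ Y β m + (Om Y ζ).card * Real.exp (3 / 4 * β) := by
  rw [← Finset.sum_filter_add_sum_filter_not (Om Y ζ) (· ∈ Om Y m)]
  refine add_le_add (Finset.sum_le_sum_of_subset_of_nonneg (fun z hz => (Finset.mem_filter.1 hz).2)
    fun _ _ _ => (Real.exp_pos _).le) ?_
  refine (Finset.sum_le_card_nsmul _ _ (Real.exp (3 / 4 * β)) fun z hz => ?_).trans ?_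
  · have h := not_le.1 (mt mem_Om.2 (Finset.mem_filter.1 hz).2)
    exact Real.exp_le_exp.2 (by nlinarith [mul_le_mul_of_nonneg_left h.le hβ])
  · rw [nsmul_eq_mul]
    exact mul_le_mul_of_nonneg_right (Nat.cast_le.2 (Finset.card_filter_le _ _)) (Real.exp_pos _).le

theorem gibbs_step {Y : Finset G} (hY : Y.Nonempty) (hs : Y⁻¹ = Y) {β : ℝ} (hβ : 0 ≤ β)
    {ζ : L2 G} (hζ : ‖ζ‖ ≤ 1) (hZ : 0 < gZ Y β ζ) :
    gF Y β ζ * Real.exp (β * ‖gm Y β ζ - ζ‖ ^ 2 / 2) ≤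
      gF Y β (gm Y β ζ) + (Y ^ 4).card * Real.exp (15 / 32 * β) := by
  set m := gm Y β ζ with hm
  have h1 := gibbs_jensen (Om Y ζ) (gnu Y β ζ) (fun z => β * (cor Y m z - cor Y ζ z))
    (fun z _ => gnu_nonneg Y β ζ z) (sum_gnu hZ)
  have h2 : ∑ z ∈ Om Y ζ, gnu Y β ζ z * (β * (cor Y m z - cor Y ζ z)) =
      β * (‖m‖ ^ 2 - ⟪m, ζ⟫_ℝ) := by
    rw [← real_inner_self_eq_norm_sq]
    nth_rewrite 2 [hm]
    nth_rewrite 3 [hm]
    rw [gibbsb_inner, gibbsb_inner, ← Finset.sum_sub_distrib, Finset.mul_sum]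
    exact Finset.sum_congr rfl fun z _ => by ring
  have h3 : gZ Y β ζ * ∑ z ∈ Om Y ζ, gnu Y β ζ z * Real.exp (β * (cor Y m z - cor Y ζ z)) =
      ∑ z ∈ Om Y ζ, Real.exp (β * cor Y m z) := by
    rw [Finset.mul_sum]
    refine Finset.sum_congr rfl fun z _ => ?_
    rw [gnu, ← mul_assoc, mul_div_cancel₀ _ hZ.ne', ← Real.exp_add]
    congr 1
    ring
  rw [h2] at h1
  have h4 := (mul_le_mul_of_nonneg_left h1 hZ.le).trans (h3.le.trans (gibbsb_split hβ Y ζ m))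
  have h5 : 3 / 4 ≤ ⟪m, ζ⟫_ℝ := by
    rw [hm, gibbsb_inner]
    refine le_trans (le_of_eq ?_) (Finset.sum_le_sum fun z hz =>
      mul_le_mul_of_nonneg_left (mem_Om.1 hz) (gnu_nonneg Y β ζ z))
    rw [← Finset.sum_mul, sum_gnu hZ, one_mul]
  have h6 : 3 / 4 ≤ ‖m‖ := h5.trans ((real_inner_le_norm m ζ).trans
    (mul_le_of_le_one_right (norm_nonneg _) hζ))
  have h7 : Real.exp (3 / 4 * β) * Real.exp (-(β * ‖m‖ ^ 2 / 2)) ≤ Real.exp (15 / 32 * β) := by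
    rw [← Real.exp_add]
    have : 9 / 16 ≤ ‖m‖ ^ 2 := by nlinarith
    exact Real.exp_le_exp.2 (by nlinarith [mul_le_mul_of_nonneg_left this hβ])
  have h8 : ((Om Y ζ).card : ℝ) ≤ (Y ^ 4).card := Nat.cast_le.2 (card_Om_le hY hs hζ)
  have h9 := mul_le_mul_of_nonneg_right h4 (Real.exp_pos (-(β * ‖m‖ ^ 2 / 2))).le
  have h10 : gF Y β ζ * Real.exp (β * ‖m - ζ‖ ^ 2 / 2) =
      gZ Y β ζ * Real.exp (β * (‖m‖ ^ 2 - ⟪m, ζ⟫_ℝ)) * Real.exp (-(β * ‖m‖ ^ 2 / 2)) := by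
    rw [gF, mul_assoc, mul_assoc, ← Real.exp_add, ← Real.exp_add, norm_sub_sq_real]
    congr 2
    ring
  rw [h10]
  refine h9.trans ?_
  rw [add_mul, mul_assoc]
  exact add_le_add le_rfl (mul_le_mul h8 h7 (by positivity) (by positivity))

end

section

variable {G : Type*} [Group G] [DecidableEq G]

theorem gibbs_em {Y S : Finset G} {L β σ : ℝ} (hF : Fol Y S L) (hβ : 4 ≤ β)
    (hσ : 2 * Real.exp (L - β / 50) ≤ σ) {ζ : L2 G} (hζ : ‖ζ‖ ≤ 1)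
    (hlow : S.card * Real.exp (49 / 100 * β) ≤ 2 * gF Y β ζ)
    (hmax : ∀ ζ' : L2 G, ‖ζ'‖ ≤ 1 → gF Y β ζ' ≤ (1 + σ) * gF Y β ζ) :
    ‖gm Y β ζ - ζ‖ ^ 2 ≤ σ := by
  have hS : (0 : ℝ) < S.card := by exact_mod_cast Finset.card_pos.2 ⟨1, hF.one⟩
  have hpos : 0 < (S.card : ℝ) * Real.exp (49 / 100 * β) := mul_pos hS (Real.exp_pos _)
  have hFpos : 0 < gF Y β ζ := by linarith
  have hZ : 0 < gZ Y β ζ := (mul_pos_iff_of_pos_right (Real.exp_pos _)).1 hFpos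
  have hσ0 : 0 < σ := lt_of_lt_of_le (by positivity) hσ
  have h1 := gibbs_step hF.ne hF.symm (by linarith : (0 : ℝ) ≤ β) hζ hZ
  have h2 := hmax (gm Y β ζ) (norm_gm_le hF.ne hZ)
  have h3 : ((Y ^ 4).card : ℝ) * Real.exp (15 / 32 * β) ≤ σ * gF Y β ζ := by
    have e1 : Real.exp L * Real.exp (15 / 32 * β) ≤
        Real.exp (L - β / 50) * Real.exp (49 / 100 * β) := by
      rw [← Real.exp_add, ← Real.exp_add]
      exact Real.exp_le_exp.2 (by linarith)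
    calc ((Y ^ 4).card : ℝ) * Real.exp (15 / 32 * β)
        ≤ Real.exp L * S.card * Real.exp (15 / 32 * β) :=
          mul_le_mul_of_nonneg_right hF.card (Real.exp_pos _).le
      _ = S.card * (Real.exp L * Real.exp (15 / 32 * β)) := by ring
      _ ≤ S.card * (Real.exp (L - β / 50) * Real.exp (49 / 100 * β)) :=
          mul_le_mul_of_nonneg_left e1 hS.le
      _ = Real.exp (L - β / 50) * (S.card * Real.exp (49 / 100 * β)) := by ring
      _ ≤ Real.exp (L - β / 50) * (2 * gF Y β ζ) :=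
          mul_le_mul_of_nonneg_left hlow (Real.exp_pos _).le
      _ = 2 * Real.exp (L - β / 50) * gF Y β ζ := by ring
      _ ≤ σ * gF Y β ζ := mul_le_mul_of_nonneg_right hσ hFpos.le
  have h4 : gF Y β ζ * Real.exp (β * ‖gm Y β ζ - ζ‖ ^ 2 / 2) ≤ gF Y β ζ * (1 + 2 * σ) := by
    linarith
  have h5 := le_of_mul_le_mul_left h4 hFpos
  have h6 := Real.add_one_le_exp (β * ‖gm Y β ζ - ζ‖ ^ 2 / 2)
  have h7 : 4 * ‖gm Y β ζ - ζ‖ ^ 2 ≤ β * ‖gm Y β ζ - ζ‖ ^ 2 :=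
    mul_le_mul_of_nonneg_right hβ (sq_nonneg _)
  linarith

theorem exists_gib {Y S : Finset G} {L β σ : ℝ} (hF : Fol Y S L) (hβ : 500 * (L + 1) ≤ β)
    (hσ : 2 * Real.exp (L - β / 50) ≤ σ) (hσ1 : σ ≤ 1) : ∃ ζ : L2 G, Gib Y S β σ ζ := by
  have hL := hF.L_nonneg
  have hβ0 : (0 : ℝ) ≤ β := by linarith
  have hσ0 : 0 < σ := lt_of_lt_of_le (by positivity) hσ
  obtain ⟨ζ₀, hζ₀, hmax⟩ := gibbs_max hF hβ0 hσ0
  have hF0 : 0 ≤ gF Y β ζ₀ := mul_nonneg (gZ_nonneg Y β ζ₀) (Real.exp_pos _).le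
  have hlow : S.card * Real.exp (49 / 100 * β) ≤ 2 * gF Y β ζ₀ := by
    have h1 := gibbs_low hF hβ0
    have h2 := hmax (xi Y 1) (norm_xi hF.ne 1).le
    have h3 : (1 + σ) * gF Y β ζ₀ ≤ 2 * gF Y β ζ₀ :=
      mul_le_mul_of_nonneg_right (by linarith) hF0
    linarith
  obtain ⟨z, hz⟩ := gibbs_centre hF hβ hζ₀ (gibbs_big hF hβ hζ₀ hlow)
  have hn : ‖R z ζ₀‖ ≤ 1 := by rw [norm_R]; exact hζ₀
  have hlow' : S.card * Real.exp (49 / 100 * β) ≤ 2 * gF Y β (R z ζ₀) := by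
    rw [gF_R]; exact hlow
  refine ⟨R z ζ₀, hn, ?_, gibbs_big hF hβ hn hlow', ?_⟩
  · rw [cor_R, one_mul]; exact hz
  · refine gibbs_em hF (by linarith) hσ hn hlow' fun ζ' hζ' => ?_
    rw [gF_R]; exact hmax ζ' hζ'

end

section

theorem samplea_cons {ι : Type*} [DecidableEq ι] (Ω : Finset ι) {k : ℕ}
    (F : (Fin (k + 1) → ι) → ℝ) :
    ∑ w ∈ Fintype.piFinset (fun _ : Fin (k + 1) => Ω), F w =
      ∑ w ∈ Fintype.piFinset (fun _ : Fin k => Ω), ∑ z ∈ Ω, F (Fin.cons z w) := by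
  rw [← Finset.sum_product']
  refine Finset.sum_nbij' (fun w => (Fin.tail w, w 0)) (fun p => Fin.cons p.2 p.1) ?_ ?_ ?_ ?_ ?_
  · intro w hw
    rw [Fintype.mem_piFinset] at hw
    exact Finset.mem_product.2 ⟨Fintype.mem_piFinset.2 fun i => hw _, hw 0⟩
  · intro p hp
    obtain ⟨h1, h2⟩ := Finset.mem_product.1 hp
    exact Fintype.mem_piFinset.2 (Fin.cases h2 (Fintype.mem_piFinset.1 h1))
  · exact fun w _ => Fin.cons_self_tail w
  · exact fun p _ => rfl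
  · exact fun w _ => congrArg F (Fin.cons_self_tail w).symm

theorem samplea_one {ι : Type*} [DecidableEq ι] (Ω : Finset ι) (ν : ι → ℝ)
    (h1 : ∑ z ∈ Ω, ν z = 1) (k : ℕ) :
    ∑ w ∈ Fintype.piFinset (fun _ : Fin k => Ω), ∏ i, ν (w i) = 1 := by
  rw [← Finset.prod_univ_sum (fun _ : Fin k => Ω) fun _ z => ν z, h1, Finset.prod_const_one]

theorem samplea_shift {H : Type*} [NormedAddCommGroup H] [InnerProductSpace ℝ H] {ι : Type*}
    (Ω : Finset ι) (ν : ι → ℝ) (v : ι → H) (h1 : ∑ z ∈ Ω, ν z = 1) (s : H) :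
    ∑ z ∈ Ω, ν z * ‖v z + s‖ ^ 2 =
      ∑ z ∈ Ω, ν z * ‖v z‖ ^ 2 + 2 * ⟪∑ z ∈ Ω, ν z • v z, s⟫_ℝ + ‖s‖ ^ 2 := by
  rw [sum_inner, Finset.mul_sum, ← one_mul (‖s‖ ^ 2), ← h1, Finset.sum_mul,
    ← Finset.sum_add_distrib, ← Finset.sum_add_distrib]
  refine Finset.sum_congr rfl fun z _ => ?_
  rw [norm_add_sq_real, real_inner_smul_left]
  ring

theorem sample_moment {H : Type*} [NormedAddCommGroup H] [InnerProductSpace ℝ H] {ι : Type*}
    [DecidableEq ι] (Ω : Finset ι) (ν : ι → ℝ) (v : ι → H) (h1 : ∑ z ∈ Ω, ν z = 1)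
    (h0 : ∑ z ∈ Ω, ν z • v z = 0) (k : ℕ) :
    ∑ w ∈ Fintype.piFinset (fun _ : Fin k => Ω), (∏ i, ν (w i)) * ‖∑ i, v (w i)‖ ^ 2 =
      k * ∑ z ∈ Ω, ν z * ‖v z‖ ^ 2 := by
  induction k with
  | zero => simp
  | succ k ih =>
    rw [samplea_cons, Finset.sum_congr rfl (g := fun w => (∏ i, ν (w i)) *
      ∑ z ∈ Ω, ν z * ‖v z‖ ^ 2 + (∏ i, ν (w i)) * ‖∑ i, v (w i)‖ ^ 2) fun w _ => ?_,
      Finset.sum_add_distrib, ih, ← Finset.sum_mul, samplea_one Ω ν h1]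
    · push_cast
      ring
    · have h := samplea_shift Ω ν v h1 (∑ i, v (w i))
      rw [h0, inner_zero_left, mul_zero, add_zero] at h
      rw [← mul_add, ← h, Finset.mul_sum]
      refine Finset.sum_congr rfl fun z _ => ?_
      simp only [Fin.prod_univ_succ, Fin.sum_univ_succ, Fin.cons_zero, Fin.cons_succ]
      ring

theorem sample_good {H : Type*} [NormedAddCommGroup H] [InnerProductSpace ℝ H] {ι : Type*}
    [DecidableEq ι] (Ω : Finset ι) (ν : ι → ℝ) (v : ι → H) (hν0 : ∀ z ∈ Ω, 0 ≤ ν z)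
    (hν1 : ∑ z ∈ Ω, ν z = 1) (hv : ∀ z ∈ Ω, ‖v z‖ ≤ 1) {p : ℝ} (hp : ∀ z ∈ Ω, ν z ≤ p)
    {k : ℕ} (hk : 1 ≤ k) {η : ℝ} (hη : 0 ≤ η) (hkη : 2 ≤ k * η ^ 2) :
    ∃ 𝒢 : Finset (Fin k → ι), (∀ w ∈ 𝒢, (∀ i, w i ∈ Ω) ∧
      ‖(k : ℝ)⁻¹ • ∑ i, v (w i) - ∑ z ∈ Ω, ν z • v z‖ ≤ η) ∧ 1 ≤ 2 * p ^ k * 𝒢.card := by
  classical
  obtain ⟨m, hm⟩ : ∃ m, ∑ z ∈ Ω, ν z • v z = m := ⟨_, rfl⟩
  have k0 : (0 : ℝ) < k := by exact_mod_cast hk
  have h1 := sample_moment Ω ν (fun z => v z + -m) hν1 (by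
    simp only [smul_add, Finset.sum_add_distrib, hm]
    rw [← Finset.sum_smul, hν1, one_smul, add_neg_cancel]) k
  have h2 : ∑ z ∈ Ω, ν z * ‖v z + -m‖ ^ 2 ≤ 1 := by
    have h3 : ∑ z ∈ Ω, ν z * ‖v z‖ ^ 2 ≤ ∑ z ∈ Ω, ν z := Finset.sum_le_sum fun z hz =>
      mul_le_of_le_one_right (hν0 z hz) (pow_le_one₀ (norm_nonneg _) (hv z hz))
    rw [samplea_shift Ω ν v hν1, hm, inner_neg_right, real_inner_self_eq_norm_sq, norm_neg]
    nlinarith [sq_nonneg ‖m‖]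
  have w0 : ∀ w ∈ Fintype.piFinset (fun _ : Fin k => Ω), 0 ≤ ∏ i, ν (w i) := fun w hw =>
    Finset.prod_nonneg fun i _ => hν0 _ (Fintype.mem_piFinset.1 hw i)
  rw [hm]
  set P : (Fin k → ι) → Prop := fun w => ‖(k : ℝ)⁻¹ • ∑ i, v (w i) - m‖ ≤ η with hP
  refine ⟨(Fintype.piFinset fun _ : Fin k => Ω).filter P, fun w hw =>
    ⟨Fintype.mem_piFinset.1 (Finset.mem_filter.1 hw).1, (Finset.mem_filter.1 hw).2⟩, ?_⟩
  have h4 := Finset.sum_filter_add_sum_filter_not (Fintype.piFinset fun _ : Fin k => Ω) P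
    fun w => ∏ i, ν (w i)
  rw [samplea_one Ω ν hν1] at h4
  have h5 : ∑ w ∈ (Fintype.piFinset fun _ : Fin k => Ω).filter P, ∏ i, ν (w i) ≤
      ((Fintype.piFinset fun _ : Fin k => Ω).filter P).card * p ^ k := by
    rw [← nsmul_eq_mul]
    refine Finset.sum_le_card_nsmul _ _ _ fun w hw => ?_
    have h := Fintype.mem_piFinset.1 (Finset.mem_filter.1 hw).1
    refine (Finset.prod_le_prod (fun i _ => hν0 _ (h i)) fun i _ => hp _ (h i)).trans ?_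
    simp
  have h6 : (∑ w ∈ (Fintype.piFinset fun _ : Fin k => Ω).filter (fun w => ¬ P w), ∏ i, ν (w i)) *
      (2 * k) ≤ k * ∑ z ∈ Ω, ν z * ‖v z + -m‖ ^ 2 := by
    rw [← h1, Finset.sum_mul]
    refine (Finset.sum_le_sum fun w hw => ?_).trans (Finset.sum_le_sum_of_subset_of_nonneg
      (Finset.filter_subset _ _) fun w hw _ => mul_nonneg (w0 w hw) (sq_nonneg _))
    obtain ⟨a1, a2⟩ := Finset.mem_filter.1 hw
    refine mul_le_mul_of_nonneg_left ?_ (w0 w a1)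
    have e : ∑ i, (v (w i) + -m) = (k : ℝ) • ((k : ℝ)⁻¹ • ∑ i, v (w i) - m) := by
      rw [smul_sub, smul_inv_smul₀ k0.ne', Finset.sum_add_distrib, Finset.sum_const,
        Finset.card_univ, Fintype.card_fin, ← Nat.cast_smul_eq_nsmul ℝ, smul_neg, sub_eq_add_neg]
    have a3 := pow_le_pow_left₀ hη (not_le.1 a2).le 2
    rw [e, norm_smul, mul_pow, Real.norm_of_nonneg k0.le]
    nlinarith [mul_le_mul_of_nonneg_left a3 (sq_nonneg (k : ℝ))]
  have h7 := mul_le_mul_of_nonneg_left h2 k0.le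
  have h8 : (∑ w ∈ (Fintype.piFinset fun _ : Fin k => Ω).filter (fun w => ¬ P w), ∏ i, ν (w i)) ≤
      1 / 2 := le_of_mul_le_mul_right (a := 2 * (k : ℝ)) (by linarith) (by linarith)
  linarith

end

section

theorem sample_shift {G : Type*} [Group G] [DecidableEq G] {k : ℕ} (𝒢 : Finset (Fin k → G))
    (S W : Finset G) (h : ∀ z ∈ 𝒢, ∀ s ∈ S, ∀ i, z i * s ∈ W) :
    ∃ S' ⊆ S, ∃ w : Fin k → G, (∀ s ∈ S', (fun i => w i * s⁻¹) ∈ 𝒢) ∧
      𝒢.card * S.card ≤ W.card ^ k * S'.card := by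
  classical
  rcases (𝒢 ×ˢ S).eq_empty_or_nonempty with he | ⟨⟨z₀, s₀⟩, h₀⟩
  · refine ⟨∅, Finset.empty_subset _, fun _ => 1, by simp, ?_⟩
    rw [← Finset.card_product, he]
    simp
  have hc : ∀ p ∈ 𝒢 ×ˢ S, (fun i => p.1 i * p.2) ∈ Fintype.piFinset fun _ : Fin k => W := by
    intro p hp
    rw [Finset.mem_product] at hp
    exact Fintype.mem_piFinset.2 fun i => h _ hp.1 _ hp.2 i
  obtain ⟨P, hP, hcard, hcol⟩ := packing_pigeon (𝒢 ×ˢ S) (Fintype.piFinset fun _ : Fin k => W)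
    ⟨_, hc _ h₀⟩ (fun p => fun i => p.1 i * p.2) hc
  rw [Finset.card_product, Fintype.card_piFinset, Finset.prod_const, Finset.card_univ,
    Fintype.card_fin] at hcard
  rcases P.eq_empty_or_nonempty with hP0 | ⟨q, hq⟩
  · refine ⟨∅, Finset.empty_subset _, fun _ => 1, by simp, ?_⟩
    simpa [hP0] using hcard
  have hinj : Set.InjOn Prod.snd (P : Set ((Fin k → G) × G)) := by
    intro p hp p' hp' hs
    have e := hcol p hp p' hp'
    refine Prod.ext (funext fun i => ?_) hs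
    have := congrFun e i
    rw [hs] at this
    exact mul_right_cancel this
  refine ⟨P.image Prod.snd, ?_, fun i => q.1 i * q.2, ?_, ?_⟩
  · intro s hs
    obtain ⟨p, hp, rfl⟩ := Finset.mem_image.1 hs
    exact (Finset.mem_product.1 (hP hp)).2
  · intro s hs
    obtain ⟨p, hp, rfl⟩ := Finset.mem_image.1 hs
    have e := hcol q hq p hp
    have e' : (fun i => q.1 i * q.2 * p.2⁻¹) = p.1 := by
      funext i
      have := congrFun e i
      rw [this, mul_inv_cancel_right]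
    rw [e']
    exact (Finset.mem_product.1 (hP hp)).1
  · rwa [Finset.card_image_of_injOn hinj]

end

section

variable {G : Type*} [Group G] [DecidableEq G]

theorem sampleb_num {L β : ℝ} {k : ℕ} (hL : 0 ≤ L) (hβ : 500 * (L + 1) ≤ β)
    (hk : (k : ℝ) ≤ 33 * β ^ 2) :
    2 * (Real.exp (4 / 25 * β) * Real.exp L) ^ k ≤ Real.exp (34 * β ^ 3) := by
  have h2 : (2 : ℝ) ≤ Real.exp 1 := by linarith [Real.add_one_le_exp (1 : ℝ)]
  have hb : (1 : ℝ) ≤ β := by linarith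
  have h3 : (k : ℝ) * (4 / 25 * β + L) ≤ 33 * β ^ 2 * β :=
    mul_le_mul hk (by linarith) (by linarith) (by positivity)
  have h4 : (1 : ℝ) ≤ β ^ 3 := one_le_pow₀ hb
  rw [← Real.exp_add, ← Real.exp_nat_mul]
  calc 2 * Real.exp (k * (4 / 25 * β + L)) ≤ Real.exp 1 * Real.exp (k * (4 / 25 * β + L)) :=
        mul_le_mul_of_nonneg_right h2 (Real.exp_pos _).le
    _ = Real.exp (1 + k * (4 / 25 * β + L)) := (Real.exp_add _ _).symm
    _ ≤ Real.exp (34 * β ^ 3) := Real.exp_le_exp.2 (by nlinarith)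

omit [DecidableEq G] in
theorem sampleb_close {m ζ V : L2 G} {s s₀ : G} {η ε : ℝ} (h : ‖R s V - m‖ ≤ η)
    (h₀ : ‖R s₀ V - m‖ ≤ η) (hm : ‖m - ζ‖ ≤ ε) : ‖R (s * s₀⁻¹) ζ - ζ‖ ≤ 2 * η + 2 * ε := by
  have e1 : R (s * s₀⁻¹) (R s₀ V) = R s V := by rw [← R_mul, inv_mul_cancel_right]
  have e2 : R (s * s₀⁻¹) ζ - ζ =
      (R s V - m) + (m - ζ) - (R (s * s₀⁻¹) (R s₀ V - m) + R (s * s₀⁻¹) (m - ζ)) := by
    rw [map_sub, map_sub, e1]
    abel
  have h1 := norm_sub_le ((R s V - m) + (m - ζ))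
    (R (s * s₀⁻¹) (R s₀ V - m) + R (s * s₀⁻¹) (m - ζ))
  have h2 := norm_add_le (R s V - m) (m - ζ)
  have h3 := norm_add_le (R (s * s₀⁻¹) (R s₀ V - m)) (R (s * s₀⁻¹) (m - ζ))
  rw [norm_R, norm_R] at h3
  rw [e2]
  linarith

theorem sample {Y S : Finset G} {L β ε : ℝ} {ζ : L2 G} (hF : Fol Y S L)
    (hG : Gib Y S β (ε ^ 2) ζ) (hβ : 500 * (L + 1) ≤ β) (hε0 : 0 ≤ ε) (hε : 4 * ε ≤ 1 / β) :
    (S.card : ℝ) ≤ Real.exp (34 * β ^ 3) * (gU Y β ζ).card := by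
  have hL := hF.L_nonneg
  have hb : (500 : ℝ) ≤ β := by linarith
  have hb0 : (0 : ℝ) < β := by linarith
  have hS : (0 : ℝ) < S.card := by exact_mod_cast Finset.card_pos.2 ⟨1, hF.one⟩
  have hZ := hG.gZ_pos hF
  obtain ⟨k, hk1, hk2⟩ : ∃ k : ℕ, 32 * β ^ 2 ≤ k ∧ (k : ℝ) ≤ 33 * β ^ 2 :=
    ⟨⌈32 * β ^ 2⌉₊, Nat.le_ceil _, by
      have := Nat.ceil_lt_add_one (a := 32 * β ^ 2) (by positivity)
      nlinarith⟩
  have hk : 1 ≤ k := by
    have : (1 : ℝ) ≤ k := by nlinarith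
    exact_mod_cast this
  have hp : ∀ z ∈ Om Y ζ, gnu Y β ζ z ≤ Real.exp (4 / 25 * β) / S.card := fun z _ => by
    have h1 : cor Y ζ z ≤ 1 := (cor_le hF.ne ζ z).trans hG.norm_le
    have h2 : Real.exp (β * cor Y ζ z) ≤ Real.exp (4 / 25 * β) * Real.exp (21 / 25 * β) := by
      rw [← Real.exp_add]
      exact Real.exp_le_exp.2 (by nlinarith)
    unfold gnu
    rw [div_le_div_iff₀ hZ hS]
    calc Real.exp (β * cor Y ζ z) * S.card
        ≤ Real.exp (4 / 25 * β) * Real.exp (21 / 25 * β) * S.card :=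
          mul_le_mul_of_nonneg_right h2 hS.le
      _ = Real.exp (4 / 25 * β) * (S.card * Real.exp (21 / 25 * β)) := by ring
      _ ≤ _ := mul_le_mul_of_nonneg_left hG.big (Real.exp_pos _).le
  have hkη : 2 ≤ (k : ℝ) * (1 / (4 * β)) ^ 2 := by
    have e : (2 : ℝ) = 32 * β ^ 2 * (1 / (4 * β)) ^ 2 := by
      field_simp
      norm_num
    rw [e]
    exact mul_le_mul_of_nonneg_right hk1 (by positivity)
  obtain ⟨𝒢, h𝒢, hc⟩ := sample_good (Om Y ζ) (gnu Y β ζ) (xi Y) (fun z _ => gnu_nonneg Y β ζ z)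
    (sum_gnu hZ) (fun z _ => (norm_xi hF.ne z).le) hp hk (η := 1 / (4 * β)) (by positivity) hkη
  obtain ⟨S', -, w, hw, hc'⟩ := sample_shift 𝒢 S (Y ^ 4) fun z hz s hs i => by
    rw [show (4 : ℕ) = 2 + 2 from rfl, pow_add]
    exact Finset.mul_mem_mul (Om_subset hF hG ((h𝒢 z hz).1 i)) (hF.subset hs)
  have hc2 : (𝒢.card : ℝ) * S.card ≤ (Real.exp L * S.card) ^ k * S'.card := by
    have h1 : (𝒢.card : ℝ) * S.card ≤ ((Y ^ 4).card : ℝ) ^ k * S'.card := by exact_mod_cast hc'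
    exact h1.trans (mul_le_mul_of_nonneg_right
      (pow_le_pow_left₀ (Nat.cast_nonneg _) hF.card k) (Nat.cast_nonneg _))
  have hmain : (S.card : ℝ) ≤ Real.exp (34 * β ^ 3) * S'.card := by
    have e : (Real.exp (4 / 25 * β) / S.card) ^ k * (Real.exp L * S.card) ^ k =
        (Real.exp (4 / 25 * β) * Real.exp L) ^ k := by
      rw [← mul_pow]
      congr 1
      field_simp
    calc (S.card : ℝ) = 1 * S.card := (one_mul _).symm
      _ ≤ 2 * (Real.exp (4 / 25 * β) / S.card) ^ k * 𝒢.card * S.card :=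
          mul_le_mul_of_nonneg_right hc hS.le
      _ = 2 * (Real.exp (4 / 25 * β) / S.card) ^ k * (𝒢.card * S.card) := by ring
      _ ≤ 2 * (Real.exp (4 / 25 * β) / S.card) ^ k * ((Real.exp L * S.card) ^ k * S'.card) :=
          mul_le_mul_of_nonneg_left hc2 (by positivity)
      _ = 2 * (Real.exp (4 / 25 * β) * Real.exp L) ^ k * S'.card := by rw [← e]; ring
      _ ≤ _ := mul_le_mul_of_nonneg_right (sampleb_num hL hβ hk2) (Nat.cast_nonneg _)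
  rcases S'.eq_empty_or_nonempty with h | ⟨s₀, hs₀⟩
  · rw [h, Finset.card_empty, Nat.cast_zero, mul_zero] at hmain
    linarith
  have hV : ∀ s ∈ S', ‖R s ((k : ℝ)⁻¹ • ∑ i, xi Y (w i)) - gm Y β ζ‖ ≤ 1 / (4 * β) := by
    intro s hs
    have h1 := (h𝒢 _ (hw s hs)).2
    rw [map_smul, map_sum]
    simp only [R_xi]
    exact h1
  have hm : ‖gm Y β ζ - ζ‖ ≤ ε :=
    (pow_le_pow_iff_left₀ (norm_nonneg _) hε0 two_ne_zero).1 hG.fix
  have hcard : S'.card ≤ (gU Y β ζ).card := by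
    refine Finset.card_le_card_of_injOn (fun s => s * s₀⁻¹) (fun s hs => ?_)
      fun a _ b _ h => mul_right_cancel h
    have h1 := sampleb_close (hV s hs) (hV s₀ hs₀) hm
    have e : 1 / β = 4 * (1 / (4 * β)) := by field_simp
    exact Finset.mem_coe.2 ((mem_gU hF hG (by linarith)).2 (by linarith))
  exact hmain.trans (mul_le_mul_of_nonneg_left (by exact_mod_cast hcard) (Real.exp_pos _).le)

end

section

variable {G : Type*} [Group G] [DecidableEq G]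

/-- A sequence that grows by a factor more than `c` at each step up to `J`. -/
theorem folner_grow (a : ℕ → ℝ) (c : ℝ) (hc : 0 < c) (J : ℕ)
    (h : ∀ j, j < J + 1 → c * a j < a (j + 1)) : c ^ (J + 1) * a 0 < a (J + 1) := by
  induction J with
  | zero => simpa using h 0 (by omega)
  | succ n ih =>
    have h1 := ih fun j hj => h j (by omega)
    have h2 := h (n + 1) (by omega)
    calc c ^ (n + 1 + 1) * a 0 = c * (c ^ (n + 1) * a 0) := by ring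
      _ < c * a (n + 1) := mul_lt_mul_of_pos_left h1 hc
      _ < _ := h2

theorem folner_symm {B S : Finset G} (hs : B⁻¹ = B) (hS : S⁻¹ = S) (j : ℕ) :
    (S ^ j * B * S ^ j)⁻¹ = S ^ j * B * S ^ j := by
  rw [mul_inv_rev, mul_inv_rev, ← inv_pow, hS, hs, mul_assoc]

theorem folner_sub {B S : Finset G} (h1 : (1 : G) ∈ S) (j : ℕ) : B ⊆ S ^ j * B * S ^ j := by
  have h : (1 : G) ∈ S ^ j := Finset.one_mem_pow h1
  exact (Finset.subset_mul_right B h).trans (Finset.subset_mul_left _ h)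

theorem folner_nine {B S : Finset G} (h1 : (1 : G) ∈ S) {J j : ℕ} (hj : j ≤ J)
    (hS : S ^ J ⊆ B ^ 4) : S ^ j * B * S ^ j ⊆ B ^ 9 := by
  have h : S ^ j ⊆ B ^ 4 := (Finset.pow_subset_pow_right h1 hj).trans hS
  have e : B ^ 9 = B ^ 4 * B * B ^ 4 := by
    rw [← pow_succ, ← pow_add]
  rw [e]
  exact Finset.mul_subset_mul (Finset.mul_subset_mul h subset_rfl) h

theorem folner_step {B S : Finset G} (h1 : (1 : G) ∈ S) (j : ℕ) :
    S ^ j * B * S ^ j * S ⊆ S ^ (j + 1) * B * S ^ (j + 1) := by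
  rw [mul_assoc _ (S ^ j) S, ← pow_succ]
  exact Finset.mul_subset_mul
    (Finset.mul_subset_mul (Finset.pow_subset_pow_right h1 (Nat.le_succ j)) subset_rfl) subset_rfl

theorem folner {B : Finset G} (h1 : (1 : G) ∈ B) (hs : B⁻¹ = B) {K : ℝ} (hK : 1 ≤ K)
    (h3 : ((B ^ 3).card : ℝ) ≤ K * B.card) :
    ∃ Y S : Finset G, Fol Y S (Real.log (8 * K) ^ 28) ∧ B ⊆ Y ∧ Y ⊆ B ^ 9 := by
  have hl := numq_two hK
  have hB : B.Nonempty := ⟨1, h1⟩
  have hJ : 1 ≤ ⌈707 * Real.log (8 * K)⌉₊ := Nat.one_le_iff_ne_zero.2 (by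
    rw [ne_eq, Nat.ceil_eq_zero, not_le]; linarith)
  obtain ⟨S, hS1, hSs, hSJ, hSc⟩ :=
    Pool.Agent.MP_34e614_co.croot_sisask B hB hs K hK h3 _ _ hJ (numq_exp hK)
  have hf1 := numq_fol1 hK
  have hf2 := numq_fol2 hK
  generalize ⌈707 * Real.log (8 * K)⌉₊ = J at hJ hSJ hSc hf1 hf2
  obtain ⟨J, rfl⟩ : ∃ J', J = J' + 1 := ⟨J - 1, by omega⟩
  have hB0 : (0 : ℝ) ≤ B.card := Nat.cast_nonneg _
  have hex : ∃ j, j < J + 1 ∧ ((S ^ (j + 1) * B * S ^ (j + 1)).card : ℝ) ≤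
      101 / 100 * (S ^ j * B * S ^ j).card := by
    by_contra hcon
    have hgrow := folner_grow (fun j => ((S ^ j * B * S ^ j).card : ℝ)) (101 / 100) (by norm_num) J
      (fun j hj => lt_of_not_ge fun hge => hcon ⟨j, hj, hge⟩)
    simp only [pow_zero, one_mul, mul_one] at hgrow
    have h9 : ((B ^ 9).card : ℝ) ≤ K ^ (9 - 2) * B.card :=
      Finset.small_pow_of_small_tripling (by norm_num) h3 hs
    have hsub : ((S ^ (J + 1) * B * S ^ (J + 1)).card : ℝ) ≤ (B ^ 9).card := by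
      exact_mod_cast Finset.card_le_card (folner_nine hS1 le_rfl hSJ)
    have h7 : K ^ (9 - 2) * (B.card : ℝ) ≤ (101 / 100 : ℝ) ^ (J + 1) * B.card :=
      mul_le_mul_of_nonneg_right hf1 hB0
    exact lt_irrefl _ (hgrow.trans_le (hsub.trans (h9.trans h7)))
  obtain ⟨j, hj, hjc⟩ := hex
  have hY9 : S ^ j * B * S ^ j ⊆ B ^ 9 := folner_nine hS1 hj.le hSJ
  have hYne : (S ^ j * B * S ^ j).Nonempty := hB.mono (folner_sub hS1 j)
  have hYs := folner_symm hs hSs j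
  refine ⟨S ^ j * B * S ^ j, S, ⟨hYne, hYs, hS1, fun s hsS => ?_, by positivity, ?_⟩,
    folner_sub hS1 j, hY9⟩
  · refine inner_xi_fol hYne hYs hS1 (le_trans ?_ hjc) hsS
    exact_mod_cast Finset.card_le_card (folner_step hS1 j)
  · have h36 : ((B ^ 36).card : ℝ) ≤ K ^ (36 - 2) * B.card :=
      Finset.small_pow_of_small_tripling (by norm_num) h3 hs
    have hsub : (S ^ j * B * S ^ j) ^ 4 ⊆ B ^ 36 := by
      rw [show (36 : ℕ) = 9 * 4 from rfl, pow_mul]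
      exact Finset.pow_subset_pow_left hY9
    have hc : (((S ^ j * B * S ^ j) ^ 4).card : ℝ) ≤ (B ^ 36).card := by
      exact_mod_cast Finset.card_le_card hsub
    have hK0 : (0 : ℝ) ≤ K ^ 34 := by positivity
    calc (((S ^ j * B * S ^ j) ^ 4).card : ℝ) ≤ K ^ 34 * B.card := hc.trans h36
      _ ≤ K ^ 34 * (2 * K ^ (16 * (J + 1) ^ 2 * ⌈Real.log (8 * K)⌉₊) * S.card) :=
          mul_le_mul_of_nonneg_left hSc hK0
      _ = K ^ 34 * (2 * K ^ (16 * (J + 1) ^ 2 * ⌈Real.log (8 * K)⌉₊)) * S.card := by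
          rw [mul_assoc (K ^ 34)]
      _ ≤ _ := mul_le_mul_of_nonneg_right hf2 (Nat.cast_nonneg _)

end

section

variable {G : Type*} [Group G] [DecidableEq G]

theorem pre_win {A : Finset G} (hA : A.Nonempty) (hs : A⁻¹ = A) {K : ℝ} (hK : 1 ≤ K)
    (h3 : ((A ^ 3).card : ℝ) ≤ K * A.card) :
    ∃ Y S : Finset G, Fol Y S (Real.log (8 * K) ^ 420) ∧ Y ^ 2 ⊆ A ^ 4 ∧
      ((A ^ 4).card : ℝ) ≤ Real.exp (Real.log (8 * K) ^ 15) * Y.card := by
  obtain ⟨B, h1, hB, h18, hc⟩ := croot_sisask A hA hs K hK h3 18 _ (by norm_num) (numq_exp hK)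
  have hp := numq_pre hK
  have h0 : 1 ≤ K ^ (16 * 18 ^ 2 * ⌈Real.log (8 * K)⌉₊) := one_le_pow₀ hK
  have h2 : 1 ≤ K ^ 2 := one_le_pow₀ hK
  have h4 := Finset.small_pow_of_small_tripling (m := 4) (by norm_num) h3 hs
  replace h4 := h4.trans (mul_le_mul_of_nonneg_left hc (by positivity))
  rw [← mul_assoc, show 4 - 2 = 2 from rfl] at h4
  have hK1 : 1 ≤ K ^ 2 * (2 * K ^ (16 * 18 ^ 2 * ⌈Real.log (8 * K)⌉₊)) := by nlinarith
  generalize K ^ 2 * (2 * K ^ (16 * 18 ^ 2 * ⌈Real.log (8 * K)⌉₊)) = K₁ at hp h4 hK1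
  obtain ⟨Y, S, hF, hBY, hY⟩ := folner h1 hB hK1 ((Nat.cast_le.2 (Finset.card_le_card
    ((Finset.pow_subset_pow_right h1 (by norm_num)).trans h18))).trans h4)
  have h5 : Real.log (8 * K₁) ^ 28 ≤ Real.log (8 * K) ^ 420 := by
    rw [show 420 = 15 * 28 from rfl, pow_mul]
    exact pow_le_pow_left₀ (by linarith [numq_two hK1])
      ((Real.log_le_iff_le_exp (by linarith)).2 hp) 28
  refine ⟨Y, S, ⟨hF.ne, hF.symm, hF.one, hF.fol, hF.L_nonneg.trans h5, hF.card.trans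
    (mul_le_mul_of_nonneg_right (Real.exp_le_exp.2 h5) (Nat.cast_nonneg _))⟩, ?_, h4.trans ?_⟩
  · refine (Finset.pow_subset_pow_left hY).trans ?_
    rwa [← pow_mul]
  · exact mul_le_mul (by linarith) (Nat.cast_le.2 (Finset.card_le_card hBY)) (Nat.cast_nonneg _)
      (Real.exp_pos _).le

end

end Pool.Agent.MP_34e614_co.H31
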