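import Pool.Agent.MP_34e614_co.H31.PartB
import Pool.Agent.MP_34e614_co.H31.PartC
import Pool.Agent.MP_34e614_co.H31.PartD

set_option autoImplicit false

open scoped Pointwise InnerProductSpace

namespace Pool.Agent.MP_34e614_co.H31

section

variable {G : Type*} [Group G] [DecidableEq G]

/-- The large weight. -/
noncomputable def winqW (Y : Finset G) (β : ℝ) (ζ : L2 G) (x : G) : ℝ :=
  if x ∈ Om Y ζ then √(Y.card * gnu Y β ζ x) else 0

/-- The small weight. -/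
noncomputable def winqV (Y : Finset G) (β : ℝ) (ζ : L2 G) (x : G) : ℝ :=
  if 4 / 5 ≤ cor Y ζ x then winqW Y β ζ x else 0

theorem winq_nonneg (Y : Finset G) (β : ℝ) (ζ : L2 G) (x : G) : 0 ≤ winqW Y β ζ x := by
  unfold winqW
  split_ifs
  · exact Real.sqrt_nonneg _
  · exact le_rfl

theorem winq_sq {Y : Finset G} {β : ℝ} {ζ : L2 G} {x : G} (hx : x ∈ Om Y ζ) :
    winqW Y β ζ x ^ 2 = Y.card * gnu Y β ζ x := by
  unfold winqW
  rw [if_pos hx, Real.sq_sqrt (mul_nonneg (Nat.cast_nonneg _) (gnu_nonneg Y β ζ x))]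

theorem winq_mem {Y : Finset G} {β : ℝ} {ζ : L2 G} {x : G} (hx : winqW Y β ζ x ≠ 0) :
    x ∈ Om Y ζ := by
  by_contra h
  exact hx (by unfold winqW; rw [if_neg h])

theorem winq_exp_two : Real.exp 2 ≤ 8 := by
  have h := Real.exp_one_lt_d9
  have h0 := Real.exp_pos 1
  have e : Real.exp 2 = Real.exp 1 * Real.exp 1 := by rw [← Real.exp_add]; norm_num
  rw [e]
  nlinarith

theorem winq_shift {Y S : Finset G} {L β σ C : ℝ} {ζ : L2 G} (hF : Fol Y S L)
    (hG : Gib Y S β σ ζ) (hβ : 40 ≤ β) (hC : 8 ≤ C) (x : G) {z z' : G} (hz : z ∈ gU Y β ζ)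
    (hz' : z' ∈ gU Y β ζ) : winqV Y β ζ (x * z * z') ^ 2 ≤ C * winqW Y β ζ x ^ 2 := by
  have hβ0 : 0 < β := by linarith
  unfold winqV
  split_ifs with h
  · have h1 := (cor_sub hF.ne ζ x z).trans ((mem_gU hF hG (by linarith)).1 hz)
    have h2 := (cor_sub hF.ne ζ (x * z) z').trans ((mem_gU hF hG (by linarith)).1 hz')
    have h3 : cor Y ζ (x * z * z') ≤ cor Y ζ x + 2 * (1 / β) := by
      have := (abs_le.1 h1).2
      have := (abs_le.1 h2).2
      linarith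
    have h4 : 1 / β ≤ 1 / 40 := one_div_le_one_div_of_le (by norm_num) hβ
    have hx : x ∈ Om Y ζ := mem_Om.2 (by linarith)
    have hx' : x * z * z' ∈ Om Y ζ := mem_Om.2 (by linarith)
    rw [winq_sq hx, winq_sq hx']
    have hZ := hG.gZ_pos hF
    have h5 : β * cor Y ζ (x * z * z') ≤ 2 + β * cor Y ζ x := by
      have := mul_le_mul_of_nonneg_left h3 hβ0.le
      have e : β * (cor Y ζ x + 2 * (1 / β)) = 2 + β * cor Y ζ x := by field_simp; ring
      linarith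
    have h6 : gnu Y β ζ (x * z * z') ≤ C * gnu Y β ζ x := by
      unfold gnu
      rw [← mul_div_assoc]
      refine div_le_div_of_nonneg_right ?_ hZ.le
      refine (Real.exp_le_exp.2 h5).trans ?_
      rw [Real.exp_add]
      exact mul_le_mul_of_nonneg_right (winq_exp_two.trans hC) (Real.exp_pos _).le
    calc (Y.card : ℝ) * gnu Y β ζ (x * z * z') ≤ Y.card * (C * gnu Y β ζ x) :=
          mul_le_mul_of_nonneg_left h6 (Nat.cast_nonneg _)
      _ = _ := by ring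
  · have : 0 ≤ C := by linarith
    rw [zero_pow two_ne_zero]
    positivity

theorem winq_sum {Y : Finset G} {β : ℝ} {ζ : L2 G} (hZ : 0 < gZ Y β ζ) :
    ∑ x ∈ Om Y ζ, winqW Y β ζ x ^ 2 = Y.card := by
  rw [Finset.sum_congr rfl fun x hx => winq_sq hx, ← Finset.mul_sum, sum_gnu hZ, mul_one]

theorem winq_tail {Y S : Finset G} {L β ε : ℝ} {ζ : L2 G} (hF : Fol Y S L)
    (hG : Gib Y S β (ε ^ 2) ζ) (hβ : 40 ≤ β) (hσ : 2 * Real.exp (L - β / 50) ≤ ε ^ 2) :
    ∑ x ∈ Om Y ζ, (winqW Y β ζ x - winqV Y β ζ x) ^ 2 ≤ ε ^ 2 * Y.card := by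
  have hβ0 : 0 < β := by linarith
  have hZ := hG.gZ_pos hF
  have hN : (0 : ℝ) ≤ Y.card := Nat.cast_nonneg _
  have h1 : ∀ x ∈ Om Y ζ, (winqW Y β ζ x - winqV Y β ζ x) ^ 2
      ≤ Y.card * (Real.exp (4 / 5 * β) / gZ Y β ζ) := by
    intro x hx
    unfold winqV
    split_ifs with h
    · rw [sub_self, zero_pow two_ne_zero]
      positivity
    · rw [sub_zero, winq_sq hx]
      refine mul_le_mul_of_nonneg_left ?_ hN
      unfold gnu
      refine div_le_div_of_nonneg_right (Real.exp_le_exp.2 ?_) hZ.le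
      have := mul_le_mul_of_nonneg_left (not_le.1 h).le hβ0.le
      linarith
  have h2 : ((Om Y ζ).card : ℝ) ≤ Real.exp L * S.card :=
    le_trans (by exact_mod_cast card_Om_le hF.ne hF.symm hG.norm_le) hF.card
  have h3 : ((Om Y ζ).card : ℝ) * (Real.exp (4 / 5 * β) / gZ Y β ζ) ≤ ε ^ 2 := by
    rw [← mul_div_assoc, div_le_iff₀ hZ]
    have h4 : Real.exp (L - β / 25) ≤ ε ^ 2 := by
      have h5 : Real.exp (L - β / 25) ≤ Real.exp (L - β / 50) :=
        Real.exp_le_exp.2 (by linarith)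
      have := Real.exp_pos (L - β / 50)
      linarith
    have e : Real.exp L * Real.exp (4 / 5 * β)
        = Real.exp (L - β / 25) * Real.exp (21 / 25 * β) := by
      rw [← Real.exp_add, ← Real.exp_add]
      congr 1
      ring
    calc ((Om Y ζ).card : ℝ) * Real.exp (4 / 5 * β)
        ≤ Real.exp L * S.card * Real.exp (4 / 5 * β) :=
          mul_le_mul_of_nonneg_right h2 (Real.exp_pos _).le
      _ = (Real.exp L * Real.exp (4 / 5 * β)) * S.card := by ring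
      _ = Real.exp (L - β / 25) * (S.card * Real.exp (21 / 25 * β)) := by rw [e]; ring
      _ ≤ ε ^ 2 * gZ Y β ζ :=
          mul_le_mul h4 hG.big (by positivity) (sq_nonneg _)
  calc _ ≤ ∑ _x ∈ Om Y ζ, Y.card * (Real.exp (4 / 5 * β) / gZ Y β ζ) := Finset.sum_le_sum h1
    _ = ((Om Y ζ).card * (Real.exp (4 / 5 * β) / gZ Y β ζ)) * Y.card := by
        rw [Finset.sum_const, nsmul_eq_mul]; ring
    _ ≤ _ := mul_le_mul_of_nonneg_right h3 hN

/-- The test vector. -/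
noncomputable def winqU (Y : Finset G) (β : ℝ) (ζ : L2 G) : L2 G :=
  mul (fun x => √(gnu Y β ζ x)) (ind (Om Y ζ))

theorem winq_norm {Y : Finset G} {β : ℝ} {ζ : L2 G} (hZ : 0 < gZ Y β ζ) :
    ‖winqU Y β ζ‖ ≤ 1 := by
  have h : ‖winqU Y β ζ‖ ^ 2 = 1 := by
    rw [L2.norm_sq_eq _ (Om Y ζ), ← sum_gnu hZ]
    · refine Finset.sum_congr rfl fun x hx => ?_
      unfold winqU
      rw [ev_mul, ev_ind, if_pos hx, mul_one, Real.sq_sqrt (gnu_nonneg Y β ζ x)]
    · intro x hx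
      by_contra h
      unfold winqU at hx
      rw [ev_mul, ev_ind, if_neg h, mul_zero] at hx
      exact hx rfl
  exact ((pow_eq_one_iff_of_nonneg (norm_nonneg _) two_ne_zero).1 h).le

theorem winq_gm (Y : Finset G) (β : ℝ) (ζ : L2 G) :
    M Y (mul (winqW Y β ζ) (winqU Y β ζ)) = gm Y β ζ := by
  rw [spect_mul (Om Y ζ) (fun x hx => winq_mem hx), map_sum]
  unfold gm
  refine Finset.sum_congr rfl fun x hx => ?_
  unfold xi winqU winqW
  rw [map_smul, smul_smul, ev_mul, ev_ind, if_pos hx, if_pos hx, mul_one,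
    Real.sqrt_mul (Nat.cast_nonneg _), mul_assoc, Real.mul_self_sqrt (gnu_nonneg Y β ζ x),
    mul_comm]

theorem exists_winQ {Y S : Finset G} {L β ε C : ℝ} {ζ : L2 G} (hF : Fol Y S L)
    (hG : Gib Y S β (ε ^ 2) ζ) (hβ : 40 ≤ β) (hε0 : 0 ≤ ε) (hε : 8 * ε ≤ 1 / β)
    (hσ : 2 * Real.exp (L - β / 50) ≤ ε ^ 2) (hC : 8 ≤ C) :
    ∃ ω₀ ω : G → ℝ, WinQ Y (gU Y β ζ) ω₀ ω C ε (1 / (2 * β)) := by
  have hβ0 : 0 < β := by linarith
  have hZ := hG.gZ_pos hF
  have hU : ∀ {g : G}, g ∈ gU Y β ζ ↔ ‖R g ζ - ζ‖ ≤ 1 / β := mem_gU hF hG (by linarith)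
  have htail := winq_tail hF hG hβ hσ
  refine ⟨winqV Y β ζ, winqW Y β ζ, ?_, ?_, ?_, ?_, ?_, ?_⟩
  · rw [hU, R_one, sub_self, norm_zero]
    positivity
  · intro x
    unfold winqV
    split_ifs
    · exact winq_nonneg Y β ζ x
    · exact le_rfl
  · intro x
    unfold winqV
    split_ifs
    · exact le_rfl
    · exact winq_nonneg Y β ζ x
  · intro x z hz z' hz'
    exact winq_shift hF hG hβ hC x hz hz'
  · exact ⟨Om Y ζ, fun x hx => winq_mem hx, by rw [winq_sum hZ, one_pow, one_mul], htail⟩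
  · refine ⟨winqU Y β ζ, winq_norm hZ, fun g hg => ?_⟩
    have hg' : 1 / β < ‖R g ζ - ζ‖ := not_le.1 (mt hU.2 hg)
    have h1 : ‖M Y (mul (fun x => winqW Y β ζ x - winqV Y β ζ x) (winqU Y β ζ))‖
        ≤ ε * ‖winqU Y β ζ‖ := by
      refine hs_M hF.ne hF.symm (Ω := Om Y ζ) (fun x hx => ?_) hε0 htail _
      refine winq_mem (β := β) fun h0 => hx ?_
      unfold winqV
      rw [h0, ite_self, sub_self]
    have h2 : ε * ‖winqU Y β ζ‖ ≤ ε := mul_le_of_le_one_right hε0 (winq_norm hZ)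
    have h3 : ‖gm Y β ζ - ζ‖ ≤ ε :=
      (pow_le_pow_iff_left₀ (norm_nonneg _) hε0 two_ne_zero).1 hG.fix
    have e : M Y (mul (winqV Y β ζ) (winqU Y β ζ)) - ζ = (gm Y β ζ - ζ)
        - M Y (mul (fun x => winqW Y β ζ x - winqV Y β ζ x) (winqU Y β ζ)) := by
      have e1 : mul (fun x => winqW Y β ζ x - winqV Y β ζ x) (winqU Y β ζ)
          = mul (winqW Y β ζ) (winqU Y β ζ) - mul (winqV Y β ζ) (winqU Y β ζ) :=
        L2.ext fun x => by simp only [L2.ev_sub, ev_mul]; ring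
      rw [e1, map_sub, winq_gm]
      abel
    generalize M Y (mul (winqV Y β ζ) (winqU Y β ζ)) = y at e ⊢
    have h4 : ‖y - ζ‖ ≤ 2 * ε := by
      rw [e]
      refine (norm_sub_le _ _).trans ?_
      linarith
    have e2 : R g ζ - ζ = (R g y - y) + ((y - ζ) - R g (y - ζ)) := by
      rw [map_sub]; abel
    have h5 : ‖R g ζ - ζ‖ ≤ ‖R g y - y‖ + (‖y - ζ‖ + ‖y - ζ‖) := by
      rw [e2]
      refine (norm_add_le _ _).trans (add_le_add le_rfl ((norm_sub_le _ _).trans ?_))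
      rw [norm_R]
    have e3 : 1 / (2 * β) = 1 / β / 2 := by field_simp
    rw [e3]
    linarith

end

section

variable {G : Type*} [Group G] [DecidableEq G]

theorem Fol.mono {Y S : Finset G} {L L' : ℝ} (h : Fol Y S L) (hL : L ≤ L') : Fol Y S L' :=
  ⟨h.ne, h.symm, h.one, h.fol, h.L_nonneg.trans hL,
    h.card.trans (mul_le_mul_of_nonneg_right (Real.exp_le_exp.2 hL) (Nat.cast_nonneg _))⟩

theorem nssQ {A : Finset G} (hA : A.Nonempty) (hs : A⁻¹ = A) {K : ℝ} (hK : 1 ≤ K)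
    (h3 : ((A ^ 3).card : ℝ) ≤ K * A.card) {b : ℝ} (hbl : b = Real.log (8 * K) ^ 768) {n₀ : ℕ}
    (hn₀ : 1 ≤ n₀) :
    ∃ a : GroupSeminorm G, NSS (A ^ 4) a ((b ^ 19)⁻¹) (b ^ 124) (Real.exp (b ^ 564)) n₀ := by
  obtain ⟨Y, S, hF₀, hYA, hAY⟩ := pre_win hA hs hK h3
  have hl := numq_two hK
  generalize Real.log (8 * K) = l at hF₀ hAY hl hbl
  have hl1 : 1 ≤ l := by linarith
  have hb40 : (2 : ℝ) ^ 40 ≤ b := by
    have := num_pow hl (i := 0) (j := 768) 40 (by norm_num)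
    rwa [pow_zero, mul_one, ← hbl] at this
  have hb : 2 ≤ b := le_trans (by norm_num) hb40
  have hb0 : 0 < b := by linarith
  have hb1 : ∀ k : ℕ, (1 : ℝ) ≤ b ^ k := fun k => one_le_pow₀ (by linarith)
  have hF : Fol Y S (b / 2 ^ 20) := by
    refine hF₀.mono ?_
    rw [le_div_iff₀ (by positivity), mul_comm, hbl]
    exact num_pow hl 20 (by norm_num)
  have hβ : 500 * (b / 2 ^ 20 + 1) ≤ b := by norm_num at hb40 ⊢; linarith
  have hσ := numq_sigma hb40
  have hε1 : (b ^ 20)⁻¹ ≤ 1 := inv_le_one_of_one_le₀ (hb1 20)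
  have hε0 : (0 : ℝ) ≤ (b ^ 20)⁻¹ := by positivity
  obtain ⟨ζ, hG⟩ := exists_gib hF hβ hσ (pow_le_one₀ hε0 hε1)
  have hε : 8 * (b ^ 20)⁻¹ ≤ 1 / b := by
    rw [← div_eq_mul_inv, div_le_div_iff₀ (by positivity) hb0, one_mul]
    have := num_pow hb (i := 1) (j := 20) 3 (by norm_num)
    norm_num at this
    exact this
  have hC : 8 ≤ b ^ 8 := by
    have := num_pow hb (i := 0) (j := 8) 3 (by norm_num)
    norm_num at this
    exact this
  obtain ⟨ω₀, ω, hW⟩ := exists_winQ hF hG (le_trans (by norm_num) hb40) hε0 hε hσ hC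
  have hU := sample hF hG hβ hε0 (by linarith)
  obtain ⟨a, ha⟩ := keyQ hF.ne hF.symm (le_trans (by norm_num) hb40) hW hn₀
  refine ⟨a, ha.transfer (P' := Real.exp (b ^ 563)) (by positivity)
    ((gU_subset hF hG).trans hYA) (Real.exp_pos _).le (Real.one_le_exp (by positivity)) ?_ ?_⟩
  · have h1 : (Y.card : ℝ) ≤ (Y ^ 4).card := by exact_mod_cast final_card_le hF.ne
    have h2 : l ^ 15 ≤ b := hbl ▸ pow_le_pow_right₀ hl1 (by norm_num)
    have h4 : b ≤ b ^ 3 := le_self_pow₀ (by linarith) (by norm_num)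
    have h5 := num_pow hb (i := 3) (j := 563) 6 (by norm_num)
    have h6 : b / 2 ^ 20 ≤ b := div_le_self hb0.le (by norm_num)
    calc ((A ^ 4).card : ℝ) ≤ Real.exp (l ^ 15) * Y.card := hAY
      _ ≤ Real.exp (l ^ 15) * (Real.exp (b / 2 ^ 20) *
          (Real.exp (34 * b ^ 3) * (gU Y b ζ).card)) :=
        mul_le_mul_of_nonneg_left ((h1.trans hF.card).trans
          (mul_le_mul_of_nonneg_left hU (Real.exp_pos _).le)) (Real.exp_pos _).le
      _ = Real.exp (l ^ 15 + b / 2 ^ 20 + 34 * b ^ 3) * (gU Y b ζ).card := by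
        rw [Real.exp_add, Real.exp_add]; ring
      _ ≤ _ := by
        refine mul_le_mul_of_nonneg_right (Real.exp_le_exp.2 ?_) (Nat.cast_nonneg _)
        generalize b ^ 563 = B at h5 ⊢
        norm_num at h5 h6 ⊢
        linarith
  · rw [← Real.exp_add, Real.exp_le_exp, ← two_mul]
    have := num_pow hb (i := 563) (j := 564) 1 le_rfl
    rwa [pow_one] at this

theorem mainQ {A : Finset G} (hA : A.Nonempty) (hs : A⁻¹ = A) {K : ℝ} (hK : 1 ≤ K)
    (h3 : ((A ^ 3).card : ℝ) ≤ K * A.card) :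
    ∃ (T X : Finset G) (g : G) (H Γ : Subgroup G), T ⊆ A ^ 4 ∧ T.Nonempty ∧
      (∀ x ∈ T, x ∈ Subgroup.zpowers g) ∧ (H : Set G) ⊆ ↑(A ^ 4) ∧
      (A.card : ℝ) ≤ (T.card : ℝ) ^ (Real.log (8 * K) ^ (768 * 1200) : ℝ) * Nat.card H ∧ H ≤ Γ ∧
      (∃ _ : (H.subgroupOf Γ).Normal, Group.IsNilpotent (Γ ⧸ H.subgroupOf Γ)) ∧
      Subgroup.closure ((Γ : Set G) ∩ ↑(A ^ 4)) = Γ ∧
      (A : Set G) ⊆ (X : Set G) * (Γ : Set G) ∧
      (X.card : ℝ) ≤ Real.exp (Real.log (8 * K) ^ (768 * 1200)) := by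
  obtain ⟨b, hbl⟩ : ∃ b, b = Real.log (8 * K) ^ 768 := ⟨_, rfl⟩
  have hl := numq_two hK
  have hlb : Real.log (8 * K) ≤ b := hbl ▸ le_self_pow₀ (by linarith) (by norm_num)
  have hb : (2 : ℝ) ≤ b := hl.trans hlb
  have hb1 : (1 : ℝ) ≤ b := by linarith
  have hKb : K ≤ Real.exp b := by
    have := (Real.log_le_iff_le_exp (by linarith)).1 hlb
    linarith
  rw [pow_mul, ← hbl]
  refine final_abs hA hs (by linarith) h3 (t := (b ^ 19)⁻¹) (Λ := b ^ 124)
    (P := Real.exp (b ^ 564)) (by positivity) (inv_le_one_of_one_le₀ (one_le_pow₀ hb1))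
    (one_le_pow₀ hb1) (Real.one_le_exp (by positivity)) (by positivity)
    (fun n₀ hn₀ => nssQ hA hs hK h3 hbl hn₀) (fun n k hn hk => num1 hb hn hk) fun m hm => ?_
  rw [inv_inv] at hm
  exact num2Q hb (by linarith) hKb hm

end

end Pool.Agent.MP_34e614_co.H31
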