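import Pool.Agent.MP_34e614_co.H31.PartC
import Pool.Agent.Results.MP_34e614_co.InvariantSeries
import Pool.Agent.Results.MP_34e614_co.CompositionFactors

set_option autoImplicit false

open scoped Pointwise InnerProductSpace

namespace Pool.Agent.MP_34e614_co.H31

universe u

section

theorem solv_aux_comm {G : Type u} [Group G] {T : Finset G} {g : G}
    (h : ∀ x ∈ T, x ∈ Subgroup.zpowers g) : ∀ x ∈ T, ∀ y ∈ T, x * y = y * x := by
  intro x hx y hy
  obtain ⟨i, rfl⟩ := Subgroup.mem_zpowers_iff.1 (h x hx)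
  obtain ⟨j, rfl⟩ := Subgroup.mem_zpowers_iff.1 (h y hy)
  rw [← zpow_add, ← zpow_add, add_comm]

theorem solv_aux_log {a τ η B : ℝ} (ha : 0 < a) (hτ : 0 < τ) (hη : 0 < η)
    (h : a ≤ τ ^ B * η) : Real.log a ≤ B * Real.log τ + Real.log η := by
  have h1 := Real.log_le_log ha h
  rwa [Real.log_mul (Real.rpow_pos_of_pos hτ B).ne' hη.ne', Real.log_rpow hτ] at h1

end

section

theorem red_num (C : ℕ) {c₀ γ : ℝ} (hc₀ : 0 < c₀) (hγ : 0 < γ) :
    ∃ c c' : ℝ, 0 < c ∧ 0 < c' ∧ ∀ K ℓ x h : ℝ, 1 ≤ K → 0 ≤ ℓ → 0 ≤ x → 0 ≤ h →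
      ℓ ≤ Real.log (8 * K) ^ C * x + h →
      c' * (ℓ ^ c / Real.log (2 * K)) ≤ max (Real.log 2) (max x (c₀ * h ^ γ)) := by
  have hC1 : (0 : ℝ) < (C : ℝ) + 1 := by positivity
  have hhalf : (0 : ℝ) < (1 / 2 : ℝ) ^ γ := by positivity
  obtain ⟨c, hc0, hcγ, hcC⟩ : ∃ c : ℝ, 0 < c ∧ c ≤ γ ∧ c * ((C : ℝ) + 1) ≤ 1 :=
    ⟨min γ (1 / ((C : ℝ) + 1)), lt_min hγ (by positivity), min_le_left _ _,
      (le_div_iff₀ hC1).1 (min_le_right _ _)⟩
  obtain ⟨c', hc'0, hc'1, hc'2⟩ : ∃ c' : ℝ, 0 < c' ∧ c' ≤ 1 / 5 ∧ c' ≤ c₀ * (1 / 2 : ℝ) ^ γ / 2 :=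
    ⟨min (1 / 5) (c₀ * (1 / 2 : ℝ) ^ γ / 2), lt_min (by norm_num) (by positivity),
      min_le_left _ _, min_le_right _ _⟩
  refine ⟨c, c', hc0, hc'0, fun K ℓ x h hK hℓ hx hh hle => ?_⟩
  have hlog2 : (2 / 3 : ℝ) < Real.log 2 := lt_trans (by norm_num) Real.log_two_gt_d9
  have hL : Real.log 2 ≤ Real.log (2 * K) := Real.log_le_log (by norm_num) (by linarith)
  have hl : Real.log (8 * K) = Real.log (2 * K) + 2 * Real.log 2 := by
    rw [show 8 * K = 2 * K * 2 ^ 2 by ring, Real.log_mul (by positivity) (by positivity),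
      Real.log_pow]
    norm_num
  generalize Real.log (8 * K) = l at hl hle
  generalize Real.log (2 * K) = L at hl hL
  have hL0 : 0 < L := by linarith
  have hl2 : 2 < l := by linarith
  have hp : 0 ≤ ℓ ^ c := Real.rpow_nonneg hℓ c
  have hdiv : ℓ ^ c / L ≤ 3 / 2 * ℓ ^ c := by
    rw [div_le_iff₀ hL0]
    nlinarith
  have hdiv0 : 0 ≤ ℓ ^ c / L := div_nonneg hp hL0.le
  rcases le_or_gt (ℓ ^ c) l with h1 | h1
  · refine le_max_of_le_left ?_
    have : ℓ ^ c / L ≤ 3 := by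
      rw [div_le_iff₀ hL0]
      linarith
    nlinarith
  · have hℓ1 : 1 ≤ ℓ := by
      by_contra hcon
      have := Real.rpow_le_one hℓ (not_le.1 hcon).le hc0.le
      linarith
    have hℓ0 : 0 < ℓ := by linarith
    have hlC : 0 < l ^ C := by positivity
    have h2 : ℓ ^ c * l ^ C ≤ ℓ := by
      calc ℓ ^ c * l ^ C ≤ ℓ ^ c * (ℓ ^ c) ^ C := by gcongr
        _ = ℓ ^ (c * ((C : ℝ) + 1)) := by
            rw [← pow_succ', ← Real.rpow_natCast, ← Real.rpow_mul hℓ]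
            push_cast
            rfl
        _ ≤ ℓ ^ (1 : ℝ) := Real.rpow_le_rpow_of_exponent_le hℓ1 hcC
        _ = ℓ := Real.rpow_one ℓ
    refine le_max_of_le_right ?_
    rcases le_or_gt (ℓ / 2) (l ^ C * x) with h3 | h3
    · refine le_max_of_le_left ?_
      have h4 : ℓ ^ c ≤ 2 * x := by
        refine le_of_mul_le_mul_right ?_ hlC
        linarith
      nlinarith
    · refine le_max_of_le_right ?_
      have h4 : 1 / 2 * ℓ ≤ h := by linarith
      have h5 : (1 / 2 : ℝ) ^ γ * ℓ ^ c ≤ h ^ γ := by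
        calc (1 / 2 : ℝ) ^ γ * ℓ ^ c ≤ (1 / 2 : ℝ) ^ γ * ℓ ^ γ :=
              mul_le_mul_of_nonneg_left (Real.rpow_le_rpow_of_exponent_le hℓ1 hcγ) hhalf.le
          _ = (1 / 2 * ℓ) ^ γ := (Real.mul_rpow (by norm_num) hℓ).symm
          _ ≤ h ^ γ := Real.rpow_le_rpow (by positivity) h4 hγ.le
      have h6 : 0 ≤ c₀ * ((1 / 2 : ℝ) ^ γ * ℓ ^ c) := by positivity
      calc c' * (ℓ ^ c / L) ≤ (c₀ * (1 / 2 : ℝ) ^ γ / 2) * (3 / 2 * ℓ ^ c) := by gcongr
        _ = 3 / 4 * (c₀ * ((1 / 2 : ℝ) ^ γ * ℓ ^ c)) := by ring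
        _ ≤ c₀ * ((1 / 2 : ℝ) ^ γ * ℓ ^ c) := by linarith
        _ ≤ c₀ * h ^ γ := mul_le_mul_of_nonneg_left h5 hc₀.le

end

section

theorem red (C : ℕ) {c₀ γ : ℝ} (hc₀ : 0 < c₀) (hγ : 0 < γ) :
    ∃ c c' : ℝ, 0 < c ∧ 0 < c' ∧ ∀ (G : Type u) [Group G] [DecidableEq G],
      (∀ H : Subgroup G, Finite H → ∃ T : Finset G, (T : Set G) ⊆ H ∧
        (∀ x ∈ T, ∀ y ∈ T, x * y = y * x) ∧
        Real.exp (c₀ * Real.log (Nat.card H) ^ γ) ≤ T.card) →
      ∀ K : ℝ, 1 ≤ K → ∀ A : Finset G, A.Nonempty → A⁻¹ = A →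
      ∀ (T : Finset G) (g : G) (H : Subgroup G), T ⊆ A ^ 4 → T.Nonempty →
        (∀ x ∈ T, x ∈ Subgroup.zpowers g) → (H : Set G) ⊆ ↑(A ^ 4) →
        (A.card : ℝ) ≤ (T.card : ℝ) ^ (Real.log (8 * K) ^ C : ℝ) * Nat.card H →
      ∃ T' : Finset G, T' ⊆ A ^ 4 ∧ (∀ x ∈ T', ∀ y ∈ T', x * y = y * x) ∧
        Real.exp (c' * (Real.log A.card ^ c / Real.log (2 * K))) ≤ T'.card := by
  obtain ⟨c, c', hc, hc', hnum⟩ := red_num C hc₀ hγ
  refine ⟨c, c', hc, hc', fun G _ _ hG K hK A hA hs T g H hT hTne hTg hH hcard => ?_⟩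
  have hfin : Finite H := ((A ^ 4).finite_toSet.subset hH).to_subtype
  have hτ1 : (1 : ℝ) ≤ T.card := by exact_mod_cast hTne.card_pos
  have hτ : (0 : ℝ) < T.card := by linarith
  have ha : (0 : ℝ) < A.card := by exact_mod_cast hA.card_pos
  have hη : (0 : ℝ) < Nat.card H := by exact_mod_cast Nat.card_pos
  by_cases hA1 : A.card = 1
  · refine ⟨T, hT, solv_aux_comm hTg, ?_⟩
    rw [hA1, Nat.cast_one, Real.log_one, Real.zero_rpow hc.ne', zero_div, mul_zero, Real.exp_zero]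
    exact hτ1
  have hA2 : 2 ≤ A.card := by
    have h2 := hA.card_pos
    omega
  have h1 := hnum K _ _ _ hK (Real.log_natCast_nonneg _) (Real.log_natCast_nonneg _)
    (Real.log_natCast_nonneg _) (solv_aux_log ha hτ hη hcard)
  rcases le_max_iff.1 h1 with h2 | h2
  · obtain ⟨T₀, g₀, hT₀, hg₀, -, h3, -⟩ := final_max hA hs
    refine ⟨T₀, hT₀, solv_aux_comm hg₀, (Real.exp_le_exp.2 h2).trans ?_⟩
    rw [Real.exp_log two_pos]
    exact_mod_cast h3 hA2
  rcases le_max_iff.1 h2 with h2 | h2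
  · exact ⟨T, hT, solv_aux_comm hTg, (Real.le_log_iff_exp_le hτ).1 h2⟩
  · obtain ⟨T', hT', hcomm, hbig⟩ := hG H hfin
    exact ⟨T', Finset.coe_subset.1 (hT'.trans hH), hcomm, (Real.exp_le_exp.2 h2).trans hbig⟩

end

section

theorem simple_lift {H : Type u} [Group H] [Finite H] (N : Subgroup H) [N.Normal]
    (B : Subgroup (H ⧸ N)) (hB : ∀ x ∈ B, ∀ y ∈ B, x * y = y * x) :
    ∃ L : Subgroup H, Group.IsSolvable L ∧ Nat.card B ≤ Nat.card L := by
  classical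
  have hex : ∃ n, ∃ L : Subgroup H, L.map (QuotientGroup.mk' N) = B ∧ Nat.card L = n :=
    ⟨_, B.comap (QuotientGroup.mk' N),
      Subgroup.map_comap_eq_self_of_surjective (QuotientGroup.mk'_surjective N) B, rfl⟩
  obtain ⟨L, hL, hn⟩ := Nat.find_spec hex
  have hmin : ∀ L' : Subgroup H, L'.map (QuotientGroup.mk' N) = B → Nat.card L ≤ Nat.card L' :=
    fun L' h => hn ▸ Nat.find_min' hex ⟨L', h, rfl⟩
  let g : L →* B := ((QuotientGroup.mk' N).comp L.subtype).codRestrict B fun x =>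
    hL ▸ Subgroup.mem_map_of_mem _ x.2
  have hg : Function.Surjective g := by
    rintro ⟨b, hb⟩
    rw [← hL] at hb
    obtain ⟨x, hx, rfl⟩ := hb
    exact ⟨⟨x, hx⟩, rfl⟩
  have hker : g.ker ≤ frattini L := by
    refine le_iInf₂ fun M hM => ?_
    by_contra hc
    have h1 : M ⊔ g.ker = ⊤ := hM.2 _ (left_lt_sup.2 hc)
    have h2 : (M.map L.subtype).map (QuotientGroup.mk' N) = B := by
      refine le_antisymm (hL ▸ Subgroup.map_mono (Subgroup.map_subtype_le M)) fun b hb => ?_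
      obtain ⟨x, hx⟩ := hg ⟨b, hb⟩
      have h3 : x ∈ ((M ⊔ g.ker : Subgroup L) : Set L) := by rw [h1]; trivial
      rw [Subgroup.mul_normal] at h3
      obtain ⟨m, hm, k, hk, rfl⟩ := h3
      refine ⟨m, Subgroup.mem_map_of_mem _ hm, ?_⟩
      have h4 : g m = ⟨b, hb⟩ := by
        rw [← hx]
        simp only [map_mul, MonoidHom.mem_ker.1 hk, mul_one]
      exact congrArg Subtype.val h4
    have h3 := hmin _ h2
    rw [Subgroup.card_map_of_injective L.subtype_injective] at h3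
    exact hM.1 (Subgroup.eq_top_of_le_card M h3)
  have h1 : Group.IsSolvable B :=
    Group.isSolvable_of_comm fun x y => Subtype.ext (hB _ x.2 _ y.2)
  have h2 : Group.IsNilpotent (frattini L) := frattini_nilpotent
  exact ⟨L, Group.isSolvable_of_ker_le_range (frattini L).subtype g (by simpa using hker),
    Nat.card_le_card_of_surjective g hg⟩

end

section

theorem simpleb_solv : ∃ c : ℝ, 0 < c ∧ ∀ (L : Type u) [Group L] [Finite L], Group.IsSolvable L →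
    ∃ T : Finset L, (∀ x ∈ T, ∀ y ∈ T, x * y = y * x) ∧
      Real.exp (c * Real.log (Nat.card L) ^ (1 / 3 : ℝ)) ≤ T.card := by
  obtain ⟨c, hc, hres⟩ := Pool.Agent.Results.MP_34e614_co.InvariantSeries.result.{u}
  refine ⟨c, hc, fun L _ _ hL => ?_⟩
  classical
  let _i := Fintype.ofFinite L
  obtain ⟨T, -, h1, h2⟩ := hres L (Or.inl hL) 1 le_rfl Finset.univ Finset.univ_nonempty (by simp)
    (by
      rw [one_mul]
      exact_mod_cast Finset.card_le_univ _)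
  refine ⟨T, h1, le_trans (Real.exp_le_exp.2 ?_) h2⟩
  rw [Finset.card_univ, ← Nat.card_eq_fintype_card, mul_one]
  have h3 := Real.log_two_lt_d9
  have h4 := Real.log_two_gt_d9
  exact mul_le_mul_of_nonneg_left (le_div_self (Real.rpow_nonneg (Real.log_natCast_nonneg _) _)
    (by linarith) (by linarith)) hc.le

theorem simpleb_comp : ∃ c : ℝ, 0 < c ∧ ∀ (H : Type u) [Group H] [Finite H],
    (∀ (H₁ : Subgroup H) (N : Subgroup H₁) [N.Normal], IsSimpleGroup (H₁ ⧸ N) →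
      (∀ x y : H₁ ⧸ N, x * y = y * x) ∨
        (Nat.card (H₁ ⧸ N) : ℝ) ≤ Real.exp (Real.log (Nat.card H) ^ (1 / 3 : ℝ))) →
    ∃ T : Finset H, (∀ x ∈ T, ∀ y ∈ T, x * y = y * x) ∧
      Real.exp (c * Real.log (Nat.card H) ^ (1 / 3 : ℝ)) ≤ T.card := by
  obtain ⟨c, hc, hres⟩ := Pool.Agent.Results.MP_34e614_co.CompositionFactors.result.{u}
  refine ⟨c, hc, fun H _ _ hH => ?_⟩
  classical
  let _i := Fintype.ofFinite H
  obtain ⟨T, -, h1, h2⟩ := hres H 1 le_rfl Finset.univ Finset.univ_nonempty (by simp)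
    (by
      rw [one_mul]
      exact_mod_cast Finset.card_le_univ _) (fun H₁ N _ _ hs => by
      rw [Finset.card_univ, ← Nat.card_eq_fintype_card]
      exact hH H₁ N hs)
  refine ⟨T, h1, le_trans (Real.exp_le_exp.2 ?_) h2⟩
  rw [Finset.card_univ, ← Nat.card_eq_fintype_card, mul_one]
  have h3 := Real.log_two_lt_d9
  have h4 := Real.log_two_gt_d9
  exact mul_le_mul_of_nonneg_left (le_div_self (Real.rpow_nonneg (Real.log_natCast_nonneg _) _)
    (by linarith) (by linarith)) hc.le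

theorem simple_fin {c₀ γ : ℝ} (hc₀ : 0 < c₀) (hγ : 0 < γ) :
    ∃ c₁ γ₁ : ℝ, 0 < c₁ ∧ 0 < γ₁ ∧ ∀ (H : Type u) [Group H] [Finite H],
      (∀ (H₁ : Subgroup H) (N : Subgroup H₁) [N.Normal], IsSimpleGroup (H₁ ⧸ N) →
        (∀ x y : H₁ ⧸ N, x * y = y * x) ∨ ∃ B : Finset (H₁ ⧸ N),
          (∀ x ∈ B, ∀ y ∈ B, x * y = y * x) ∧
          Real.exp (c₀ * Real.log (Nat.card (H₁ ⧸ N)) ^ γ) ≤ B.card) →
      ∃ T : Finset H, (∀ x ∈ T, ∀ y ∈ T, x * y = y * x) ∧
        Real.exp (c₁ * Real.log (Nat.card H) ^ γ₁) ≤ T.card := by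
  classical
  obtain ⟨c, hc, h1⟩ := simpleb_comp.{u}
  obtain ⟨c', hc', h2⟩ := simpleb_solv.{u}
  have hc3 : 0 < c' * c₀ ^ (1 / 3 : ℝ) := by positivity
  have hlog : 0 < Real.log 2 := Real.log_pos (by norm_num)
  refine ⟨min (Real.log 2) (min c (c' * c₀ ^ (1 / 3 : ℝ))), min (γ / 9) (1 / 3),
    lt_min hlog (lt_min hc hc3), lt_min (by positivity) (by norm_num), fun H _ _ hH => ?_⟩
  have hγ₁ : 0 < min (γ / 9) (1 / 3) := lt_min (by positivity) (by norm_num)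
  have hl0 : 0 ≤ Real.log (Nat.card H) := Real.log_natCast_nonneg _
  rcases subsingleton_or_nontrivial H with h0 | h0
  · refine ⟨{1}, by simp, ?_⟩
    rw [Nat.card_of_subsingleton (1 : H), Nat.cast_one, Real.log_one, Real.zero_rpow hγ₁.ne']
    simp
  rcases le_total (Real.log (Nat.card H)) 1 with hl | hl
  · obtain ⟨x, hx⟩ := exists_ne (1 : H)
    refine ⟨{1, x}, by simp, ?_⟩
    rw [Finset.card_pair hx.symm, ← Real.le_log_iff_exp_le (by norm_num)]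
    exact (mul_le_mul (min_le_left _ _) (Real.rpow_le_one hl0 hl hγ₁.le) (by positivity)
      hlog.le).trans (by simp)
  by_cases hs : ∀ (H₁ : Subgroup H) (N : Subgroup H₁) [N.Normal], IsSimpleGroup (H₁ ⧸ N) →
      (∀ x y : H₁ ⧸ N, x * y = y * x) ∨
        (Nat.card (H₁ ⧸ N) : ℝ) ≤ Real.exp (Real.log (Nat.card H) ^ (1 / 3 : ℝ))
  · obtain ⟨T, t1, t2⟩ := h1 H hs
    exact ⟨T, t1, le_trans (Real.exp_le_exp.2 (mul_le_mul ((min_le_right _ _).trans (min_le_left _ _))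
      (Real.rpow_le_rpow_of_exponent_le hl (min_le_right _ _)) (by positivity) hc.le)) t2⟩
  push Not at hs
  obtain ⟨H₁, N, _, s1, s2, s3⟩ := hs
  obtain ⟨B, b1, b2⟩ := (hH H₁ N s1).resolve_left fun h => by
    obtain ⟨x, y, hxy⟩ := s2
    exact hxy (h x y)
  obtain ⟨L, l1, l2⟩ := simple_lift N (Subgroup.closure (B : Set (H₁ ⧸ N))) fun x hx y hy => by
    have := Subgroup.isMulCommutative_closure (k := (B : Set (H₁ ⧸ N))) fun x hx y hy => b1 x hx y hy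
    exact congrArg Subtype.val (mul_comm' (⟨x, hx⟩ : Subgroup.closure (B : Set (H₁ ⧸ N))) ⟨y, hy⟩)
  obtain ⟨T, t1, t2⟩ := h2 L l1
  have l3 : B.card ≤ Nat.card L := by
    refine le_trans ?_ l2
    rw [← Nat.card_eq_finsetCard]
    exact Nat.card_le_card_of_injective (Set.inclusion Subgroup.subset_closure)
      (Set.inclusion_injective _)
  refine ⟨T.map ⟨fun x => (x.1 : H), fun x y h => Subtype.ext (Subtype.ext h)⟩, ?_, ?_⟩
  · intro x hx y hy
    obtain ⟨x', hx', rfl⟩ := Finset.mem_map.1 hx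
    obtain ⟨y', hy', rfl⟩ := Finset.mem_map.1 hy
    exact congrArg (fun z : L => (z.1 : H)) (t1 x' hx' y' hy')
  · rw [Finset.card_map]
    refine le_trans (Real.exp_le_exp.2 ?_) t2
    have a1 : Real.log (Nat.card H) ^ (1 / 3 : ℝ) ≤ Real.log (Nat.card (H₁ ⧸ N)) :=
      (Real.le_log_iff_exp_le ((Real.exp_pos _).trans s3)).2 s3.le
    have a2 : c₀ * (Real.log (Nat.card H) ^ (1 / 3 : ℝ)) ^ γ ≤ Real.log (Nat.card L) := by
      have a3 : Real.exp (c₀ * Real.log (Nat.card (H₁ ⧸ N)) ^ γ) ≤ Nat.card L :=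
        b2.trans (by exact_mod_cast l3)
      refine le_trans ?_ ((Real.le_log_iff_exp_le ((Real.exp_pos _).trans_le a3)).2 a3)
      exact mul_le_mul_of_nonneg_left (Real.rpow_le_rpow (by positivity) a1 hγ.le) hc₀.le
    have a4 := Real.rpow_le_rpow (by positivity) a2 (show (0 : ℝ) ≤ 1 / 3 by norm_num)
    rw [Real.mul_rpow hc₀.le (by positivity), ← Real.rpow_mul hl0, ← Real.rpow_mul hl0,
      show 1 / 3 * γ * (1 / 3) = γ / 9 by ring] at a4
    refine le_trans ?_ (mul_le_mul_of_nonneg_left a4 hc'.le)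
    rw [← mul_assoc]
    exact mul_le_mul ((min_le_right _ _).trans (min_le_right _ _))
      (Real.rpow_le_rpow_of_exponent_le hl (min_le_left _ _)) (by positivity) hc3.le

end

section

theorem pyber_of_simple {c₀ γ : ℝ} (hc₀ : 0 < c₀) (hγ : 0 < γ) :
    ∃ c₁ γ₁ : ℝ, 0 < c₁ ∧ 0 < γ₁ ∧ ∀ (G : Type u) [Group G],
      (∀ (H : Subgroup G) (N : Subgroup H) [N.Normal], Finite H → IsSimpleGroup (H ⧸ N) →
        (∀ x y : H ⧸ N, x * y = y * x) ∨ ∃ B : Finset (H ⧸ N),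
          (∀ x ∈ B, ∀ y ∈ B, x * y = y * x) ∧
          Real.exp (c₀ * Real.log (Nat.card (H ⧸ N)) ^ γ) ≤ B.card) →
      ∀ H : Subgroup G, Finite H → ∃ T : Finset G, (T : Set G) ⊆ H ∧
        (∀ x ∈ T, ∀ y ∈ T, x * y = y * x) ∧
        Real.exp (c₁ * Real.log (Nat.card H) ^ γ₁) ≤ T.card := by
  obtain ⟨c₁, γ₁, hc₁, hγ₁, h⟩ := simple_fin.{u} hc₀ hγ
  refine ⟨c₁, γ₁, hc₁, hγ₁, fun G _ hG H hH => ?_⟩
  obtain ⟨T, hT, hcard⟩ := h H (fun H₁ N hN hS => by
    let e : H₁ ≃* H₁.map H.subtype := H₁.equivMapOfInjective H.subtype H.subtype_injective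
    have hN' : (N.map (e : H₁ →* H₁.map H.subtype)).Normal := hN.map _ e.surjective
    let q : H₁ ⧸ N ≃* (H₁.map H.subtype) ⧸ (N.map (e : H₁ →* H₁.map H.subtype)) :=
      QuotientGroup.congr N _ e rfl
    have hfin : Finite (H₁.map H.subtype) := Finite.of_equiv _ e.toEquiv
    have hS' : IsSimpleGroup ((H₁.map H.subtype) ⧸ (N.map (e : H₁ →* H₁.map H.subtype))) :=
      q.symm.isSimpleGroup
    rcases hG _ (N.map (e : H₁ →* H₁.map H.subtype)) hfin hS' with h1 | ⟨B, hB, hc⟩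
    · left
      intro x y
      apply q.injective
      rw [map_mul, map_mul, h1]
    · right
      refine ⟨B.map q.symm.toEquiv.toEmbedding, ?_, ?_⟩
      · intro x hx y hy
        obtain ⟨a, ha, rfl⟩ := Finset.mem_map.1 hx
        obtain ⟨b, hb, rfl⟩ := Finset.mem_map.1 hy
        change q.symm a * q.symm b = q.symm b * q.symm a
        rw [← map_mul, ← map_mul, hB a ha b hb]
      · rw [Finset.card_map, Nat.card_congr q.toEquiv]
        exact hc)
  refine ⟨T.map ⟨H.subtype, H.subtype_injective⟩, ?_, ?_, ?_⟩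
  · intro x hx
    obtain ⟨a, _, rfl⟩ := Finset.mem_map.1 (Finset.mem_coe.1 hx)
    exact a.2
  · intro x hx y hy
    obtain ⟨a, ha, rfl⟩ := Finset.mem_map.1 hx
    obtain ⟨b, hb, rfl⟩ := Finset.mem_map.1 hy
    change H.subtype a * H.subtype b = H.subtype b * H.subtype a
    rw [← map_mul, ← map_mul, hT a ha b hb]
  · rw [Finset.card_map]
    exact hcard

end

end Pool.Agent.MP_34e614_co.H31
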